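import Pool.Agent.Lib.MTC.EmbedA
import Pool.Agent.Lib.MTX.LowerN
import Pool.Agent.Lib.MTX.PhiL

/-!
# MTC.Avg (MP_e46137_lc, theorem B*): the correlation bound
-/

namespace MTC

open Classical Finset MTS

/-- the probability of acceptance on the random path with `r + 1` edges -/
noncomputable def accP {n : ℕ} (f : (Fin n → Fin n → Bool) → Bool) (r : ℕ) (s t : Fin n) : ℝ :=
  (((seqs n r s t).filter (fun P => f (pathGraph s t P) = true)).card : ℝ) / (seqs n r s t).card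

/-- the probability of acceptance on the random cut -/
noncomputable def accC {n : ℕ} (f : (Fin n → Fin n → Bool) → Bool) (s t : Fin n) : ℝ :=
  (((cuts n s t).filter (fun C => f (cutGraph C) = true)).card : ℝ) / (cuts n s t).card

theorem accP_le_one {n : ℕ} (f : (Fin n → Fin n → Bool) → Bool) (r : ℕ) (s t : Fin n) :
    accP f r s t ≤ 1 := by
  unfold accP
  apply div_le_one_of_le₀
  · exact_mod_cast Finset.card_filter_le _ _
  · positivity

theorem accP_nonneg {n : ℕ} (f : (Fin n → Fin n → Bool) → Bool) (r : ℕ) (s t : Fin n) :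
    0 ≤ accP f r s t := by
  unfold accP
  positivity

theorem accC_nonneg {n : ℕ} (f : (Fin n → Fin n → Bool) → Bool) (s t : Fin n) :
    0 ≤ accC f s t := by
  unfold accC
  positivity

theorem cuts_pos {n : ℕ} {s t : Fin n} (hst : s ≠ t) : 0 < (cuts n s t).card := by
  rw [Finset.card_pos]
  refine ⟨{s}, ?_⟩
  unfold cuts
  rw [Finset.mem_filter]
  exact ⟨Finset.mem_univ _, Finset.mem_singleton_self _, by
    rw [Finset.mem_singleton]
    exact Ne.symm hst⟩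

/-- a constant function has no advantage -/
theorem adv_const {n : ℕ} (f : (Fin n → Fin n → Bool) → Bool) (b : Bool) (hf : ∀ G, f G = b)
    (r : ℕ) {s t : Fin n} (hst : s ≠ t) : accP f r s t - accC f s t ≤ 0 := by
  cases b with
  | true =>
    have h1 : accC f s t = 1 := by
      unfold accC
      have h2 : (cuts n s t).filter (fun C => f (cutGraph C) = true) = cuts n s t := by
        apply Finset.filter_true_of_mem
        intro C _
        exact hf _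
      rw [h2]
      apply div_self
      have := cuts_pos hst
      exact_mod_cast this.ne'
    have h2 := accP_le_one f r s t
    linarith
  | false =>
    have h1 : accP f r s t = 0 := by
      unfold accP
      have h2 : (seqs n r s t).filter (fun P => f (pathGraph s t P) = true) = ∅ := by
        apply Finset.filter_false_of_mem
        intro P _
        rw [hf]
        exact Bool.false_ne_true
      rw [h2]
      simp
    have h2 := accC_nonneg f s t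
    linarith

namespace AvgAux

/-- powers of `l` -/
theorem pow_facts {l : ℕ} (hl : 1 ≤ l) : l ≤ l ^ 2 ∧ l ^ 2 ≤ l ^ 3 ∧ l ^ 3 ≤ l ^ 4 ∧ l ^ 4 ≤ l ^ 7 ∧
    1 ≤ l ^ 4 ∧ 1 ≤ l ^ 7 ∧ 1 ≤ l ^ 3 := by
  refine ⟨?_, Nat.pow_le_pow_right hl (by omega), Nat.pow_le_pow_right hl (by omega),
    Nat.pow_le_pow_right hl (by omega), Nat.one_le_pow _ _ hl, Nat.one_le_pow _ _ hl,
    Nat.one_le_pow _ _ hl⟩
  calc l = l ^ 1 := (pow_one l).symm
    _ ≤ l ^ 2 := Nat.pow_le_pow_right hl (by omega)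

/-- the small terms -/
theorem eps_le {n S r w L l : ℕ} (hl : 1 ≤ l) (hn : n < 2 ^ l) (hS : S ≤ n) (hr : r + 1 ≤ n)
    (hw : w ≤ 24 * l ^ 3) (hL : L = 300 * l ^ 4) (hLn : L ≤ n - 2) :
    ((2 * S + r + 1 : ℝ)) / 4 ^ (4 * l ^ 2 + 8) +
      (S * ((2 * ((n - 2 : ℕ) * 1) + 1) ^ w * 2 ^ (n - 2 - L))) / 2 ^ (n - 2) ≤
      1 / (2 * 2 ^ (l ^ 2)) := by
  obtain ⟨f1, f2, f3, f4, f5, f6, f7⟩ := pow_facts hl
  have h1 : ((2 * S + r + 1 : ℝ)) / 4 ^ (4 * l ^ 2 + 8) ≤ 1 / (4 * 2 ^ (l ^ 2)) := by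
    rw [div_le_div_iff₀ (by positivity) (by positivity), one_mul]
    have h2 : (2 * S + r + 1) * (4 * 2 ^ (l ^ 2)) ≤ 4 ^ (4 * l ^ 2 + 8) := by
      calc (2 * S + r + 1) * (4 * 2 ^ (l ^ 2)) ≤ 2 ^ (l + 2) * (2 ^ 2 * 2 ^ (l ^ 2)) := by
            apply Nat.mul_le_mul _ (by norm_num)
            have : 2 ^ (l + 2) = 4 * 2 ^ l := by ring
            omega
        _ = 2 ^ (l + 2 + (2 + l ^ 2)) := by rw [← pow_add, ← pow_add]
        _ ≤ 2 ^ (2 * (4 * l ^ 2 + 8)) := Nat.pow_le_pow_right (by norm_num) (by omega)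
        _ = 4 ^ (4 * l ^ 2 + 8) := by rw [pow_mul]; norm_num
    exact_mod_cast h2
  have h2 : ((S : ℝ) * ((2 * ((n - 2 : ℕ) * 1) + 1) ^ w * 2 ^ (n - 2 - L))) / 2 ^ (n - 2) ≤
      1 / (4 * 2 ^ (l ^ 2)) := by
    rw [div_le_div_iff₀ (by positivity) (by positivity), one_mul]
    have h3 : S * ((2 * ((n - 2) * 1) + 1) ^ w * 2 ^ (n - 2 - L)) * (4 * 2 ^ (l ^ 2)) ≤
        2 ^ (n - 2) := by
      have a1 : (2 * ((n - 2) * 1) + 1) ^ w ≤ 2 ^ ((l + 1) * w) := by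
        rw [pow_mul 2 (l + 1) w]
        apply Nat.pow_le_pow_left
        have : 2 ^ (l + 1) = 2 * 2 ^ l := by ring
        omega
      calc S * ((2 * ((n - 2) * 1) + 1) ^ w * 2 ^ (n - 2 - L)) * (4 * 2 ^ (l ^ 2))
          ≤ 2 ^ l * (2 ^ ((l + 1) * w) * 2 ^ (n - 2 - L)) * (2 ^ 2 * 2 ^ (l ^ 2)) := by
            apply Nat.mul_le_mul _ (by norm_num)
            exact Nat.mul_le_mul (by omega) (Nat.mul_le_mul_right _ a1)
        _ = 2 ^ (l + ((l + 1) * w + (n - 2 - L)) + (2 + l ^ 2)) := by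
            rw [← pow_add, ← pow_add, ← pow_add, ← pow_add]
        _ ≤ 2 ^ (n - 2) := by
            apply Nat.pow_le_pow_right (by norm_num)
            have a3 : (l + 1) * w ≤ (l + 1) * (24 * l ^ 3) := Nat.mul_le_mul_left _ hw
            have a4 : (l + 1) * (24 * l ^ 3) = 24 * l ^ 4 + 24 * l ^ 3 := by ring
            omega
    have h4 : ((S * ((2 * ((n - 2) * 1) + 1) ^ w * 2 ^ (n - 2 - L)) * (4 * 2 ^ (l ^ 2)) : ℕ) : ℝ) ≤
        ((2 ^ (n - 2) : ℕ) : ℝ) := by exact_mod_cast h3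
    push_cast at h4
    exact h4
  have h3 : (1 : ℝ) / (2 * 2 ^ (l ^ 2)) = 1 / (4 * 2 ^ (l ^ 2)) + 1 / (4 * 2 ^ (l ^ 2)) := by
    have : (0 : ℝ) < 2 ^ (l ^ 2) := by positivity
    field_simp
    norm_num
  linarith

end AvgAux

open AvgAux

/-- The advantage `δ` against `T' ≥ T / δ`. -/
theorem explicit3 {n S d k T T' : ℕ} {s t : Fin n} (hk : 1 ≤ k) (hst : s ≠ t) (hS : 1 ≤ S)
    (hT : 1 ≤ T) (M : MTB.Mach n S) (out : Fin S) (δ : ℝ) (hδ : 0 < δ)
    (hadv : δ = accP (fun G => M.run G T out) (d - 1) s t - accC (fun G => M.run G T out) s t)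
    (hT' : (T : ℝ) / δ ≤ T') (hT2 : T' ≤ 2 ^ (Nat.log 2 n + 1) ^ 2) (hkd : 2 ^ k ≤ d)
    (hC : 10 ^ 9 * (Nat.log 2 n + 1) ^ 7 * S * d ≤ n) :
    n ^ (k - 1) ≤
        T' * (10 ^ 9 * (Nat.log 2 n + 1) ^ 9 * S) ^ (k - 1) * 2 ^ (k * (k + 1) / 2 + 1) := by
  have hδ1 : δ ≤ 1 := by
    have h1 := accP_le_one (fun G => M.run G T out) (d - 1) s t
    have h2 := accC_nonneg (fun G => M.run G T out) s t
    linarith
  have hTT' : T ≤ T' := by
    have h1 : (T : ℝ) ≤ T / δ := by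
      rw [le_div_iff₀ hδ]
      have : (0 : ℝ) ≤ T := Nat.cast_nonneg _
      nlinarith
    exact_mod_cast h1.trans hT'
  obtain ⟨k, rfl⟩ : ∃ k', k = k' + 1 := ⟨k - 1, by omega⟩
  rw [Nat.add_sub_cancel]
  rcases Nat.eq_zero_or_pos k with hk0 | hk0
  · subst hk0
    rw [pow_zero, pow_zero, mul_one]
    calc 1 = 1 * 1 := rfl
      _ ≤ T' * 2 ^ ((0 + 1) * (0 + 1 + 1) / 2 + 1) :=
        Nat.mul_le_mul (hT.trans hTT') Nat.one_le_two_pow
  obtain ⟨l, hl⟩ : ∃ l, Nat.log 2 n + 1 = l := ⟨_, rfl⟩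
  rw [hl] at hT2 hC ⊢
  have hl1 : 1 ≤ l := by omega
  obtain ⟨f1, f2, f3, f4, f5, f6, f7⟩ := pow_facts hl1
  have hn2 : n < 2 ^ l := by
    rw [← hl]
    exact Nat.lt_pow_succ_log_self (by norm_num) n
  have h2k : 1 ≤ 2 ^ (k + 1) := Nat.one_le_two_pow
  -- the basic inequality in three forms
  have hb : 10 ^ 9 * (l ^ 7 * S * d) ≤ n := by
    refine le_trans (le_of_eq ?_) hC
    ring
  obtain ⟨Q, hQ⟩ : ∃ Q, l ^ 7 * S * d = Q := ⟨_, rfl⟩
  have hd1 : 1 ≤ d := h2k.trans hkd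
  have hQ7 : l ^ 7 ≤ Q := by
    rw [← hQ]
    calc l ^ 7 = l ^ 7 * 1 * 1 := by ring
      _ ≤ l ^ 7 * S * d := Nat.mul_le_mul (Nat.mul_le_mul_left _ hS) hd1
  have hQd : d ≤ Q := by
    rw [← hQ]
    calc d = 1 * 1 * d := by ring
      _ ≤ l ^ 7 * S * d := Nat.mul_le_mul_right _ (Nat.mul_le_mul f6 hS)
  have hQS : S ≤ Q := by
    rw [← hQ]
    calc S = 1 * S * 1 := by ring
      _ ≤ l ^ 7 * S * d := Nat.mul_le_mul (Nat.mul_le_mul_right _ f6) hd1
  rw [hQ] at hb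
  have hkl : k + 2 ≤ l := by
    have h1 : 2 ^ (k + 1) < 2 ^ l := by omega
    have h2 := (Nat.pow_lt_pow_iff_right (by norm_num : 1 < 2)).1 h1
    omega
  have hSn : S ≤ n := by omega
  have hLn : 300 * l ^ 4 ≤ n - 2 := by omega
  obtain ⟨w, hw⟩ : ∃ w, w = (k + 3) * (4 * l ^ 2 + 8) := ⟨_, rfl⟩
  have hwle : w ≤ 24 * l ^ 3 := by
    have h1 : (k + 3) * (4 * l ^ 2 + 8) ≤ (l + 1) * (4 * l ^ 2 + 8) :=
      Nat.mul_le_mul_right _ (by omega)
    have h2 : (l + 1) * (4 * l ^ 2 + 8) = 4 * l ^ 3 + 4 * l ^ 2 + 8 * l + 8 := by ring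
    rw [hw]
    omega
  have hmain := explicitA (k := k) (r := d - 1) (w := w) (w₁ := 4 * l ^ 2 + 8) (L := 300 * l ^ 4)
    (V := Nat.clog 2 T) (T := T) hst M out (by omega) hw (by omega) (by omega) hLn
    (by
      have b0 : 64 * (8 * w * (300 * l ^ 4)) * S * 2 ^ k ≤
          64 * (8 * (24 * l ^ 3) * (300 * l ^ 4)) * S * 2 ^ k := by gcongr
      have b1 : 2 * (64 * (8 * (24 * l ^ 3) * (300 * l ^ 4)) * S * 2 ^ k) ≤ 3686400 * Q := by
        rw [← hQ]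
        calc 2 * (64 * (8 * (24 * l ^ 3) * (300 * l ^ 4)) * S * 2 ^ k) =
              3686400 * (l ^ 7 * S * 2 ^ (k + 1)) := by
              rw [pow_succ]
              ring
          _ ≤ 3686400 * (l ^ 7 * S * d) :=
              Nat.mul_le_mul_left _ (Nat.mul_le_mul_left _ hkd)
      omega)
    (by
      have b0 : 32 * (8 * w * (300 * l ^ 4)) * S * (d - 1) ≤
          32 * (8 * (24 * l ^ 3) * (300 * l ^ 4)) * S * d := by
        gcongr
        omega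
      have b1 : 32 * (8 * (24 * l ^ 3) * (300 * l ^ 4)) * S * d = 1843200 * Q := by
        rw [← hQ]
        ring
      omega)
    (by
      have := hwle
      omega)
    (Nat.le_pow_clog (by norm_num) T)
  have hadv' : δ ≤ 2 ^ Nat.clog 2 T * (Nat.clog 2 T : ℝ) ^ k *
      (16 * (8 * w * ((300 * l ^ 4 : ℕ) : ℝ)) * S) ^ k * 2 ^ (k * (k + 1) / 2) /
        ((n - 2 - (d - 1) : ℕ) : ℝ) ^ k +
      T * (((2 * S + (d - 1 : ℕ) + 1 : ℝ)) / 4 ^ (4 * l ^ 2 + 8) +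
      (S * ((2 * ((n - 2 : ℕ) * 1) + 1) ^ w * 2 ^ (n - 2 - 300 * l ^ 4))) / 2 ^ (n - 2)) := by
    rw [hadv]
    refine hmain.trans (le_of_eq ?_)
    ring
  have heps := eps_le (n := n) (S := S) (r := d - 1) (w := w) (L := 300 * l ^ 4) hl1 hn2 hSn
    (by omega) hwle rfl hLn
  have hTpos : (0 : ℝ) < T := by exact_mod_cast hT
  have hT'pos : (0 : ℝ) < T' := by
    have : 0 < T' := lt_of_lt_of_le hT hTT'
    exact_mod_cast this
  have hT2' : (T' : ℝ) ≤ 2 ^ (l ^ 2) := by exact_mod_cast hT2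
  have hTδ : (T : ℝ) ≤ δ * T' := by
    rw [div_le_iff₀ hδ] at hT'
    linarith
  have hhalf : (T : ℝ) * (1 / (2 * 2 ^ (l ^ 2))) ≤ δ / 2 := by
    have h1 : (0 : ℝ) < 2 ^ (l ^ 2) := by positivity
    rw [mul_one_div, div_le_div_iff₀ (by positivity) (by norm_num)]
    nlinarith
  have hR : n ≤ 2 * (n - 2 - (d - 1)) := by omega
  have hRpos : (0 : ℝ) < ((n - 2 - (d - 1) : ℕ) : ℝ) := by
    have : 0 < n - 2 - (d - 1) := by omega
    exact_mod_cast this
  have hclog : Nat.clog 2 T ≤ l ^ 2 := Nat.clog_le_of_le_pow (hTT'.trans hT2)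
  have hclog2 : 2 ^ Nat.clog 2 T ≤ 2 * T := by
    rcases Nat.lt_or_ge 1 T with h1 | h1
    · have h2 := Nat.pow_pred_clog_lt_self (by norm_num : 1 < 2) h1
      have h3 : 0 < Nat.clog 2 T := Nat.clog_pos (by norm_num) h1
      have h4 : 2 ^ Nat.clog 2 T = 2 * 2 ^ (Nat.clog 2 T).pred := by
        rw [← pow_succ']
        congr 1
        exact (Nat.succ_pred_eq_of_pos h3).symm
      omega
    · have h2 : T = 1 := le_antisymm h1 hT
      subst h2
      simp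
  -- the main term
  obtain ⟨X, hX⟩ : ∃ X : ℕ, X = (l ^ 2) ^ k *
      (16 * (8 * (24 * l ^ 3) * (300 * l ^ 4)) * S) ^ k * 2 ^ (k * (k + 1) / 2) := ⟨_, rfl⟩
  have hnum : 2 ^ Nat.clog 2 T * (Nat.clog 2 T) ^ k *
      (16 * (8 * w * (300 * l ^ 4)) * S) ^ k * 2 ^ (k * (k + 1) / 2) ≤ 2 * T * X := by
    calc 2 ^ Nat.clog 2 T * (Nat.clog 2 T) ^ k *
      (16 * (8 * w * (300 * l ^ 4)) * S) ^ k * 2 ^ (k * (k + 1) / 2)
        ≤ 2 * T * (l ^ 2) ^ k *
      (16 * (8 * (24 * l ^ 3) * (300 * l ^ 4)) * S) ^ k * 2 ^ (k * (k + 1) / 2) := by gcongr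
      _ = 2 * T * X := by rw [hX]; ring
  have hnumR : 2 ^ Nat.clog 2 T * (Nat.clog 2 T : ℝ) ^ k *
      (16 * (8 * w * ((300 * l ^ 4 : ℕ) : ℝ)) * S) ^ k * 2 ^ (k * (k + 1) / 2) ≤ 2 * T * X := by
    exact_mod_cast hnum
  have hmid : δ / 2 ≤ 2 * T * X / ((n - 2 - (d - 1) : ℕ) : ℝ) ^ k := by
    have h1 : 2 ^ Nat.clog 2 T * (Nat.clog 2 T : ℝ) ^ k *
      (16 * (8 * w * ((300 * l ^ 4 : ℕ) : ℝ)) * S) ^ k * 2 ^ (k * (k + 1) / 2) /
        ((n - 2 - (d - 1) : ℕ) : ℝ) ^ k ≤ 2 * T * X / ((n - 2 - (d - 1) : ℕ) : ℝ) ^ k :=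
      div_le_div_of_nonneg_right hnumR (by positivity)
    have h2 := mul_le_mul_of_nonneg_left heps hTpos.le
    linarith
  have hfin : ((n - 2 - (d - 1) : ℕ) : ℝ) ^ k ≤ 4 * T' * X := by
    rw [le_div_iff₀ (by positivity)] at hmid
    have hXp : (0 : ℝ) ≤ X := Nat.cast_nonneg _
    have h1 : δ * ((n - 2 - (d - 1) : ℕ) : ℝ) ^ k ≤ δ * (4 * T' * X) := by
      have h2 : (T : ℝ) * X ≤ δ * T' * X := mul_le_mul_of_nonneg_right hTδ hXp
      nlinarith
    exact le_of_mul_le_mul_left h1 hδ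
  have hfinN : (n - 2 - (d - 1)) ^ k ≤ 4 * T' * X := by exact_mod_cast hfin
  have hkk : (k + 1) * (k + 1 + 1) / 2 = k * (k + 1) / 2 + (k + 1) := by
    have h1 : (k + 1) * (k + 1 + 1) = k * (k + 1) + 2 * (k + 1) := by ring
    rw [h1]
    omega
  calc n ^ k ≤ (2 * (n - 2 - (d - 1))) ^ k := Nat.pow_le_pow_left hR _
    _ = 2 ^ k * (n - 2 - (d - 1)) ^ k := by rw [mul_pow]
    _ ≤ 2 ^ k * (4 * T' * X) := Nat.mul_le_mul_left _ hfinN
    _ = 4 * (T' * (1843200 * l ^ 9 * S) ^ k * 2 ^ (k * (k + 1) / 2)) := by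
        have e1 : 1843200 * l ^ 9 * S =
            2 * (l ^ 2 * (16 * (8 * (24 * l ^ 3) * (300 * l ^ 4)) * S)) := by ring
        rw [e1, mul_pow 2, mul_pow (l ^ 2), hX]
        ring
    _ ≤ 4 ^ k * (T' * (1843200 * l ^ 9 * S) ^ k * 2 ^ (k * (k + 1) / 2)) := by
        apply Nat.mul_le_mul_right
        calc 4 = 4 ^ 1 := by norm_num
          _ ≤ 4 ^ k := Nat.pow_le_pow_right (by norm_num) hk0
    _ = T' * (7372800 * l ^ 9 * S) ^ k * 2 ^ (k * (k + 1) / 2) := by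
        have e1 : 7372800 * l ^ 9 * S = 4 * (1843200 * l ^ 9 * S) := by ring
        rw [e1, mul_pow 4]
        ring
    _ ≤ T' * (10 ^ 9 * l ^ 9 * S) ^ k * 2 ^ ((k + 1) * (k + 1 + 1) / 2 + 1) := by
        rw [hkk]
        apply Nat.mul_le_mul
        · apply Nat.mul_le_mul_left
          apply Nat.pow_le_pow_left
          apply Nat.mul_le_mul_right
          apply Nat.mul_le_mul_right
          norm_num
        · exact Nat.pow_le_pow_right (by norm_num) (by omega)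

/-- **Correlation bound** for oblivious machines. -/
theorem adv_obl : ∃ c : ℝ, 0 < c ∧ ∀ (n S d T : ℕ) (s t : Fin n), 4 ≤ n → 1 ≤ S → S ≤ n →
    2 ≤ d → d ≤ n → s ≠ t → 10 ^ 9 * (Nat.log 2 n + 1) ^ 7 * S * d ≤ n →
    ∀ (M : MTB.Mach n S) (out : Fin S),
      accP (fun G => M.run G T out) (d - 1) s t - accC (fun G => M.run G T out) s t ≤
        T * (2 : ℝ) ^ (-(MTX.phi n S d - c * MTX.err n S d)) := by
  obtain ⟨c, hc, hL⟩ := MTX.lower_num (10 ^ 9) (by norm_num)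
  refine ⟨c + 1, by linarith, ?_⟩
  intro n S d T s t hn hS hSn hd hdn hst hC M out
  obtain ⟨δ, hδdef⟩ : ∃ δ, δ = accP (fun G => M.run G T out) (d - 1) s t -
    accC (fun G => M.run G T out) s t := ⟨_, rfl⟩
  rw [← hδdef]
  rcases le_or_gt δ 0 with hδ | hδ
  · refine hδ.trans (by positivity)
  have hT : 1 ≤ T := by
    rcases Nat.eq_zero_or_pos T with h | h
    · exfalso
      subst h
      have := adv_const (fun G => M.run G 0 out) (M.init out) (fun _ => rfl) (d - 1) hst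
      linarith
    · exact h
  have hδ1 : δ ≤ 1 := by
    have h1 := accP_le_one (fun G => M.run G T out) (d - 1) s t
    have h2 := accC_nonneg (fun G => M.run G T out) s t
    linarith
  have hTpos : (1 : ℝ) ≤ T := by exact_mod_cast hT
  obtain ⟨T', hT'⟩ : ∃ T', T' = ⌈(T : ℝ) / δ⌉₊ := ⟨_, rfl⟩
  have hle : (T : ℝ) / δ ≤ T' := by
    rw [hT']
    exact Nat.le_ceil _
  have h1δ : (1 : ℝ) ≤ T / δ := by
    rw [le_div_iff₀ hδ]
    linarith
  have hT'1 : 1 ≤ T' := by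
    have : (1 : ℝ) ≤ T' := h1δ.trans hle
    exact_mod_cast this
  have hge : (T' : ℝ) ≤ 2 * (T / δ) := by
    have h1 : (T' : ℝ) < T / δ + 1 := by
      rw [hT']
      exact Nat.ceil_lt_add_one (by positivity)
    linarith
  have hmain := hL n S d T' hn hS hSn hd hdn hT'1 (fun hT2 k hk hkd _ =>
    explicit3 hk hst hS hT M out δ hδ hδdef hle hT2 hkd hC)
  -- conclusion
  have hE1 : 1 ≤ MTX.err n S d := by
    unfold MTX.err
    have h1 := MTX.loglog_ge hn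
    have h2 := MTX.kap_nonneg (d := d) hS hSn (by omega)
    have h3 : (1 : ℝ) ≤ Real.logb 2 n := by
      rw [Real.le_logb_iff_rpow_le (by norm_num) (by exact_mod_cast (by omega : 0 < n)),
        Real.rpow_one]
      exact_mod_cast (by omega : 2 ≤ n)
    nlinarith
  have hlog : Real.logb 2 T' ≤ 1 + Real.logb 2 (T / δ) := by
    have h1 : Real.logb 2 T' ≤ Real.logb 2 (2 * (T / δ)) :=
      Real.logb_le_logb_of_le (by norm_num) (by exact_mod_cast hT'1) hge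
    rw [Real.logb_mul (by norm_num) (by positivity), Real.logb_self_eq_one (by norm_num)] at h1
    exact h1
  have h2 : MTX.phi n S d - (c + 1) * MTX.err n S d ≤ Real.logb 2 (T / δ) := by nlinarith
  rw [Real.le_logb_iff_rpow_le (by norm_num) (by positivity)] at h2
  rw [Real.rpow_neg (by norm_num), ← div_eq_mul_inv, le_div_iff₀ (by positivity)]
  rw [le_div_iff₀ hδ] at h2
  linarith

end MTC
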