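import Pool.Agent.Lib.MTC.CntB

/-!
# MTC.Cnt (MP_e46137_lc, theorem B*): counting injective paths

`pos_sum` and `pos_sum_one` are in `CntB`.
-/

namespace MTC

open Classical Finset MTS MTB

variable {r N : ℕ}

/-- Replace the vertex at the position `j` by any vertex outside the path. -/
theorem cnt_insert (J : Finset (Fin r)) (X : Fin r → Fin N) (j : Fin r) (hj : j ∉ J) :
    (ext (insert j J) X).card * (N - r) ≤ (ext J X).card := by
  have hcard : ((ext (insert j J) X).sigma (fun P => univ \ univ.image P)).card =
      (ext (insert j J) X).card * (N - r) := by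
    rw [Finset.card_sigma, Finset.sum_const_nat]
    intro P hP
    have hinj : Function.Injective P := (Finset.mem_filter.1 hP).2.1
    rw [Finset.card_sdiff_of_subset (Finset.subset_univ _), Finset.card_image_of_injective _ hinj,
      Finset.card_univ, Finset.card_univ, Fintype.card_fin, Fintype.card_fin]
  rw [← hcard]
  refine Finset.card_le_card_of_injOn (fun z => Function.update z.1 j z.2) ?_ ?_
  · rintro ⟨P, v⟩ hz
    obtain ⟨hP, hv⟩ := Finset.mem_sigma.1 (Finset.mem_coe.1 hz)
    obtain ⟨-, hinj, hX⟩ := Finset.mem_filter.1 hP
    have hv2 : ∀ i, P i ≠ v := by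
      intro i hi
      exact (Finset.mem_sdiff.1 hv).2 (Finset.mem_image.2 ⟨i, Finset.mem_univ _, hi⟩)
    refine Finset.mem_coe.2 (Finset.mem_filter.2 ⟨Finset.mem_univ _, ?_, ?_⟩)
    · intro a b hab
      change Function.update P j v a = Function.update P j v b at hab
      by_cases ha : a = j
      · by_cases hb : b = j
        · rw [ha, hb]
        · rw [ha, Function.update_self, Function.update_of_ne hb] at hab
          exact absurd hab.symm (hv2 b)
      · by_cases hb : b = j
        · rw [hb, Function.update_self, Function.update_of_ne ha] at hab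
          exact absurd hab (hv2 a)
        · rw [Function.update_of_ne ha, Function.update_of_ne hb] at hab
          exact hinj hab
    · intro i hi
      have hij : i ≠ j := fun h => hj (h ▸ hi)
      change Function.update P j v i = X i
      rw [Function.update_of_ne hij]
      exact hX i (Finset.mem_insert_of_mem hi)
  · rintro ⟨P, v⟩ hz ⟨P', v'⟩ hz' h
    obtain ⟨hP, -⟩ := Finset.mem_sigma.1 (Finset.mem_coe.1 hz)
    obtain ⟨hP', -⟩ := Finset.mem_sigma.1 (Finset.mem_coe.1 hz')
    have e1 : P j = X j := (Finset.mem_filter.1 hP).2.2 j (Finset.mem_insert_self _ _)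
    have e2 : P' j = X j := (Finset.mem_filter.1 hP').2.2 j (Finset.mem_insert_self _ _)
    change Function.update P j v = Function.update P' j v' at h
    have e3 : v = v' := by
      have := congrFun h j
      rwa [Function.update_self, Function.update_self] at this
    have e4 : P = P' := by
      funext i
      by_cases hi : i = j
      · rw [hi, e1, e2]
      · have := congrFun h i
        rwa [Function.update_of_ne hi, Function.update_of_ne hi] at this
    rw [e3, e4]

theorem cnt_union (J A : Finset (Fin r)) (X Y : Fin r → Fin N) (hd : Disjoint J A)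
    (hXY : ∀ j ∈ J, Y j = X j) :
    (ext (J ∪ A) Y).card * (N - r) ^ A.card ≤ (ext J X).card := by
  induction A using Finset.induction_on with
  | empty =>
    rw [Finset.union_empty, Finset.card_empty, pow_zero, mul_one]
    refine Finset.card_le_card fun P hP => ?_
    obtain ⟨-, h1, h2⟩ := Finset.mem_filter.1 hP
    exact Finset.mem_filter.2 ⟨Finset.mem_univ _, h1, fun j hj => by rw [h2 j hj, hXY j hj]⟩
  | insert a A ha ih =>
    rw [Finset.disjoint_insert_right] at hd
    have h1 := ih hd.2
    have h2 : a ∉ J ∪ A := by
      rw [Finset.mem_union]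
      rintro (h | h)
      · exact hd.1 h
      · exact ha h
    have h3 := cnt_insert (J ∪ A) Y a h2
    rw [Finset.union_insert, Finset.card_insert_of_notMem ha, pow_succ]
    calc (ext (insert a (J ∪ A)) Y).card * ((N - r) ^ A.card * (N - r))
        = (ext (insert a (J ∪ A)) Y).card * (N - r) * (N - r) ^ A.card := by ring
      _ ≤ (ext (J ∪ A) Y).card * (N - r) ^ A.card := Nat.mul_le_mul_right _ h3
      _ ≤ (ext J X).card := h1

end MTC
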