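import Pool.Agent.Lib.MTC.Tools
import Pool.Agent.Lib.MTC.Cnt

/-!
# MTC.Bad2 (MP_e46137_lc, theorem B*): few paths are bad, second half

`μ = B r / (N - r)`, `32 S μ ≤ 1`.
-/

namespace MTC

open Classical Finset MTS MTB

variable {r N S : ℕ}

namespace Bad2Aux

/-- the paths with property `Q` and given vertices on `J` -/
noncomputable def EE (Q : (Fin r → Fin N) → Prop) (J : Finset (Fin r)) (X : Fin r → Fin N) :
    Finset (Fin r → Fin N) := (ext J X).filter Q

theorem geo (m : ℕ) : ∑ a ∈ Icc 1 m, (1 / 2 : ℝ) ^ a ≤ 1 := by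
  have h : ∑ a ∈ Icc 1 m, (1 / 2 : ℝ) ^ a = 1 - (1 / 2) ^ m := by
    induction m with
    | zero => simp
    | succ m ih =>
      rw [Finset.sum_Icc_succ_top (by omega), ih]
      ring
  rw [h]
  have : (0 : ℝ) ≤ (1 / 2) ^ m := by positivity
  linarith

theorem one_ext (hr : 1 ≤ r) (hNr : 0 < N - r) (Q : (Fin r → Fin N) → Prop) (q : ℕ)
    (J : Finset (Fin r)) (X : Fin r → Fin N) (w₁ : ℕ) (A : PC N 1)
    (hA : ∀ v, A v ≠ none → colr J X q v = none)
    (ih : ∀ (J' : Finset (Fin r)) (X' : Fin r → Fin N), J'.card = J.card + size A →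
      ((EE Q J' X').card : ℝ) ≤ (1 / 4 : ℝ) ^ (w₁ - J'.card) * (ext J' X').card) :
    (((EE Q J X).filter (fun P => Sub A (up P q))).card : ℝ) ≤
      ((1 / 4 : ℝ) ^ (w₁ - (J.card + size A)) * (ext J X).card) *
        ((r : ℝ) / ((N - r : ℕ) : ℝ)) ^ (size A) := by
  have hpos : (0 : ℝ) < ((N - r : ℕ) : ℝ) := by exact_mod_cast hNr
  have key := pos_sum hr ((EE Q J X).filter (fun P => Sub A (up P q)))
    (univ.filter (fun v => A v ≠ none)) (fun _ => 1 / ((N - r : ℕ) : ℝ))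
    ((1 / 4 : ℝ) ^ (w₁ - (J.card + size A)) * (ext J X).card) (fun _ => by positivity)
    (by positivity) ?_ ?_
  · have h1 : (∑ _p : Fin r, 1 / ((N - r : ℕ) : ℝ)) = (r : ℝ) / ((N - r : ℕ) : ℝ) := by
      rw [sum_const, card_univ, Fintype.card_fin, nsmul_eq_mul]
      ring
    rw [h1] at key
    exact key
  · intro P hP v hv
    rw [mem_filter] at hP hv
    exact exists_pos hP.2 hv.2
  · intro f hf
    rcases (((EE Q J X).filter (fun P => Sub A (up P q))).filter
      (fun P => ∀ v ∈ univ.filter (fun v => A v ≠ none), P (f v) = v)).eq_empty_or_nonempty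
      with h | ⟨P₀, hP₀⟩
    · rw [h, card_empty, Nat.cast_zero]
      positivity
    · rw [mem_filter, mem_filter, EE, mem_filter, ext, mem_filter] at hP₀
      obtain ⟨⟨⟨⟨-, hinj, hX⟩, hQ⟩, hsub⟩, hf0⟩ := hP₀
      have hd : Disjoint J ((univ.filter (fun v => A v ≠ none)).image f) := by
        rw [disjoint_left]
        intro j hj hj'
        rw [mem_image] at hj'
        obtain ⟨v, hv, rfl⟩ := hj'
        have h1 : X (f v) = v := by rw [← hX _ hj, hf0 v hv]
        rw [mem_filter] at hv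
        exact colr_ne_none.2 ⟨f v, hj, h1⟩ (hA v hv.2)
      have hc : ((univ.filter (fun v => A v ≠ none)).image f).card = size A :=
        card_image_of_injOn hf
      have hcu : (J ∪ (univ.filter (fun v => A v ≠ none)).image f).card = J.card + size A := by
        rw [card_union_of_disjoint hd, hc]
      have h1 := ih (J ∪ (univ.filter (fun v => A v ≠ none)).image f) P₀ hcu
      have h2 := cnt_union J ((univ.filter (fun v => A v ≠ none)).image f) X P₀ hd hX
      rw [hc] at h2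
      rw [hcu] at h1
      have h3 : (((EE Q J X).filter (fun P => Sub A (up P q))).filter
          (fun P => ∀ v ∈ univ.filter (fun v => A v ≠ none), P (f v) = v)) ⊆
          EE Q (J ∪ (univ.filter (fun v => A v ≠ none)).image f) P₀ := by
        intro P hP
        rw [mem_filter, mem_filter, EE, mem_filter, ext, mem_filter] at hP
        obtain ⟨⟨⟨⟨-, hinj', hX'⟩, hQ'⟩, hsub'⟩, hf0'⟩ := hP
        rw [EE, mem_filter, ext, mem_filter]
        refine ⟨⟨mem_univ _, hinj', fun j hj => ?_⟩, hQ'⟩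
        rw [mem_union, mem_image] at hj
        rcases hj with hj | ⟨v, hv, rfl⟩
        · rw [hX' j hj, hX j hj]
        · rw [hf0' v hv, hf0 v hv]
      have h4 : (((ext (J ∪ (univ.filter (fun v => A v ≠ none)).image f) P₀).card : ℕ) : ℝ) *
          ((N - r : ℕ) : ℝ) ^ size A ≤ ((ext J X).card : ℝ) := by exact_mod_cast h2
      have h5 : (((ext (J ∪ (univ.filter (fun v => A v ≠ none)).image f) P₀).card : ℕ) : ℝ) ≤
          ((ext J X).card : ℝ) * (1 / ((N - r : ℕ) : ℝ)) ^ size A := by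
        rw [one_div, inv_pow, ← div_eq_mul_inv, le_div_iff₀ (by positivity)]
        exact h4
      rw [prod_const]
      calc ((((EE Q J X).filter (fun P => Sub A (up P q))).filter
          (fun P => ∀ v ∈ univ.filter (fun v => A v ≠ none), P (f v) = v)).card : ℝ)
          ≤ ((EE Q (J ∪ (univ.filter (fun v => A v ≠ none)).image f) P₀).card : ℝ) := by
            exact_mod_cast card_le_card h3
        _ ≤ (1 / 4 : ℝ) ^ (w₁ - (J.card + size A)) *
            (ext (J ∪ (univ.filter (fun v => A v ≠ none)).image f) P₀).card := h1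
        _ ≤ (1 / 4 : ℝ) ^ (w₁ - (J.card + size A)) *
            (((ext J X).card : ℝ) * (1 / ((N - r : ℕ) : ℝ)) ^ size A) := by gcongr
        _ = _ := by
            rw [← mul_assoc]
            rfl

theorem ind {w w₁ θ B : ℕ} (F : Fin S → Finset (PC N 1)) (hF : ∀ i, ClosedW w θ (F i))
    (hB : 1 ≤ B) (hS : 1 ≤ S)
    (hcard : ∀ i (D : PC N 1) (a : ℕ), D ∉ F i → 1 ≤ a → size D + a ≤ w →
      (univ.filter (fun A : PC N 1 => IsExt (F i) D A ∧ size A = a)).card ≤ B ^ a)
    (hw : 2 * w₁ ≤ w) (hN : 32 * B * S * r ≤ N - r) (hr : 1 ≤ r) (q : ℕ)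
    (Q : (Fin r → Fin N) → Prop)
    (hQ : ∀ P, Q P → (∀ i, (∃ U ∈ F i, Sub U (up P q)) → ∃ U ∈ F i, Sub U (up P q) ∧
        size U ≤ w₁) ∧ ¬ ∃ D : PC N 1, Sub D (up P q) ∧ size D ≤ 2 * w₁ ∧
        ∀ i, (∃ U ∈ F i, Sub U (up P q)) → D ∈ F i) (d : ℕ) :
    ∀ (J : Finset (Fin r)) (X : Fin r → Fin N), w₁ - J.card = d →
    ((EE Q J X).card : ℝ) ≤ (1 / 4 : ℝ) ^ (w₁ - J.card) * (ext J X).card := by
  induction d using Nat.strong_induction_on with
  | _ d ihd =>
  intro J X hJd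
  rcases Nat.eq_zero_or_pos d with hd0 | hdpos
  · rw [hJd, hd0, pow_zero, one_mul]
    exact_mod_cast card_le_card (filter_subset _ _)
  rcases (EE Q J X).eq_empty_or_nonempty with hemp | ⟨P₁, hP₁⟩
  · rw [hemp, card_empty, Nat.cast_zero]
    positivity
  have hinjX : Set.InjOn X J := by
    rw [EE, mem_filter, ext, mem_filter] at hP₁
    intro i hi j hj hij
    exact hP₁.1.2.1 (by rw [hP₁.1.2.2 i hi, hP₁.1.2.2 j hj, hij])
  have hJw : J.card < w₁ := by omega
  have hNr : 0 < N - r := by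
    have : 0 < 32 * B * S * r := by positivity
    omega
  have hpos : (0 : ℝ) < ((N - r : ℕ) : ℝ) := by exact_mod_cast hNr
  set D := colr J X q with hD
  have hDs : size D = J.card := size_colr hinjX q
  let XS : Fin S → Finset (PC N 1) := fun i => if D ∈ F i then ∅ else
    univ.filter (fun A : PC N 1 => IsExt (F i) D A ∧ 1 ≤ size A ∧ size A ≤ w₁)
  have hcover : EE Q J X ⊆ (univ : Finset (Fin S)).biUnion (fun i => (XS i).biUnion (fun A =>
      (EE Q J X).filter (fun P => Sub A (up P q)))) := by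
    intro P hP
    have hP' := hP
    rw [EE, mem_filter, ext, mem_filter] at hP'
    obtain ⟨⟨-, hinj, hX⟩, hQP⟩ := hP'
    obtain ⟨hG1, hG2⟩ := hQ P hQP
    have hDP : Sub D (up P q) := colr_sub (y := q) hinj hX (fun j _ h => by omega) le_rfl le_rfl
    have h1 : ∃ i, (∃ U ∈ F i, Sub U (up P q)) ∧ D ∉ F i := by
      by_contra hcon
      push Not at hcon
      exact hG2 ⟨D, hDP, by omega, fun i hi => hcon i hi⟩
    obtain ⟨i, hi, hDi⟩ := h1
    obtain ⟨W, hW, hWP, hWs⟩ := hG1 i hi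
    obtain ⟨A, hA, hAW, hA1, hAs⟩ := exists_ext (hF i) hDi hDP hWP hW (by omega)
    rw [mem_biUnion]
    refine ⟨i, mem_univ _, ?_⟩
    rw [mem_biUnion]
    refine ⟨A, ?_, ?_⟩
    · simp only [XS, if_neg hDi]
      rw [mem_filter]
      exact ⟨mem_univ _, hA, hA1, hAs.trans hWs⟩
    · rw [mem_filter]
      exact ⟨hP, fun j x hx => hWP j x (hAW j x hx)⟩
  set c := J.card with hc
  set M : ℝ := ((ext J X).card : ℝ) with hM
  let φ : ℕ → ℝ := fun a => ((1 / 4 : ℝ) ^ (w₁ - (c + a)) * M) *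
    ((r : ℝ) / ((N - r : ℕ) : ℝ)) ^ a
  have hφ0 : ∀ a, 0 ≤ φ a := fun a => by
    simp only [φ]
    positivity
  have hA : ∀ i, ∀ A ∈ XS i, (((EE Q J X).filter (fun P => Sub A (up P q))).card : ℝ) ≤
      φ (size A) := by
    intro i A hA
    by_cases hDi : D ∈ F i
    · simp only [XS, if_pos hDi] at hA
      exact absurd hA (notMem_empty _)
    simp only [XS, if_neg hDi] at hA
    rw [mem_filter] at hA
    refine one_ext hr hNr Q q J X w₁ A hA.2.1.1 ?_
    intro J' X' hJ'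
    exact ihd (w₁ - J'.card) (by omega) J' X' rfl
  have hsumi : ∀ i, (∑ A ∈ XS i, φ (size A)) ≤ ∑ a ∈ Icc 1 w₁, (B : ℝ) ^ a * φ a := by
    intro i
    by_cases hDi : D ∈ F i
    · have : XS i = ∅ := by simp only [XS, if_pos hDi]
      rw [this, sum_empty]
      exact sum_nonneg fun a _ => mul_nonneg (by positivity) (hφ0 a)
    · have hXS : XS i = univ.filter (fun A : PC N 1 => IsExt (F i) D A ∧ 1 ≤ size A ∧
          size A ≤ w₁) := by simp only [XS, if_neg hDi]
      have hmaps : ∀ A ∈ XS i, size A ∈ Icc 1 w₁ := by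
        intro A hA
        rw [hXS, mem_filter] at hA
        exact mem_Icc.2 hA.2.2
      rw [← sum_fiberwise_of_maps_to hmaps]
      refine sum_le_sum fun a ha => ?_
      rw [mem_Icc] at ha
      have h1 : ∑ A ∈ (XS i).filter (fun A => size A = a), φ (size A) =
          ((XS i).filter (fun A => size A = a)).card * φ a := by
        rw [← nsmul_eq_mul, ← sum_const]
        refine sum_congr rfl fun A hA => ?_
        rw [(mem_filter.1 hA).2]
      rw [h1]
      refine mul_le_mul_of_nonneg_right ?_ (hφ0 a)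
      have h2 : ((XS i).filter (fun A => size A = a)) ⊆
          univ.filter (fun A : PC N 1 => IsExt (F i) D A ∧ size A = a) := by
        intro A hA
        rw [mem_filter, hXS, mem_filter] at hA
        rw [mem_filter]
        exact ⟨mem_univ _, hA.1.2.1, hA.2⟩
      have h3 := (card_le_card h2).trans (hcard i D a hDi ha.1 (by omega))
      exact_mod_cast h3
  have hterm : ∀ a ∈ Icc 1 w₁, (B : ℝ) ^ a * φ a ≤
      (1 / (S : ℝ)) * (1 / 2) ^ a * ((1 / 4 : ℝ) ^ (w₁ - c) * M) := by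
    intro a ha
    rw [mem_Icc] at ha
    have hS0 : (0 : ℝ) < S := by exact_mod_cast hS
    have h1 : (1 / 4 : ℝ) ^ (w₁ - (c + a)) ≤ 4 ^ a * (1 / 4) ^ (w₁ - c) := by
      rcases le_total a (w₁ - c) with h | h
      · have h2 : w₁ - c = (w₁ - (c + a)) + a := by omega
        rw [h2, pow_add]
        have h3 : (4 : ℝ) ^ a * (1 / 4) ^ a = 1 := by
          rw [← mul_pow]
          norm_num
        calc (1 / 4 : ℝ) ^ (w₁ - (c + a))
            = (1 / 4 : ℝ) ^ (w₁ - (c + a)) * (4 ^ a * (1 / 4) ^ a) := by rw [h3, mul_one]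
          _ ≤ _ := by
              apply le_of_eq
              ring
      · have h2 : w₁ - (c + a) = 0 := by omega
        rw [h2, pow_zero]
        have h3 : (4 : ℝ) ^ (w₁ - c) * (1 / 4) ^ (w₁ - c) = 1 := by
          rw [← mul_pow]
          norm_num
        calc (1 : ℝ) = 4 ^ (w₁ - c) * (1 / 4) ^ (w₁ - c) := h3.symm
          _ ≤ 4 ^ a * (1 / 4) ^ (w₁ - c) :=
            mul_le_mul_of_nonneg_right (pow_le_pow_right₀ (by norm_num) h) (by positivity)
    have h2 : 4 * ((B : ℝ) * ((r : ℝ) / ((N - r : ℕ) : ℝ))) ≤ 1 / 8 * (1 / S) := by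
      have h3 : (32 : ℝ) * B * S * r ≤ ((N - r : ℕ) : ℝ) := by exact_mod_cast hN
      rw [← mul_div_assoc, ← mul_div_assoc, div_le_iff₀ hpos]
      rw [mul_one_div, div_mul_eq_mul_div, le_div_iff₀ hS0]
      linarith
    have h2' : (4 * ((B : ℝ) * ((r : ℝ) / ((N - r : ℕ) : ℝ)))) ^ a ≤ (1 / S) * (1 / 2) ^ a := by
      have hS1 : (1 : ℝ) / S ≤ 1 := by
        rw [div_le_one hS0]
        exact_mod_cast hS
      calc (4 * ((B : ℝ) * ((r : ℝ) / ((N - r : ℕ) : ℝ)))) ^ a
          ≤ (1 / 8 * (1 / S)) ^ a := pow_le_pow_left₀ (by positivity) h2 a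
        _ = (1 / 8) ^ a * (1 / S) ^ a := mul_pow _ _ _
        _ ≤ (1 / 2) ^ a * (1 / S) ^ 1 := by
            refine mul_le_mul (pow_le_pow_left₀ (by norm_num) (by norm_num) a)
              (pow_le_pow_of_le_one (by positivity) hS1 ha.1) (by positivity) (by positivity)
        _ = _ := by ring
    have hM0 : 0 ≤ M := by positivity
    calc (B : ℝ) ^ a * φ a
        = (1 / 4 : ℝ) ^ (w₁ - (c + a)) * (((B : ℝ) * ((r : ℝ) / ((N - r : ℕ) : ℝ))) ^ a * M) := by
          simp only [φ]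
          rw [mul_pow]
          ring
      _ ≤ (4 ^ a * (1 / 4) ^ (w₁ - c)) *
          (((B : ℝ) * ((r : ℝ) / ((N - r : ℕ) : ℝ))) ^ a * M) :=
          mul_le_mul_of_nonneg_right h1 (by positivity)
      _ = (4 * ((B : ℝ) * ((r : ℝ) / ((N - r : ℕ) : ℝ)))) ^ a * ((1 / 4) ^ (w₁ - c) * M) := by
          rw [mul_pow 4]
          ring
      _ ≤ _ := mul_le_mul_of_nonneg_right h2' (by positivity)
  have hS0 : (0 : ℝ) < S := by exact_mod_cast hS
  calc ((EE Q J X).card : ℝ)
      ≤ ((((univ : Finset (Fin S)).biUnion (fun i => (XS i).biUnion (fun A =>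
        (EE Q J X).filter (fun P => Sub A (up P q))))).card : ℕ) : ℝ) := by
        exact_mod_cast card_le_card hcover
    _ ≤ ((∑ i : Fin S, ∑ A ∈ XS i, ((EE Q J X).filter (fun P => Sub A (up P q))).card : ℕ) : ℝ) := by
        have h1 := card_biUnion_le (s := (univ : Finset (Fin S))) (t := fun i =>
          (XS i).biUnion (fun A => (EE Q J X).filter (fun P => Sub A (up P q))))
        have h2 := h1.trans (sum_le_sum fun i _ => card_biUnion_le (s := XS i)
          (t := fun A => (EE Q J X).filter (fun P => Sub A (up P q))))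
        exact_mod_cast h2
    _ = ∑ i : Fin S, ∑ A ∈ XS i, (((EE Q J X).filter (fun P => Sub A (up P q))).card : ℝ) := by
        push_cast
        rfl
    _ ≤ ∑ i : Fin S, ∑ A ∈ XS i, φ (size A) := sum_le_sum fun i _ => sum_le_sum (hA i)
    _ ≤ ∑ _i : Fin S, ∑ a ∈ Icc 1 w₁, (B : ℝ) ^ a * φ a := sum_le_sum fun i _ => hsumi i
    _ ≤ ∑ _i : Fin S, ∑ a ∈ Icc 1 w₁,
        (1 / (S : ℝ)) * (1 / 2) ^ a * ((1 / 4 : ℝ) ^ (w₁ - c) * M) :=
        sum_le_sum fun i _ => sum_le_sum hterm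
    _ = (∑ a ∈ Icc 1 w₁, (1 / 2 : ℝ) ^ a) * ((1 / 4 : ℝ) ^ (w₁ - c) * M) := by
        rw [sum_const, card_univ, Fintype.card_fin, nsmul_eq_mul, ← sum_mul, ← mul_sum]
        field_simp
    _ ≤ 1 * ((1 / 4 : ℝ) ^ (w₁ - c) * M) :=
        mul_le_mul_of_nonneg_right (geo w₁) (by positivity)
    _ = _ := one_mul _

end Bad2Aux

open Bad2Aux

/-- Greedy: for fixed `q` and `J`, `X` (with `J.card ≤ w₁`) consider the paths in `ext J X` for which
the first half of `Good` holds at `q` and the second half fails at `q`; they are at most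
`(4 S μ) ^ (w₁ - J.card)` times `(ext J X).card`.  Induction on `w₁ - J.card`: `D = colr J X q`
fails, so some family with a member `W` inside `up P q` of size `≤ w₁` does not contain `D`;
`exists_ext` gives a minimal extension `A`; sum over the family, `A`, and the positions. -/
theorem bad2 {w w₁ θ B : ℕ} (F : Fin S → Finset (PC N 1)) (hF : ∀ i, ClosedW w θ (F i))
    (hB : 1 ≤ B) (hS : 1 ≤ S)
    (hcard : ∀ i (D : PC N 1) (a : ℕ), D ∉ F i → 1 ≤ a → size D + a ≤ w →
      (univ.filter (fun A : PC N 1 => IsExt (F i) D A ∧ size A = a)).card ≤ B ^ a)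
    (hw : 2 * w₁ ≤ w) (hN : 32 * B * S * r ≤ N - r) (hr : 1 ≤ r) (q : ℕ) :
    (univ.filter (fun P : Fin r → Fin N => Function.Injective P ∧
      (∀ i, (∃ U ∈ F i, Sub U (up P q)) → ∃ U ∈ F i, Sub U (up P q) ∧ size U ≤ w₁) ∧
      ¬ ∃ D : PC N 1, Sub D (up P q) ∧ size D ≤ 2 * w₁ ∧
        ∀ i, (∃ U ∈ F i, Sub U (up P q)) → D ∈ F i)).card * 4 ^ w₁ ≤
      (univ.filter (fun P : Fin r → Fin N => Function.Injective P)).card := by
  rcases (univ.filter (fun P : Fin r → Fin N => Function.Injective P ∧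
      (∀ i, (∃ U ∈ F i, Sub U (up P q)) → ∃ U ∈ F i, Sub U (up P q) ∧ size U ≤ w₁) ∧
      ¬ ∃ D : PC N 1, Sub D (up P q) ∧ size D ≤ 2 * w₁ ∧
        ∀ i, (∃ U ∈ F i, Sub U (up P q)) → D ∈ F i)).eq_empty_or_nonempty with h | ⟨P₀, -⟩
  · rw [h, card_empty, zero_mul]
    exact Nat.zero_le _
  have key := ind F hF hB hS hcard hw hN hr q
    (fun P => (∀ i, (∃ U ∈ F i, Sub U (up P q)) → ∃ U ∈ F i, Sub U (up P q) ∧ size U ≤ w₁) ∧
      ¬ ∃ D : PC N 1, Sub D (up P q) ∧ size D ≤ 2 * w₁ ∧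
        ∀ i, (∃ U ∈ F i, Sub U (up P q)) → D ∈ F i) (fun P hP => hP) w₁ ∅ P₀
    (by rw [card_empty, Nat.sub_zero])
  have h1 : ext ∅ P₀ = univ.filter (fun P : Fin r → Fin N => Function.Injective P) := by
    ext P
    simp [ext]
  have h2 : EE (fun P => (∀ i, (∃ U ∈ F i, Sub U (up P q)) → ∃ U ∈ F i, Sub U (up P q) ∧
        size U ≤ w₁) ∧ ¬ ∃ D : PC N 1, Sub D (up P q) ∧ size D ≤ 2 * w₁ ∧
        ∀ i, (∃ U ∈ F i, Sub U (up P q)) → D ∈ F i) ∅ P₀ =
      univ.filter (fun P : Fin r → Fin N => Function.Injective P ∧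
      (∀ i, (∃ U ∈ F i, Sub U (up P q)) → ∃ U ∈ F i, Sub U (up P q) ∧ size U ≤ w₁) ∧
      ¬ ∃ D : PC N 1, Sub D (up P q) ∧ size D ≤ 2 * w₁ ∧
        ∀ i, (∃ U ∈ F i, Sub U (up P q)) → D ∈ F i) := by
    rw [EE, h1]
    ext P
    simp only [mem_filter, mem_univ, true_and]
  rw [h1, h2, card_empty, Nat.sub_zero] at key
  have h3 : (0 : ℝ) < 4 ^ w₁ := by positivity
  rw [one_div, inv_pow, inv_mul_eq_div, le_div_iff₀ h3] at key
  exact_mod_cast key

end MTC
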