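import Pool.Agent.Lib.MTC.Tools
import Pool.Agent.Lib.MTC.Cnt
import Pool.Agent.Lib.MTC.Bad2

/-!
# MTC.Bad (MP_e46137_lc, theorem B*): few paths are bad

`μ = B r / (N - r)`, `32 S μ ≤ 1`.
-/

namespace MTC

open Classical Finset MTS MTB

variable {r N S : ℕ}

namespace Bad1Aux

/-- the coloured vertices -/
private noncomputable def sp (A : PC N 1) : Finset (Fin N) := univ.filter (fun v => A v ≠ none)

private theorem join_none (A : PC N 1) : join (fun _ => none) A = A := by
  funext v
  simp [join]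

/-- the paths through all the coloured vertices -/
private theorem paths_le (hr : 1 ≤ r) (hNr : 0 < N - r) (A : PC N 1) :
    ((univ.filter (fun P : Fin r → Fin N => Function.Injective P ∧
      ∀ v ∈ sp A, ∃ j, P j = v)).card : ℝ) ≤
      (univ.filter (fun P : Fin r → Fin N => Function.Injective P)).card *
        ((r : ℝ) / ((N - r : ℕ) : ℝ)) ^ (size A) := by
  have hNr' : (0 : ℝ) < ((N - r : ℕ) : ℝ) := by exact_mod_cast hNr
  have h := pos_sum hr (univ.filter (fun P : Fin r → Fin N => Function.Injective P ∧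
      ∀ v ∈ sp A, ∃ j, P j = v)) (sp A) (fun _ => ((N - r : ℕ) : ℝ)⁻¹)
      (univ.filter (fun P : Fin r → Fin N => Function.Injective P)).card
      (fun _ => by positivity) (Nat.cast_nonneg _) (fun P hP => (mem_filter.1 hP).2.2) ?_
  · rw [sum_const, card_univ, Fintype.card_fin, nsmul_eq_mul, ← div_eq_mul_inv] at h
    exact h
  · intro f hf
    rw [prod_const]
    have h1 : (∅ : Finset (Fin r)) ∪ (sp A).image f = (sp A).image f := empty_union _
    rcases (sp A).eq_empty_or_nonempty with he | ⟨v0, hv0⟩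
    · rw [he, card_empty, pow_zero, mul_one]
      refine Nat.cast_le.2 (card_le_card ?_)
      intro P hP
      rw [mem_filter, mem_filter] at hP
      exact mem_filter.2 ⟨mem_univ _, hP.1.2.1⟩
    · set Y : Fin r → Fin N := fun j => if h : ∃ v ∈ sp A, f v = j then h.choose else v0 with hY
      have hYf : ∀ v ∈ sp A, Y (f v) = v := by
        intro v hv
        have hex : ∃ v' ∈ sp A, f v' = f v := ⟨v, hv, rfl⟩
        simp only [hY, dif_pos hex]
        exact hf hex.choose_spec.1 hv hex.choose_spec.2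
      have h2 := cnt_union (∅ : Finset (Fin r)) ((sp A).image f) Y Y (disjoint_empty_left _)
        (fun j hj => absurd hj (notMem_empty j))
      rw [h1, card_image_of_injOn hf] at h2
      have h3 : ext (∅ : Finset (Fin r)) Y =
          univ.filter (fun P : Fin r → Fin N => Function.Injective P) := by
        unfold ext
        refine filter_congr fun P _ => ?_
        simp
      rw [h3] at h2
      have h4 : ((univ.filter (fun P : Fin r → Fin N => Function.Injective P ∧
          ∀ v ∈ sp A, ∃ j, P j = v)).filter (fun P => ∀ v ∈ sp A, P (f v) = v)).card ≤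
          (ext ((sp A).image f) Y).card := by
        refine card_le_card ?_
        intro P hP
        rw [mem_filter, mem_filter] at hP
        unfold ext
        rw [mem_filter]
        refine ⟨mem_univ _, hP.1.2.1, ?_⟩
        intro j hj
        obtain ⟨v, hv, rfl⟩ := mem_image.1 hj
        rw [hP.2 v hv, hYf v hv]
      have h5 : (((univ.filter (fun P : Fin r → Fin N => Function.Injective P ∧
          ∀ v ∈ sp A, ∃ j, P j = v)).filter (fun P => ∀ v ∈ sp A, P (f v) = v)).card : ℝ) *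
          ((N - r : ℕ) : ℝ) ^ (sp A).card ≤
          (univ.filter (fun P : Fin r → Fin N => Function.Injective P)).card := by
        have h6 := (Nat.mul_le_mul_right ((N - r) ^ (sp A).card) h4).trans h2
        exact_mod_cast h6
      rw [inv_pow, ← div_eq_mul_inv, le_div_iff₀ (by positivity)]
      exact h5

private theorem pow_bound {B w₁ a : ℕ} (hN : 32 * B * r ≤ N - r) (hNr : 0 < N - r)
    (ha : w₁ ≤ a) :
    ((B : ℝ) * r / ((N - r : ℕ) : ℝ)) ^ a ≤ (1 / 4) ^ w₁ * (1 / 2) ^ a := by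
  have hNr' : (0 : ℝ) < ((N - r : ℕ) : ℝ) := by exact_mod_cast hNr
  have h1 : (B : ℝ) * r / ((N - r : ℕ) : ℝ) ≤ 1 / 32 := by
    rw [div_le_div_iff₀ hNr' (by norm_num)]
    have : ((32 * B * r : ℕ) : ℝ) ≤ ((N - r : ℕ) : ℝ) := by exact_mod_cast hN
    push_cast at this
    linarith
  have h0 : (0 : ℝ) ≤ (B : ℝ) * r / ((N - r : ℕ) : ℝ) := by positivity
  calc ((B : ℝ) * r / ((N - r : ℕ) : ℝ)) ^ a ≤ (1 / 32) ^ a := pow_le_pow_left₀ h0 h1 a
    _ ≤ (1 / 4 * (1 / 2)) ^ a := pow_le_pow_left₀ (by norm_num) (by norm_num) a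
    _ = (1 / 4) ^ a * (1 / 2) ^ a := mul_pow _ _ _
    _ ≤ (1 / 4) ^ w₁ * (1 / 2) ^ a := by
        refine mul_le_mul_of_nonneg_right ?_ (by positivity)
        exact pow_le_pow_of_le_one (by norm_num) (by norm_num) ha

end Bad1Aux

/-- Paths through all vertices of a minimal member of size `> w₁`: for every such member `W`
(a minimal extension of the empty colouring, if the empty colouring is not in the family) of size
`a` at most `r ^ a / (N - r) ^ a` of the paths (`pos_sum`, `cnt_union`);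
`∑_{a > w₁} μ ^ a ≤ 2 μ ^ (w₁ + 1)`. -/
theorem bad1 {w w₁ θ B : ℕ} (F : Finset (PC N 1)) (hF : ClosedW w θ F) (hB : 1 ≤ B)
    (hcard : ∀ (D : PC N 1) (a : ℕ), D ∉ F → 1 ≤ a → size D + a ≤ w →
      (univ.filter (fun A : PC N 1 => IsExt F D A ∧ size A = a)).card ≤ B ^ a)
    (hN : 32 * B * r ≤ N - r) (hr : 1 ≤ r) :
    (univ.filter (fun P : Fin r → Fin N => Function.Injective P ∧ ∃ q ≤ r,
      (∃ U ∈ F, Sub U (up P q)) ∧ ∀ U ∈ F, Sub U (up P q) → w₁ < size U)).card * 4 ^ w₁ ≤
      2 * (univ.filter (fun P : Fin r → Fin N => Function.Injective P)).card := by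
  set c : ℕ := (univ.filter (fun P : Fin r → Fin N => Function.Injective P)).card with hc
  by_cases h0 : (fun _ => none : PC N 1) ∈ F
  · have he : (univ.filter (fun P : Fin r → Fin N => Function.Injective P ∧ ∃ q ≤ r,
      (∃ U ∈ F, Sub U (up P q)) ∧ ∀ U ∈ F, Sub U (up P q) → w₁ < size U)) = ∅ := by
      rw [filter_eq_empty_iff]
      rintro P - ⟨-, q, -, -, h⟩
      have h1 := h _ h0 (fun _ _ h => absurd h (by simp))
      have h2 : size (fun _ => none : PC N 1) = 0 := by
        unfold size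
        simp
      omega
    rw [he, card_empty, zero_mul]
    exact Nat.zero_le _
  · have hcover : (univ.filter (fun P : Fin r → Fin N => Function.Injective P ∧ ∃ q ≤ r,
        (∃ U ∈ F, Sub U (up P q)) ∧ ∀ U ∈ F, Sub U (up P q) → w₁ < size U)) ⊆
        (Icc (w₁ + 1) w).biUnion fun a => (univ.filter (fun A : PC N 1 =>
          IsExt F (fun _ => none) A ∧ size A = a)).biUnion fun A =>
          univ.filter (fun P : Fin r → Fin N => Function.Injective P ∧
            ∀ v ∈ Bad1Aux.sp A, ∃ j, P j = v) := by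
      intro P hP
      rw [mem_filter] at hP
      obtain ⟨-, hinj, q, -, ⟨U, hU, hUP⟩, hw⟩ := hP
      obtain ⟨W, hW, hWU⟩ := exists_min hU
      have hWP : Sub W (up P q) := fun j x h => hUP j x (hWU j x h)
      have h1 := hw W hW.1 hWP
      have h2 := hF.1 W hW.1
      rw [mem_biUnion]
      refine ⟨size W, mem_Icc.2 ⟨h1, h2⟩, ?_⟩
      rw [mem_biUnion]
      refine ⟨W, ?_, ?_⟩
      · rw [mem_filter]
        refine ⟨mem_univ _, ⟨fun _ _ => rfl, ?_, ?_⟩, rfl⟩
        · rw [Bad1Aux.join_none]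
          exact hW.1
        · intro A' hA' hne
          rw [Bad1Aux.join_none]
          exact fun h => hne (hW.2 A' h hA')
      · rw [mem_filter]
        refine ⟨mem_univ _, hinj, fun v hv => ?_⟩
        exact exists_pos hWP (mem_filter.1 hv).2
    have hNr : 0 < N - r := by
      have : 1 ≤ 32 * B * r := Nat.succ_le_of_lt (by positivity)
      omega
    have hbound : ∀ a ∈ Icc (w₁ + 1) w, (((univ.filter (fun A : PC N 1 =>
          IsExt F (fun _ => none) A ∧ size A = a)).biUnion fun A =>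
          univ.filter (fun P : Fin r → Fin N => Function.Injective P ∧
            ∀ v ∈ Bad1Aux.sp A, ∃ j, P j = v)).card : ℝ) ≤ c * ((1 / 4) ^ w₁ * (1 / 2) ^ a) := by
      intro a ha
      rw [mem_Icc] at ha
      have h1 : ((univ.filter (fun A : PC N 1 =>
          IsExt F (fun _ => none) A ∧ size A = a)).card : ℝ) ≤ (B : ℝ) ^ a := by
        have := hcard (fun _ => none) a h0 (by omega) (by
          have h2 : size (fun _ => none : PC N 1) = 0 := by
            unfold size
            simp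
          omega)
        exact_mod_cast this
      have h2 : ∀ A ∈ univ.filter (fun A : PC N 1 => IsExt F (fun _ => none) A ∧ size A = a),
          ((univ.filter (fun P : Fin r → Fin N => Function.Injective P ∧
            ∀ v ∈ Bad1Aux.sp A, ∃ j, P j = v)).card : ℝ) ≤
            c * ((r : ℝ) / ((N - r : ℕ) : ℝ)) ^ a := by
        intro A hA
        rw [mem_filter] at hA
        rw [← hA.2.2]
        exact Bad1Aux.paths_le hr hNr A
      have h3 : (0 : ℝ) ≤ c * ((r : ℝ) / ((N - r : ℕ) : ℝ)) ^ a := by positivity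
      calc (((univ.filter (fun A : PC N 1 =>
          IsExt F (fun _ => none) A ∧ size A = a)).biUnion fun A =>
          univ.filter (fun P : Fin r → Fin N => Function.Injective P ∧
            ∀ v ∈ Bad1Aux.sp A, ∃ j, P j = v)).card : ℝ)
          ≤ ∑ A ∈ univ.filter (fun A : PC N 1 => IsExt F (fun _ => none) A ∧ size A = a),
            ((univ.filter (fun P : Fin r → Fin N => Function.Injective P ∧
            ∀ v ∈ Bad1Aux.sp A, ∃ j, P j = v)).card : ℝ) := by
            exact_mod_cast card_biUnion_le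
        _ ≤ ∑ A ∈ univ.filter (fun A : PC N 1 => IsExt F (fun _ => none) A ∧ size A = a),
            c * ((r : ℝ) / ((N - r : ℕ) : ℝ)) ^ a := sum_le_sum h2
        _ = (univ.filter (fun A : PC N 1 => IsExt F (fun _ => none) A ∧ size A = a)).card *
            (c * ((r : ℝ) / ((N - r : ℕ) : ℝ)) ^ a) := by rw [sum_const, nsmul_eq_mul]
        _ ≤ (B : ℝ) ^ a * (c * ((r : ℝ) / ((N - r : ℕ) : ℝ)) ^ a) :=
            mul_le_mul_of_nonneg_right h1 h3
        _ = c * ((B : ℝ) * r / ((N - r : ℕ) : ℝ)) ^ a := by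
            rw [mul_div_assoc, mul_pow]
            ring
        _ ≤ c * ((1 / 4) ^ w₁ * (1 / 2) ^ a) := by
            refine mul_le_mul_of_nonneg_left ?_ (Nat.cast_nonneg _)
            exact Bad1Aux.pow_bound hN hNr (by omega)
    have hsum : ∑ a ∈ Icc (w₁ + 1) w, ((1 : ℝ) / 2) ^ a ≤ 2 := by
      have h1 : ∑ a ∈ Icc (w₁ + 1) w, ((1 : ℝ) / 2) ^ a ≤ ∑ a ∈ range (w + 1), ((1 : ℝ) / 2) ^ a := by
        refine sum_le_sum_of_subset_of_nonneg ?_ fun _ _ _ => by positivity
        intro a ha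
        rw [mem_Icc] at ha
        rw [mem_range]
        omega
      refine h1.trans ?_
      rw [geom_sum_eq (by norm_num)]
      have h2 : (0 : ℝ) < (1 / 2) ^ (w + 1) := by positivity
      rw [div_le_iff_of_neg (by norm_num)]
      linarith
    have hfin : ((univ.filter (fun P : Fin r → Fin N => Function.Injective P ∧ ∃ q ≤ r,
        (∃ U ∈ F, Sub U (up P q)) ∧ ∀ U ∈ F, Sub U (up P q) → w₁ < size U)).card : ℝ) ≤
        c * (1 / 4) ^ w₁ * 2 := by
      calc ((univ.filter (fun P : Fin r → Fin N => Function.Injective P ∧ ∃ q ≤ r,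
        (∃ U ∈ F, Sub U (up P q)) ∧ ∀ U ∈ F, Sub U (up P q) → w₁ < size U)).card : ℝ)
          ≤ ∑ a ∈ Icc (w₁ + 1) w, (((univ.filter (fun A : PC N 1 =>
          IsExt F (fun _ => none) A ∧ size A = a)).biUnion fun A =>
          univ.filter (fun P : Fin r → Fin N => Function.Injective P ∧
            ∀ v ∈ Bad1Aux.sp A, ∃ j, P j = v)).card : ℝ) := by
            exact_mod_cast (card_le_card hcover).trans card_biUnion_le
        _ ≤ ∑ a ∈ Icc (w₁ + 1) w, (c : ℝ) * ((1 / 4) ^ w₁ * (1 / 2) ^ a) := sum_le_sum hbound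
        _ = c * (1 / 4) ^ w₁ * ∑ a ∈ Icc (w₁ + 1) w, ((1 : ℝ) / 2) ^ a := by
            rw [mul_sum]
            exact sum_congr rfl fun a _ => by ring
        _ ≤ c * (1 / 4) ^ w₁ * 2 := mul_le_mul_of_nonneg_left hsum (by positivity)
    have h4 : (0 : ℝ) < 4 ^ w₁ := by positivity
    have h5 : ((univ.filter (fun P : Fin r → Fin N => Function.Injective P ∧ ∃ q ≤ r,
        (∃ U ∈ F, Sub U (up P q)) ∧ ∀ U ∈ F, Sub U (up P q) → w₁ < size U)).card : ℝ) * 4 ^ w₁ ≤
        2 * c := by
      calc _ ≤ (c : ℝ) * (1 / 4) ^ w₁ * 2 * 4 ^ w₁ := mul_le_mul_of_nonneg_right hfin h4.le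
        _ = 2 * c * ((1 / 4) ^ w₁ * 4 ^ w₁) := by ring
        _ = 2 * c := by
            rw [← mul_pow]
            norm_num
    exact_mod_cast h5

/-- the paths which are not good -/
theorem bad_card {w w₁ θ B : ℕ} (F : Fin S → Finset (PC N 1)) (hF : ∀ i, ClosedW w θ (F i))
    (hB : 1 ≤ B) (hS : 1 ≤ S)
    (hcard : ∀ i (D : PC N 1) (a : ℕ), D ∉ F i → 1 ≤ a → size D + a ≤ w →
      (univ.filter (fun A : PC N 1 => IsExt (F i) D A ∧ size A = a)).card ≤ B ^ a)
    (hw : 2 * w₁ ≤ w) (hN : 32 * B * S * r ≤ N - r) (hr : 1 ≤ r) :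
    (univ.filter (fun P : Fin r → Fin N => Function.Injective P ∧ ¬ Good w₁ F P)).card * 4 ^ w₁ ≤
      (2 * S + r + 1) * (univ.filter (fun P : Fin r → Fin N => Function.Injective P)).card := by
  set c : ℕ := (univ.filter (fun P : Fin r → Fin N => Function.Injective P)).card with hc
  set E1 : Fin S → Finset (Fin r → Fin N) := fun i =>
    univ.filter (fun P : Fin r → Fin N => Function.Injective P ∧ ∃ q ≤ r,
      (∃ U ∈ F i, Sub U (up P q)) ∧ ∀ U ∈ F i, Sub U (up P q) → w₁ < size U) with hE1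
  set E2 : ℕ → Finset (Fin r → Fin N) := fun q =>
    univ.filter (fun P : Fin r → Fin N => Function.Injective P ∧
      (∀ i, (∃ U ∈ F i, Sub U (up P q)) → ∃ U ∈ F i, Sub U (up P q) ∧ size U ≤ w₁) ∧
      ¬ ∃ D : PC N 1, Sub D (up P q) ∧ size D ≤ 2 * w₁ ∧
        ∀ i, (∃ U ∈ F i, Sub U (up P q)) → D ∈ F i) with hE2
  have hN1 : 32 * B * r ≤ N - r := by
    refine le_trans ?_ hN
    exact Nat.mul_le_mul_right r (Nat.le_mul_of_pos_right _ hS)
  have h1 : ∀ i, (E1 i).card * 4 ^ w₁ ≤ 2 * c := fun i =>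
    bad1 (F i) (hF i) hB (hcard i) hN1 hr
  have h2 : ∀ q, (E2 q).card * 4 ^ w₁ ≤ c := fun q => bad2 F hF hB hS hcard hw hN hr q
  have hsub : (univ.filter (fun P : Fin r → Fin N => Function.Injective P ∧ ¬ Good w₁ F P)) ⊆
      (univ : Finset (Fin S)).biUnion E1 ∪ (range (r + 1)).biUnion E2 := by
    intro P hP
    rw [mem_filter] at hP
    obtain ⟨-, hinj, hg⟩ := hP
    unfold Good at hg
    push Not at hg
    obtain ⟨q, hq, hq2⟩ := hg
    rw [mem_union]
    by_cases hfirst : ∀ i, (∃ U ∈ F i, Sub U (up P q)) → ∃ U ∈ F i, Sub U (up P q) ∧ size U ≤ w₁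
    · right
      rw [mem_biUnion]
      refine ⟨q, mem_range.2 (by omega), ?_⟩
      rw [hE2, mem_filter]
      refine ⟨mem_univ _, hinj, hfirst, ?_⟩
      rintro ⟨D, hD1, hD2, hD3⟩
      obtain ⟨i, hi, hi2⟩ := hq2 hfirst D hD1 hD2
      exact hi2 (hD3 i hi)
    · left
      push Not at hfirst
      obtain ⟨i, hi, hi2⟩ := hfirst
      rw [mem_biUnion]
      refine ⟨i, mem_univ _, ?_⟩
      rw [hE1, mem_filter]
      exact ⟨mem_univ _, hinj, q, hq, hi, hi2⟩
  have h3 : (univ.filter (fun P : Fin r → Fin N =>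
      Function.Injective P ∧ ¬ Good w₁ F P)).card ≤
      ∑ i, (E1 i).card + ∑ q ∈ range (r + 1), (E2 q).card :=
    (card_le_card hsub).trans ((card_union_le _ _).trans
      (add_le_add card_biUnion_le card_biUnion_le))
  calc (univ.filter (fun P : Fin r → Fin N =>
      Function.Injective P ∧ ¬ Good w₁ F P)).card * 4 ^ w₁
      ≤ (∑ i, (E1 i).card + ∑ q ∈ range (r + 1), (E2 q).card) * 4 ^ w₁ :=
        Nat.mul_le_mul_right _ h3
    _ = ∑ i, (E1 i).card * 4 ^ w₁ + ∑ q ∈ range (r + 1), (E2 q).card * 4 ^ w₁ := by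
        rw [add_mul, sum_mul, sum_mul]
    _ ≤ ∑ _i : Fin S, 2 * c + ∑ _q ∈ range (r + 1), c :=
        add_le_add (sum_le_sum fun i _ => h1 i) (sum_le_sum fun q _ => h2 q)
    _ = (2 * S + r + 1) * c := by
        rw [sum_const, sum_const, card_univ, Fintype.card_fin, card_range, smul_eq_mul, smul_eq_mul]
        ring

end MTC
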