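import Pool.Agent.Lib.MTB.AMach

/-!
# MTC.Basic (MP_e46137_lc, theorem B*): unlayered paths, minimal extensions

The inner vertices are `Fin N`.  A path is an injective `P : Fin r → Fin N`; it has `r + 1` edges
`0, …, r`, the edge `q` joins the positions `q - 1` and `q` (`s` is position `-1`, `t` is
position `r`).  Partial colourings of `Fin N` are `PC N 1` (so that the lemmas on closed families
of `MTB.Clos`, `MTB.Approx` can be used): the value of a coloured vertex is `some (0, b)`.
-/

namespace MTC

open Classical Finset MTS MTB

variable {r N : ℕ}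

/-- the path `P` with its first `q` vertices coloured `true`, the others `false` -/
noncomputable def up (P : Fin r → Fin N) (q : ℕ) : PC N 1 := fun v =>
  if ∃ j : Fin r, P j = v ∧ (j : ℕ) < q then some (0, true)
  else if ∃ j : Fin r, P j = v then some (0, false) else none

/-- the vertices `X j`, `j ∈ J`, coloured `true` if `j < q` and `false` otherwise -/
noncomputable def colr (J : Finset (Fin r)) (X : Fin r → Fin N) (q : ℕ) : PC N 1 := fun v =>
  if ∃ j ∈ J, X j = v ∧ (j : ℕ) < q then some (0, true)
  else if ∃ j ∈ J, X j = v then some (0, false) else none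

/-- the union of two partial colourings -/
noncomputable def join (D A : PC N 1) : PC N 1 := fun v => if D v ≠ none then D v else A v

/-- `A` is a minimal extension of `D` in the family `F` -/
def IsExt (F : Finset (PC N 1)) (D A : PC N 1) : Prop :=
  (∀ v, A v ≠ none → D v = none) ∧ join D A ∈ F ∧ ∀ A', Sub A' A → A' ≠ A → join D A' ∉ F

/-- the injective paths with given vertices on the positions `J` -/
noncomputable def ext (J : Finset (Fin r)) (X : Fin r → Fin N) : Finset (Fin r → Fin N) :=
  univ.filter (fun P => Function.Injective P ∧ ∀ j ∈ J, P j = X j)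

/-- `q` is passed at time `t`: some memory bit is `true` on the path `P`, but its family contains
no part of `up P q` -/
def passed {A : Type} {S : ℕ} (M : AMach A S) (yes : (Fin r → Fin N) → A → Bool)
    (F : ℕ → Fin S → Finset (PC N 1)) (t : ℕ) (P : Fin r → Fin N) : Set ℕ :=
  {q | ∃ i, M.run (yes P) t i = true ∧ ∀ U ∈ F t i, ¬ Sub U (up P q)}

/-- `P` is good for the families `F` (of one time): for every `q`, every family with a member
inside `up P q` has such a member of size at most `w₁`, and some `D` inside `up P q` of size at most
`2 w₁` belongs to all the families with a member inside `up P q` -/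
def Good {S : ℕ} (w₁ : ℕ) (F : Fin S → Finset (PC N 1)) (P : Fin r → Fin N) : Prop :=
  ∀ q ≤ r, (∀ i, (∃ U ∈ F i, Sub U (up P q)) → ∃ U ∈ F i, Sub U (up P q) ∧ size U ≤ w₁) ∧
    ∃ D : PC N 1, Sub D (up P q) ∧ size D ≤ 2 * w₁ ∧
      ∀ i, (∃ U ∈ F i, Sub U (up P q)) → D ∈ F i

end MTC
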