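import Pool.Agent.Lib.MTC.Basic

/-!
# MTC.CntB (MP_e46137_lc, theorem B*): union bounds over the positions of vertices
-/

namespace MTC

open Classical Finset MTS MTB

variable {r N : ℕ}

namespace CntBAux

/-- extension of a function on `A` by a default value -/
noncomputable def ex (A : Finset (Fin N)) (p0 : Fin r) (g : A → Fin r) : Fin N → Fin r := fun v =>
  if h : v ∈ A then g ⟨v, h⟩ else p0

theorem ex_mem {A : Finset (Fin N)} (p0 : Fin r) (g : A → Fin r) {v : Fin N} (h : v ∈ A) :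
    ex A p0 g v = g ⟨v, h⟩ := by
  unfold ex
  rw [dif_pos h]

theorem prod_ex (A : Finset (Fin N)) (p0 : Fin r) (g : A → Fin r) (wt : Fin r → ℝ) :
    ∏ v ∈ A, wt (ex A p0 g v) = ∏ v : A, wt (g v) := by
  rw [← Finset.prod_coe_sort]
  apply Finset.prod_congr rfl
  intro v _
  rw [ex_mem p0 g v.2]

theorem union_bound (E : Finset (Fin r → Fin N)) (A : Finset (Fin N)) (S : Finset (A → Fin r))
    (w : (A → Fin r) → ℝ) (hE : ∀ P ∈ E, ∃ g ∈ S, ∀ v : A, P (g v) = v.1)
    (hb : ∀ g ∈ S, ((E.filter (fun P => ∀ v : A, P (g v) = v.1)).card : ℝ) ≤ w g) :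
    (E.card : ℝ) ≤ ∑ g ∈ S, w g := by
  have h1 : E ⊆ S.biUnion (fun g => E.filter (fun P => ∀ v : A, P (g v) = v.1)) := by
    intro P hP
    obtain ⟨g, hg, hv⟩ := hE P hP
    rw [mem_biUnion]
    exact ⟨g, hg, mem_filter.2 ⟨hP, hv⟩⟩
  have h2 := (card_le_card h1).trans card_biUnion_le
  calc (E.card : ℝ) ≤ ((∑ g ∈ S, (E.filter (fun P => ∀ v : A, P (g v) = v.1)).card : ℕ) : ℝ) := by
        exact_mod_cast h2
    _ = ∑ g ∈ S, ((E.filter (fun P => ∀ v : A, P (g v) = v.1)).card : ℝ) := by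
        rw [Nat.cast_sum]
    _ ≤ ∑ g ∈ S, w g := sum_le_sum hb

/-- the bound for one choice of positions -/
theorem one_bound (E : Finset (Fin r → Fin N)) (A : Finset (Fin N)) (wt : Fin r → ℝ) (c : ℝ)
    (hwt : ∀ p, 0 ≤ wt p) (hc : 0 ≤ c) (p0 : Fin r) (Q : (Fin N → Fin r) → Prop)
    (hb : ∀ f : Fin N → Fin r, Set.InjOn f A → Q f →
      ((E.filter (fun P => ∀ v ∈ A, P (f v) = v)).card : ℝ) ≤ c * ∏ v ∈ A, wt (f v))
    (g : A → Fin r) (hg : Q (ex A p0 g)) :
    ((E.filter (fun P => ∀ v : A, P (g v) = v.1)).card : ℝ) ≤ c * ∏ v : A, wt (g v) := by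
  have heq : E.filter (fun P => ∀ v : A, P (g v) = v.1) =
      E.filter (fun P => ∀ v ∈ A, P (ex A p0 g v) = v) := by
    apply Finset.filter_congr
    intro P _
    constructor
    · intro h v hv
      rw [ex_mem p0 g hv]
      exact h ⟨v, hv⟩
    · intro h v
      have := h v.1 v.2
      rwa [ex_mem p0 g v.2] at this
  rw [heq, ← prod_ex A p0 g wt]
  by_cases hinj : Set.InjOn (ex A p0 g) A
  · exact hb _ hinj hg
  · have h0 : E.filter (fun P => ∀ v ∈ A, P (ex A p0 g v) = v) = ∅ := by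
      rw [Finset.filter_eq_empty_iff]
      intro P _ hP
      apply hinj
      intro v hv v' hv' hvv
      rw [← hP v hv, ← hP v' hv', hvv]
    rw [h0, card_empty, Nat.cast_zero]
    exact mul_nonneg hc (prod_nonneg fun v _ => hwt _)

theorem sum_biUnion_le {α β : Type} [DecidableEq β] (s : Finset α) (t : α → Finset β) (f : β → ℝ)
    (hf : ∀ x, 0 ≤ f x) : ∑ x ∈ s.biUnion t, f x ≤ ∑ a ∈ s, ∑ x ∈ t a, f x := by
  induction s using Finset.induction_on with
  | empty => simp
  | insert a s ha ih =>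
    rw [Finset.biUnion_insert, Finset.sum_insert ha]
    have h1 := Finset.sum_union_inter (s₁ := t a) (s₂ := s.biUnion t) (f := f)
    have h2 : 0 ≤ ∑ x ∈ t a ∩ s.biUnion t, f x := Finset.sum_nonneg fun x _ => hf x
    linarith

end CntBAux

open CntBAux

/-- Union bound over the positions of the vertices of `A`: `wt` is the weight of a position. -/
theorem pos_sum (hr : 1 ≤ r) (E : Finset (Fin r → Fin N)) (A : Finset (Fin N)) (wt : Fin r → ℝ)
    (c : ℝ)
    (hwt : ∀ p, 0 ≤ wt p) (hc : 0 ≤ c)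
    (hE : ∀ P ∈ E, ∀ v ∈ A, ∃ j, P j = v)
    (hb : ∀ f : Fin N → Fin r, Set.InjOn f A →
      ((E.filter (fun P => ∀ v ∈ A, P (f v) = v)).card : ℝ) ≤ c * ∏ v ∈ A, wt (f v)) :
    (E.card : ℝ) ≤ c * (∑ p, wt p) ^ A.card := by
  have p0 : Fin r := ⟨0, hr⟩
  have hne : Nonempty (Fin r) := ⟨p0⟩
  have h1 := union_bound E A univ (fun g => c * ∏ v : A, wt (g v)) (by
    intro P hP
    choose! f hf using hE P hP
    exact ⟨fun v => f v, mem_univ _, fun v => hf v.1 v.2⟩) (by
    intro g _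
    exact one_bound E A wt c hwt hc p0 (fun _ => True) (fun f hf _ => hb f hf) g trivial)
  refine h1.trans (le_of_eq ?_)
  rw [← Finset.mul_sum]
  congr 1
  have h2 := Finset.prod_univ_sum (fun _ : A => (univ : Finset (Fin r))) (fun _ p => wt p)
  rw [Fintype.piFinset_univ] at h2
  rw [← h2, Finset.prod_const, Finset.card_univ, Fintype.card_coe]

/-- The same, when at least one vertex of `A` has its position in `I`. -/
theorem pos_sum_one (hr : 1 ≤ r) (E : Finset (Fin r → Fin N)) (A : Finset (Fin N))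
    (I : Finset (Fin r))
    (wt : Fin r → ℝ) (c : ℝ) (hwt : ∀ p, 0 ≤ wt p) (hc : 0 ≤ c)
    (hE : ∀ P ∈ E, (∀ v ∈ A, ∃ j, P j = v) ∧ ∃ j ∈ I, P j ∈ A)
    (hb : ∀ f : Fin N → Fin r, Set.InjOn f A → (∃ v ∈ A, f v ∈ I) →
      ((E.filter (fun P => ∀ v ∈ A, P (f v) = v)).card : ℝ) ≤ c * ∏ v ∈ A, wt (f v)) :
    (E.card : ℝ) ≤ c * (A.card * (∑ p ∈ I, wt p) * (∑ p, wt p) ^ (A.card - 1)) := by
  have p0 : Fin r := ⟨0, hr⟩
  have hne : Nonempty (Fin r) := ⟨p0⟩
  have h1 := union_bound E A (univ.filter (fun g : A → Fin r => ∃ v, g v ∈ I))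
    (fun g => c * ∏ v : A, wt (g v)) (by
    intro P hP
    obtain ⟨hA, j, hj, hjA⟩ := hE P hP
    choose! f hf using hA
    refine ⟨fun v => if v.1 = P j then j else f v, ?_, ?_⟩
    · rw [mem_filter]
      refine ⟨mem_univ _, ⟨P j, hjA⟩, ?_⟩
      simpa using hj
    · intro v
      beta_reduce
      split_ifs with h
      · exact h.symm
      · exact hf v.1 v.2) (by
    intro g hg
    obtain ⟨v, hv⟩ := (mem_filter.1 hg).2
    refine one_bound E A wt c hwt hc p0 (fun f => ∃ v ∈ A, f v ∈ I) (fun f hf hI => hb f hf hI) g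
      ⟨v.1, v.2, ?_⟩
    rw [ex_mem p0 g v.2]
    exact hv)
  refine h1.trans ?_
  rw [← Finset.mul_sum]
  apply mul_le_mul_of_nonneg_left _ hc
  -- union over the vertex with position in `I`
  have hsub : univ.filter (fun g : A → Fin r => ∃ v, g v ∈ I) ⊆
      (univ : Finset A).biUnion (fun v => Fintype.piFinset
        (fun v' => if v' = v then I else (univ : Finset (Fin r)))) := by
    intro g hg
    obtain ⟨v, hv⟩ := (mem_filter.1 hg).2
    rw [mem_biUnion]
    refine ⟨v, mem_univ _, ?_⟩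
    rw [Fintype.mem_piFinset]
    intro v'
    split_ifs with h
    · rw [h]; exact hv
    · exact mem_univ _
  have hnn : ∀ g : A → Fin r, 0 ≤ ∏ v : A, wt (g v) := fun g => prod_nonneg fun v _ => hwt _
  have h2 : ∑ g ∈ univ.filter (fun g : A → Fin r => ∃ v, g v ∈ I), ∏ v : A, wt (g v) ≤
      ∑ v : A, ∑ g ∈ Fintype.piFinset
        (fun v' => if v' = v then I else (univ : Finset (Fin r))), ∏ v : A, wt (g v) := by
    refine (sum_le_sum_of_subset_of_nonneg hsub (fun g _ _ => hnn g)).trans ?_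
    exact CntBAux.sum_biUnion_le _ _ _ hnn
  refine h2.trans (le_of_eq ?_)
  have h3 : ∀ v : A, ∑ g ∈ Fintype.piFinset
      (fun v' => if v' = v then I else (univ : Finset (Fin r))), ∏ v : A, wt (g v) =
      (∑ p ∈ I, wt p) * (∑ p, wt p) ^ (A.card - 1) := by
    intro v
    rw [← Finset.prod_univ_sum (fun v' : A => if v' = v then I else (univ : Finset (Fin r)))
      (fun _ p => wt p)]
    rw [← Finset.mul_prod_erase univ _ (mem_univ v), if_pos rfl]
    congr 1
    have h4 : ∀ v' ∈ (univ : Finset A).erase v,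
        (∑ j ∈ (if v' = v then I else (univ : Finset (Fin r))), wt j) = ∑ p, wt p := by
      intro v' hv'
      rw [if_neg (ne_of_mem_erase hv')]
    rw [prod_congr rfl h4, prod_const, card_erase_of_mem (mem_univ _), card_univ,
      Fintype.card_coe]
  rw [sum_congr rfl (fun v _ => h3 v), sum_const, card_univ, Fintype.card_coe, nsmul_eq_mul]
  ring

end MTC
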