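import Pool.Agent.Lib.MTC.Tools

/-!
# MTC.Pass (MP_e46137_lc, theorem B*): the passed edges (compare MTB.Passed)
-/

namespace MTC

open Classical Finset MTS MTB

variable {A : Type} {r N S : ℕ}

theorem passed_zero {w : ℕ} (M : AMach A S) (yes : (Fin r → Fin N) → A → Bool)
    (F : ℕ → Fin S → Finset (PC N 1))
    (h0 : ∀ i, M.init i = true → ∀ U : PC N 1, size U ≤ w → U ∈ F 0 i) (P : Fin r → Fin N)
    (q : ℕ) : q ∉ passed M yes F 0 P := by
  rintro ⟨i, hi, hU⟩
  have h1 : size (fun _ => none : PC N 1) ≤ w := by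
    have h2 : size (fun _ => none : PC N 1) = 0 := by
      unfold size
      rw [card_eq_zero, filter_eq_empty_iff]
      intro j _ h
      exact h rfl
    rw [h2]
    exact Nat.zero_le _
  exact hU _ (h0 i hi _ h1) (fun j x hx => absurd hx (by simp))

/-- One step on a good path: let `V` be the union of the set `D` of `Good` (size `≤ 2 w₁`) and of
the two partial colourings of `hX` of size `≤ 2` which force the edges `q₀`, `q₀ + 1`; it lies inside
`up P q`, belongs to `F t j` whenever `run (yes P) t j = true`, and forces all edges of the path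
which are read; so it belongs to `F (t + 1) i` whenever `run (yes P) (t + 1) i = true`. -/
theorem passed_step {w w₁ θ : ℕ} (hw : 2 * w₁ + 4 ≤ w) (M : AMach A S)
    (F : ℕ → Fin S → Finset (PC N 1))
    (yes : (Fin r → Fin N) → A → Bool) (no : Col N 1 → A → Bool) (ep : (Fin r → Fin N) → ℕ → A)
    (hF : ∀ t i, ClosedW w θ (F t i))
    (hnext : ∀ t i (U : PC N 1), size U ≤ w →
        M.next t (fun j => decide (U ∈ F t j)) (fun a => decide (U ∈ force w no a)) i = true →
        U ∈ F (t + 1) i)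
    (hyes : ∀ P a, yes P a = true → ∃ q ≤ r, a = ep P q)
    (P : Fin r → Fin N)
    (hX : ∀ q ≤ r, ∀ q' ≤ r, q ≠ q' → ∃ U : PC N 1, Sub U (up P q) ∧ size U ≤ 2 ∧
      ∀ χ : Col N 1, Agree U χ → no χ (ep P q') = true)
    (t : ℕ) (q₀ : ℕ) (hrd : ∀ q ≤ r, ep P q ∈ M.rd t → q = q₀ ∨ q = q₀ + 1)
    (hP : Good w₁ (F t) P) (q : ℕ) (hq : q ≤ r)
    (h : q ∈ passed M yes F (t + 1) P) :
    q ∈ passed M yes F t P ∨ ep P q ∈ M.rd t := by
  by_contra hcon
  push Not at hcon
  obtain ⟨hnp, hnr⟩ := hcon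
  obtain ⟨i, hi, hiU⟩ := h
  have hex : ∀ j, M.run (yes P) t j = true → ∃ U ∈ F t j, Sub U (up P q) := by
    intro j hj
    by_contra hno
    push Not at hno
    exact hnp ⟨j, hj, hno⟩
  obtain ⟨-, D, hDs, hDc, hDF⟩ := hP q hq
  have hf : ∀ q', ∃ U : PC N 1, Sub U (up P q) ∧ size U ≤ 2 ∧
      (q' ≤ r → q ≠ q' → ∀ χ : Col N 1, Agree U χ → no χ (ep P q') = true) := by
    intro q'
    by_cases h1 : q' ≤ r ∧ q ≠ q'
    · obtain ⟨U, hU1, hU2, hU3⟩ := hX q hq q' h1.1 h1.2
      exact ⟨U, hU1, hU2, fun _ _ => hU3⟩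
    · refine ⟨fun _ => none, fun j x hx => absurd hx (by simp), ?_, ?_⟩
      · have h2 : size (fun _ => none : PC N 1) = 0 := by
          unfold size
          rw [card_eq_zero, filter_eq_empty_iff]
          intro j _ h
          exact h rfl
        rw [h2]
        exact Nat.zero_le _
      · intro h2 h3
        exact absurd ⟨h2, h3⟩ h1
  obtain ⟨U1, hU1s, hU1c, hU1f⟩ := hf q₀
  obtain ⟨U2, hU2s, hU2c, hU2f⟩ := hf (q₀ + 1)
  obtain ⟨X, hX1, hX2, hX3, hX4, -⟩ := exists_union hU1s hU2s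
  obtain ⟨V, hV1, hV2, hV3, hV4, -⟩ := exists_union hDs hX3
  have hVw : size V ≤ w := by omega
  have hVF : ∀ j, M.run (yes P) t j = true → V ∈ F t j := fun j hj =>
    (hF t j).up (hDF j (hex j hj)) hV1 hVw
  have hVno : ∀ q', q' ≤ r → q ≠ q' → (q' = q₀ ∨ q' = q₀ + 1) → V ∈ force w no (ep P q') := by
    intro q' h1 h2 h3
    unfold force
    rw [mem_filter]
    refine ⟨mem_univ _, hVw, fun χ hχ => ?_⟩
    rcases h3 with h3 | h3
    · subst h3
      exact hU1f h1 h2 χ (fun j x hx => hχ j x (hV2 j x (hX1 j x hx)))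
    · subst h3
      exact hU2f h1 h2 χ (fun j x hx => hχ j x (hV2 j x (hX2 j x hx)))
  have hm := M.mono t (M.run (yes P) t) (fun j => decide (V ∈ F t j)) (yes P)
    (fun a => decide (V ∈ force w no a))
    (by
      intro j
      by_cases hj : M.run (yes P) t j = true
      · show M.run (yes P) t j ≤ decide (V ∈ F t j)
        rw [decide_eq_true (hVF j hj)]
        exact Bool.le_true _
      · rw [Bool.eq_false_iff.2 hj]
        exact Bool.false_le _)
    (by
      intro a ha
      by_cases hy : yes P a = true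
      · obtain ⟨q', hq', rfl⟩ := hyes P a hy
        have h2 : q ≠ q' := by
          rintro rfl
          exact hnr ha
        show yes P (ep P q') ≤ decide (V ∈ force w no (ep P q'))
        rw [decide_eq_true (hVno q' hq' h2 (hrd q' hq' ha))]
        exact Bool.le_true _
      · rw [Bool.eq_false_iff.2 hy]
        exact Bool.false_le _)
  have hi' : M.next t (M.run (yes P) t) (yes P) i = true := hi
  have hmi := hm i
  rw [hi'] at hmi
  exact hiU V (hnext t i V hVw (Bool.eq_true_of_true_le hmi)) hV3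

/-- one edge not passed, another edge passed -/
theorem passed_mix {w₁ : ℕ} (M : AMach A S) (F : ℕ → Fin S → Finset (PC N 1))
    (yes : (Fin r → Fin N) → A → Bool) (t : ℕ) (P : Fin r → Fin N) (hP : Good w₁ (F t) P)
    (q q' : ℕ) (hq : q ≤ r) (h : q ∉ passed M yes F t P) (h' : q' ∈ passed M yes F t P) :
    ∃ i, (∀ U ∈ F t i, ¬ Sub U (up P q')) ∧ ∃ W ∈ F t i, Sub W (up P q) ∧ size W ≤ w₁ := by
  obtain ⟨i, hi, hiU⟩ := h'
  refine ⟨i, hiU, (hP q hq).1 i ?_⟩
  by_contra hno
  push Not at hno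
  exact h ⟨i, hi, hno⟩

/-- At the end everything is passed. -/
theorem passed_end {w θ E T : ℕ} (M : AMach A S) (F : ℕ → Fin S → Finset (PC N 1))
    (yes : (Fin r → Fin N) → A → Bool) (no : Col N 1 → A → Bool)
    (hF : ∀ t i, ClosedW w θ (F t i))
    (out : Fin S) (hE : (univ.filter (fun χ : Col N 1 =>
        ∃ i, Hits (F T i) χ ∧ M.run (no χ) T i = false)).card ≤ E) (hE2 : E < 2 ^ (N - w))
    (P : Fin r → Fin N) (hy : M.run (yes P) T out = true)
    (hn : ∀ χ, M.run (no χ) T out = false) (q : ℕ) : q ∈ passed M yes F T P := by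
  refine ⟨out, hy, fun U hU => ?_⟩
  exfalso
  have h1 := agree_card U ((hF T out).1 U hU)
  have h2 : (univ.filter (fun χ : Col N 1 => Agree U χ)) ⊆
      (univ.filter (fun χ : Col N 1 => ∃ i, Hits (F T i) χ ∧ M.run (no χ) T i = false)) := by
    intro χ hχ
    rw [mem_filter] at hχ ⊢
    exact ⟨mem_univ _, out, ⟨U, hU, hχ.2⟩, hn χ⟩
  have h3 := card_le_card h2
  rw [Nat.mul_one] at h1
  omega

end MTC
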