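import Mathlib

/-!
# MTC.Cut (MP_e46137_lc, theorem B*): cutting dyadic intervals; the product `Fp`
-/

namespace MTC

/-- Pigeonhole: an interval of `2 ^ h` edges is cut at less than `2 ^ s` places; one of its `2 ^ s`
pieces with `2 ^ (h - s)` edges has no place in its interior.  (The interior positions of the
interval of edges `[x, x + l)` are `x ≤ j`, `j + 1 < x + l`.) -/
theorem exists_piece {h s x : ℕ} (hs : s ≤ h) (A : Finset ℕ) (hA : A.card < 2 ^ s) :
    ∃ x', x ≤ x' ∧ x' + 2 ^ (h - s) ≤ x + 2 ^ h ∧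
      ∀ j ∈ A, ¬ (x' ≤ j ∧ j + 1 < x' + 2 ^ (h - s)) := by
  by_contra hcon
  push Not at hcon
  obtain ⟨L, hL⟩ : ∃ L, L = 2 ^ (h - s) := ⟨_, rfl⟩
  have hLpos : 0 < L := by rw [hL]; positivity
  have hLs : 2 ^ s * L = 2 ^ h := by
    rw [hL, ← pow_add]
    congr 1
    omega
  rw [← hL] at hcon
  have hex : ∀ i : ℕ, i < 2 ^ s → ∃ j ∈ A, x + i * L ≤ j ∧ j + 1 < x + i * L + L := by
    intro i hi
    have h1 : (i + 1) * L ≤ 2 ^ h := by
      rw [← hLs]
      exact Nat.mul_le_mul_right L hi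
    have h2 : (i + 1) * L = i * L + L := by ring
    obtain ⟨j, hj, h3, h4⟩ := hcon (x + i * L) (Nat.le_add_right _ _) (by omega)
    exact ⟨j, hj, h3, h4⟩
  have hcard : (Finset.range (2 ^ s)).card ≤ A.card := by
    refine Finset.card_le_card_of_injOn
      (fun i => if hi : i < 2 ^ s then (hex i hi).choose else 0) ?_ ?_
    · intro i hi
      rw [Finset.coe_range, Set.mem_Iio] at hi
      simp only [dif_pos hi]
      exact (hex i hi).choose_spec.1
    · intro i hi i' hi' he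
      rw [Finset.coe_range, Set.mem_Iio] at hi hi'
      simp only [dif_pos hi, dif_pos hi'] at he
      have h1 := (hex i hi).choose_spec.2
      have h2 := (hex i' hi').choose_spec.2
      rw [he] at h1
      generalize (hex i' hi').choose = j at h1 h2
      have key : ∀ a b : ℕ, x + a * L ≤ j → j + 1 < x + b * L + L → a ≤ b := by
        intro a b h5 h6
        by_contra h7
        have h8 : b + 1 ≤ a := by omega
        have h9 : (b + 1) * L ≤ a * L := Nat.mul_le_mul_right L h8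
        have h10 : (b + 1) * L = b * L + L := by ring
        omega
      exact le_antisymm (key _ _ h1.1 h2.2) (key _ _ h2.1 h1.2)
  rw [Finset.card_range] at hcard
  omega

/-- `∏_{1 ≤ j ≤ h} κ 2 ^ j` -/
noncomputable def Fp (κ : ℝ) (h : ℕ) : ℝ := ∏ j ∈ Finset.Icc 1 h, κ * 2 ^ j

theorem Fp_eq (κ : ℝ) (h : ℕ) : Fp κ h = κ ^ h * 2 ^ (h * (h + 1) / 2) := by
  unfold Fp
  induction h with
  | zero => simp
  | succ h ih =>
    rw [Finset.prod_Icc_succ_top (by omega), ih]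
    have e : (h + 1) * (h + 1 + 1) / 2 = h * (h + 1) / 2 + (h + 1) := by
      have h1 : (h + 1) * (h + 1 + 1) = h * (h + 1) + 2 * (h + 1) := by ring
      rw [h1]
      omega
    rw [e, pow_add, pow_succ κ h]
    ring

private theorem cut_step (κ : ℝ) (h : ℕ) : ∀ t : ℕ, t ≤ h →
    Fp κ (h - t) * (κ * 2 ^ h) ^ t = Fp κ h * 2 ^ (t * (t - 1) / 2) := by
  intro t
  induction t with
  | zero => intro _; simp
  | succ t ih =>
    intro ht
    have ih' := ih (by omega)
    have e1 : Fp κ (h - t) = Fp κ (h - (t + 1)) * (κ * 2 ^ (h - t)) := by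
      have h1 : h - t = h - (t + 1) + 1 := by omega
      unfold Fp
      rw [h1, Finset.prod_Icc_succ_top (by omega)]
    have e2 : (2 : ℝ) ^ h = 2 ^ (h - t) * 2 ^ t := by
      rw [← pow_add]
      congr 1
      omega
    have e3 : (t + 1) * (t + 1 - 1) / 2 = t * (t - 1) / 2 + t := by
      rcases Nat.eq_zero_or_pos t with h0 | h0
      · subst h0; rfl
      · obtain ⟨u, rfl⟩ : ∃ u, t = u + 1 := ⟨t - 1, by omega⟩
        have h1 : (u + 1 + 1) * (u + 1 + 1 - 1) = (u + 1) * (u + 1 - 1) + 2 * (u + 1) := by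
          simp only [Nat.add_sub_cancel]
          ring
        rw [h1]
        omega
    calc Fp κ (h - (t + 1)) * (κ * 2 ^ h) ^ (t + 1)
        = (Fp κ (h - (t + 1)) * (κ * 2 ^ (h - t))) * (κ * 2 ^ h) ^ t * 2 ^ t := by
          rw [pow_succ, show κ * (2 : ℝ) ^ h = (κ * 2 ^ (h - t)) * 2 ^ t by rw [e2]; ring]
          ring
      _ = Fp κ h * 2 ^ (t * (t - 1) / 2) * 2 ^ t := by rw [← e1, ih']
      _ = _ := by rw [e3, pow_add]; ring

private theorem cut_pow (u : ℕ) : (u + 1) * u / 2 + 1 ≤ 2 ^ u := by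
  induction u with
  | zero => simp
  | succ u ih =>
    have h1 : (u + 1 + 1) * (u + 1) = (u + 1) * u + 2 * (u + 1) := by ring
    have h2 : u < 2 ^ u := Nat.lt_two_pow_self
    rw [h1, pow_succ]
    omega

/-- `Nat.size b` = number of binary digits, `b < 2 ^ Nat.size b`.  Uses
`s (s - 1) / 2 ≤ b - 1` for `s ≤ Nat.size b`. -/
theorem Fp_le {κ : ℝ} (hκ : 0 < κ) {h b : ℕ} (h1 : κ * 2 ^ h ≤ 1) (hb : 1 ≤ b) :
    Fp κ (h - Nat.size b) * (κ * 2 ^ h) ^ b ≤ Fp κ h * 2 ^ (b - 1) := by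
  have hpos : ∀ n, 0 < Fp κ n := by
    intro n
    unfold Fp
    exact Finset.prod_pos fun j _ => by positivity
  obtain ⟨t, ht⟩ : ∃ t, t = min (Nat.size b) h := ⟨_, rfl⟩
  have e1 : h - Nat.size b = h - t := by omega
  have hts : t ≤ Nat.size b := by omega
  have hsb : Nat.size b ≤ b := Nat.size_le.2 Nat.lt_two_pow_self
  have hx : 0 < κ * 2 ^ h := by positivity
  have h2 : t * (t - 1) / 2 ≤ b - 1 := by
    rcases Nat.eq_zero_or_pos t with h0 | h0
    · subst h0; simp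
    · obtain ⟨u, rfl⟩ : ∃ u, t = u + 1 := ⟨t - 1, by omega⟩
      have h3 : 2 ^ u ≤ b := Nat.lt_size.1 (by omega)
      have h4 := cut_pow u
      simp only [Nat.add_sub_cancel]
      omega
  rw [e1]
  calc Fp κ (h - t) * (κ * 2 ^ h) ^ b ≤ Fp κ (h - t) * (κ * 2 ^ h) ^ t :=
        mul_le_mul_of_nonneg_left (pow_le_pow_of_le_one hx.le h1 (by omega)) (hpos _).le
    _ = Fp κ h * 2 ^ (t * (t - 1) / 2) := cut_step κ h t (by omega)
    _ ≤ Fp κ h * 2 ^ (b - 1) :=
        mul_le_mul_of_nonneg_left (pow_le_pow_right₀ one_le_two h2) (hpos _).le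

/-- `∑ a x ^ (a - 1) ≤ 64 / 25` for `x ≤ 3 / 8` -/
theorem sum_le {x : ℝ} (hx0 : 0 ≤ x) (hx : x ≤ 3 / 8) (m : ℕ) :
    ∑ a ∈ Finset.Icc 1 m, (a : ℝ) * x ^ (a - 1) ≤ 3 := by
  have key : ∀ m : ℕ, (∑ a ∈ Finset.Icc 1 m, (a : ℝ) * x ^ (a - 1)) * (1 - x) ^ 2 =
      1 - (m + 1) * x ^ m + m * x ^ (m + 1) := by
    intro m
    induction m with
    | zero => simp
    | succ m ih =>
      rw [Finset.sum_Icc_succ_top (by omega), add_mul, ih, Nat.add_sub_cancel]
      push_cast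
      ring
  have h0 : 0 ≤ ∑ a ∈ Finset.Icc 1 m, (a : ℝ) * x ^ (a - 1) :=
    Finset.sum_nonneg fun a _ => by positivity
  have h1 := key m
  have h2 : (m : ℝ) * x ^ (m + 1) ≤ (m + 1) * x ^ m := by
    have h3 : 0 ≤ x ^ m := pow_nonneg hx0 m
    have h4 : (0 : ℝ) ≤ m := Nat.cast_nonneg m
    have h5 : x * x ^ m ≤ 1 * x ^ m := mul_le_mul_of_nonneg_right (by linarith) h3
    rw [pow_succ]
    nlinarith
  have h6 : (25 / 64 : ℝ) ≤ (1 - x) ^ 2 := by nlinarith
  nlinarith [mul_le_mul_of_nonneg_left h6 h0]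

end MTC
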