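import Pool.Agent.Lib.MTC.Tools
import Pool.Agent.Lib.MTC.Cnt
import Pool.Agent.Lib.MTC.Cut

/-!
# MTC.Rec (MP_e46137_lc, theorem B*): the recursion over time windows
-/

namespace MTC

open Classical Finset MTS MTB

namespace Rec

variable {r N : ℕ}

/-- the paths through the vertices `X|J` for which the edges of `[x, x + l)` are not passed at time
`t₁` and passed at time `t₂` -/
noncomputable def EE (good : Finset (Fin r → Fin N)) (Z : ℕ → (Fin r → Fin N) → Set ℕ)
    (J : Finset (Fin r)) (X : Fin r → Fin N) (x l t₁ t₂ : ℕ) : Finset (Fin r → Fin N) :=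
  good.filter (fun P => (∀ j ∈ J, P j = X j) ∧ (∀ q, x ≤ q → q < x + l → q ∉ Z t₁ P) ∧
    ∀ q, x ≤ q → q < x + l → q ∈ Z t₂ P)

/-- the coloured vertices -/
noncomputable def vs (A : PC N 1) : Finset (Fin N) := univ.filter (fun v => A v ≠ none)

theorem card_vs (A : PC N 1) : (vs A).card = size A := rfl

/-- the interior positions -/
noncomputable def inn (r x l : ℕ) : Finset (Fin r) :=
  univ.filter (fun p => x ≤ (p : ℕ) ∧ (p : ℕ) + 1 < x + l)

theorem card_inn (r x l : ℕ) : (inn r x l).card ≤ l := by
  have h : ((inn r x l).image (fun p : Fin r => (p : ℕ))) ⊆ Finset.Ico x (x + l) := by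
    intro j hj
    rw [Finset.mem_image] at hj
    obtain ⟨p, hp, rfl⟩ := hj
    simp only [inn, Finset.mem_filter, Finset.mem_univ, true_and] at hp
    rw [Finset.mem_Ico]
    omega
  have h2 := Finset.card_le_card h
  rw [Finset.card_image_of_injective _ Fin.val_injective, Nat.card_Ico] at h2
  omega

/-- weights of the positions -/
noncomputable def wt (a b : ℝ) (I : Finset (Fin r)) (p : Fin r) : ℝ := if p ∈ I then a else b

theorem prod_wt (a b : ℝ) (I : Finset (Fin r)) (A : Finset (Fin N)) (f : Fin N → Fin r) :
    ∏ v ∈ A, wt a b I (f v) = a ^ (A.filter (fun v => f v ∈ I)).card *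
      b ^ (A.card - (A.filter (fun v => f v ∈ I)).card) := by
  unfold wt
  rw [Finset.prod_ite, Finset.prod_const, Finset.prod_const]
  congr 2
  have := Finset.card_filter_add_card_filter_not (s := A) (fun v => f v ∈ I)
  omega

theorem sum_wt_le {a b : ℝ} (hb : 0 ≤ b) (I : Finset (Fin r)) :
    ∑ p, wt a b I p ≤ I.card * a + r * b := by
  unfold wt
  rw [Finset.sum_ite, Finset.sum_const, Finset.sum_const, nsmul_eq_mul, nsmul_eq_mul]
  have h1 : (univ.filter (fun p : Fin r => p ∈ I)) = I := by ext; simp
  rw [h1]
  have h2 : ((univ.filter (fun p : Fin r => p ∉ I)).card : ℝ) ≤ r := by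
    have := Finset.card_le_univ (univ.filter (fun p : Fin r => p ∉ I))
    rw [Fintype.card_fin] at this
    exact_mod_cast this
  have := mul_le_mul_of_nonneg_right h2 hb
  linarith

theorem sum_wt_in (a b : ℝ) (I : Finset (Fin r)) : ∑ p ∈ I, wt a b I p = I.card * a := by
  unfold wt
  rw [Finset.sum_congr rfl (fun p hp => if_pos hp), Finset.sum_const, nsmul_eq_mul]

/-- paths through given vertices at given positions -/
theorem fix_bound {R : ℕ} (hR : R = N - r) (J : Finset (Fin r)) (X : Fin r → Fin N)
    (A : Finset (Fin N)) (f : Fin N → Fin r) (hf : Set.InjOn f A)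
    (hJ : ∀ v ∈ A, f v ∉ J) :
    ∃ X' : Fin r → Fin N, (∀ P : Fin r → Fin N, (∀ j ∈ J, P j = X j) → (∀ v ∈ A, P (f v) = v) →
      ∀ j ∈ J ∪ A.image f, P j = X' j) ∧
      (J ∪ A.image f).card = J.card + A.card ∧
      (ext (J ∪ A.image f) X').card * R ^ A.card ≤ (ext J X).card := by
  classical
  have hdisj : Disjoint J (A.image f) := by
    rw [Finset.disjoint_right]
    intro j hj
    rw [Finset.mem_image] at hj
    obtain ⟨v, hv, rfl⟩ := hj
    exact hJ v hv
  have hcard : (A.image f).card = A.card := Finset.card_image_of_injOn hf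
  refine ⟨fun j => if h : ∃ v ∈ A, f v = j then h.choose else X j, ?_, ?_, ?_⟩
  · intro P hP hPA j hj
    beta_reduce
    split_ifs with h
    · have h1 := h.choose_spec
      have h2 := hPA _ h1.1
      rw [h1.2] at h2
      exact h2
    · rcases Finset.mem_union.1 hj with hj | hj
      · exact hP j hj
      · exact absurd (Finset.mem_image.1 hj) h
  · rw [Finset.card_union_of_disjoint hdisj, hcard]
  · have := cnt_union J (A.image f) X
      (fun j => if h : ∃ v ∈ A, f v = j then h.choose else X j) hdisj ?_
    · rw [hcard] at this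
      rw [hR]
      exact this
    · intro j hj
      rw [dif_neg]
      rintro ⟨v, hv, rfl⟩
      exact hJ v hv hj

/-- union bound over the minimal extensions of `D` and the positions of their vertices -/
theorem mixed_bound {S w₁ B : ℕ} (hr : 1 ≤ r) (E : Finset (Fin r → Fin N)) (D : PC N 1)
    (F : Fin S → Finset (PC N 1)) (I : Finset (Fin r)) {c α β u ν : ℝ} (hc : 0 ≤ c)
    (hα : 0 ≤ α) (hβ : 0 ≤ β) (hu : 0 ≤ u) (hν : 0 ≤ ν)
    (hE : ∀ P ∈ E, ∃ i A, D ∉ F i ∧ IsExt (F i) D A ∧ 1 ≤ size A ∧ size A ≤ w₁ ∧
      (∀ v ∈ vs A, ∃ j, P j = v) ∧ ∃ j ∈ I, P j ∈ vs A)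
    (hcard : ∀ i a, D ∉ F i → 1 ≤ a → a ≤ w₁ →
      (univ.filter (fun A : PC N 1 => IsExt (F i) D A ∧ size A = a)).card ≤ B ^ a)
    (hb : ∀ i A, D ∉ F i → IsExt (F i) D A → 1 ≤ size A → size A ≤ w₁ →
      ∀ f : Fin N → Fin r, Set.InjOn f (vs A) → (∃ v ∈ vs A, f v ∈ I) →
        ((E.filter (fun P => ∀ v ∈ vs A, P (f v) = v)).card : ℝ) ≤
          c * ∏ v ∈ vs A, wt α β I (f v))
    (h1 : I.card * α ≤ u) (h2 : r * β ≤ ν) (h3 : S * (B * u) ≤ 1 / 4)
    (h4 : B * (u + ν) ≤ 3 / 8) : (E.card : ℝ) ≤ c := by
  classical
  set 𝒜 : Finset (Fin S × PC N 1) := univ.filter (fun p => D ∉ F p.1 ∧ IsExt (F p.1) D p.2 ∧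
    1 ≤ size p.2 ∧ size p.2 ≤ w₁) with h𝒜
  set Ep : Fin S × PC N 1 → Finset (Fin r → Fin N) := fun p =>
    E.filter (fun P => (∀ v ∈ vs p.2, ∃ j, P j = v) ∧ ∃ j ∈ I, P j ∈ vs p.2) with hEp
  set g : ℕ → ℝ := fun a => a * (u * (u + ν) ^ (a - 1)) with hg
  have hg0 : ∀ a, 0 ≤ g a := by intro a; positivity
  have hsub : E ⊆ 𝒜.biUnion Ep := by
    intro P hP
    obtain ⟨i, A, hD, hA, hs1, hs2, hv, hj⟩ := hE P hP
    rw [Finset.mem_biUnion]
    refine ⟨(i, A), ?_, ?_⟩
    · simp only [h𝒜, Finset.mem_filter, Finset.mem_univ, true_and]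
      exact ⟨hD, hA, hs1, hs2⟩
    · simp only [hEp, Finset.mem_filter]
      exact ⟨hP, hv, hj⟩
  have hone : ∀ p ∈ 𝒜, ((Ep p).card : ℝ) ≤ c * g (size p.2) := by
    intro p hp
    simp only [h𝒜, Finset.mem_filter, Finset.mem_univ, true_and] at hp
    obtain ⟨hD, hA, hs1, hs2⟩ := hp
    have hwt0 : ∀ q, 0 ≤ wt α β I q := by
      intro q; unfold wt; split_ifs <;> assumption
    have := pos_sum_one hr (Ep p) (vs p.2) I (wt α β I) c hwt0 hc ?_ ?_
    · refine this.trans ?_
      apply mul_le_mul_of_nonneg_left _ hc
      rw [sum_wt_in, card_vs, hg]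
      simp only
      rw [mul_assoc]
      apply mul_le_mul_of_nonneg_left _ (by positivity)
      have h5 : ∑ q, wt α β I q ≤ u + ν := (sum_wt_le hβ I).trans (add_le_add h1 h2)
      have h6 : 0 ≤ ∑ q, wt α β I q := Finset.sum_nonneg (fun q _ => hwt0 q)
      apply mul_le_mul h1 (pow_le_pow_left₀ h6 h5 _) (by positivity) hu
    · intro P hP
      simp only [hEp, Finset.mem_filter] at hP
      exact hP.2
    · intro f hf hfI
      refine le_trans ?_ (hb p.1 p.2 hD hA hs1 hs2 f hf hfI)
      have : (Ep p).filter (fun P => ∀ v ∈ vs p.2, P (f v) = v) ⊆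
          E.filter (fun P => ∀ v ∈ vs p.2, P (f v) = v) := by
        apply Finset.filter_subset_filter
        exact Finset.filter_subset _ _
      exact_mod_cast Finset.card_le_card this
  have hfib : ∀ a ∈ Icc 1 w₁, ((𝒜.filter (fun p => size p.2 = a)).card : ℝ) ≤ S * (B : ℝ) ^ a := by
    intro a ha
    rw [Finset.mem_Icc] at ha
    have h5 : (𝒜.filter (fun p => size p.2 = a)).card ≤ S * B ^ a := by
      rw [Finset.card_eq_sum_card_fiberwise (f := fun p : Fin S × PC N 1 => p.1)
        (t := (univ : Finset (Fin S))) (fun _ _ => Finset.mem_coe.2 (Finset.mem_univ _))]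
      calc ∑ i : Fin S, ((𝒜.filter (fun p => size p.2 = a)).filter (fun p => p.1 = i)).card
          ≤ ∑ _i : Fin S, B ^ a := by
            apply Finset.sum_le_sum
            intro i _
            by_cases hDi : D ∈ F i
            · have : ((𝒜.filter (fun p => size p.2 = a)).filter (fun p => p.1 = i)) = ∅ := by
                rw [Finset.eq_empty_iff_forall_notMem]
                intro p hp
                simp only [h𝒜, Finset.mem_filter, Finset.mem_univ, true_and] at hp
                obtain ⟨⟨⟨h6, _⟩, _⟩, h7⟩ := hp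
                rw [h7] at h6
                exact h6 hDi
              rw [this]
              simp
            · refine le_trans ?_ (hcard i a hDi ha.1 ha.2)
              apply Finset.card_le_card_of_injOn (fun p => p.2)
              · intro p hp
                simp only [h𝒜, Finset.coe_filter, Finset.mem_filter, Finset.mem_univ, true_and,
                  Set.mem_ofPred_eq] at hp ⊢
                obtain ⟨⟨⟨_, h6, _⟩, h8⟩, h7⟩ := hp
                rw [h7] at h6
                exact ⟨h6, h8⟩
              · intro p hp q hq hpq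
                simp only [Finset.coe_filter, Set.mem_ofPred_eq] at hp hq
                exact Prod.ext (hp.2.trans hq.2.symm) hpq
        _ = S * B ^ a := by simp
    exact_mod_cast h5
  calc (E.card : ℝ) ≤ ((𝒜.biUnion Ep).card : ℝ) := by exact_mod_cast Finset.card_le_card hsub
    _ ≤ ∑ p ∈ 𝒜, ((Ep p).card : ℝ) := by exact_mod_cast Finset.card_biUnion_le
    _ ≤ ∑ p ∈ 𝒜, c * g (size p.2) := Finset.sum_le_sum hone
    _ = ∑ a ∈ Icc 1 w₁, ∑ p ∈ 𝒜.filter (fun p => size p.2 = a), c * g (size p.2) := by
        rw [Finset.sum_fiberwise_of_maps_to]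
        intro p hp
        simp only [h𝒜, Finset.mem_filter, Finset.mem_univ, true_and] at hp
        exact Finset.mem_Icc.2 ⟨hp.2.2.1, hp.2.2.2⟩
    _ = ∑ a ∈ Icc 1 w₁, ((𝒜.filter (fun p => size p.2 = a)).card : ℝ) * (c * g a) := by
        apply Finset.sum_congr rfl
        intro a _
        rw [Finset.sum_congr rfl (g := fun _ => c * g a), Finset.sum_const, nsmul_eq_mul]
        intro p hp
        rw [(Finset.mem_filter.1 hp).2]
    _ ≤ ∑ a ∈ Icc 1 w₁, (S * (B : ℝ) ^ a) * (c * g a) := by
        apply Finset.sum_le_sum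
        intro a ha
        exact mul_le_mul_of_nonneg_right (hfib a ha) (mul_nonneg hc (hg0 a))
    _ = ∑ a ∈ Icc 1 w₁, c * (S * (B * u)) * ((a : ℝ) * (B * (u + ν)) ^ (a - 1)) := by
        apply Finset.sum_congr rfl
        intro a ha
        rw [Finset.mem_Icc] at ha
        have e : (B : ℝ) ^ a = B * (B : ℝ) ^ (a - 1) := by
          rw [← pow_succ']; congr 1; omega
        rw [hg, e, mul_pow]
        ring
    _ = c * (S * (B * u)) * ∑ a ∈ Icc 1 w₁, ((a : ℝ) * (B * (u + ν)) ^ (a - 1)) := by
        rw [Finset.mul_sum]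
    _ ≤ c * (1 / 4) * 3 := by
        apply mul_le_mul _ (sum_le (by positivity) h4 w₁) _ (by positivity)
        · exact mul_le_mul_of_nonneg_left h3 hc
        · apply Finset.sum_nonneg
          intro a _
          positivity
    _ ≤ c := by linarith

end Rec

open Rec

/-- The paths may have more than `2 ^ (k + 1)` edges. -/
theorem rec_gen {r N T k w w₁ S B V θ : ℕ} (good : Finset (Fin r → Fin N))
    (hinj : ∀ P ∈ good, Function.Injective P)
    (Z : ℕ → (Fin r → Fin N) → Set ℕ) (F : ℕ → Fin S → Finset (PC N 1))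
    (hF : ∀ t i, ClosedW w θ (F t i))
    (hcard : ∀ t i (D : PC N 1) (a : ℕ), D ∉ F t i → 1 ≤ a → size D + a ≤ w →
      (univ.filter (fun A : PC N 1 => IsExt (F t i) D A ∧ size A = a)).card ≤ B ^ a)
    (hr : 2 ^ (k + 1) ≤ r + 1) (hw : (k + 3) * w₁ ≤ w) (hS : 1 ≤ S) (hB : 1 ≤ B)
    (hN : 64 * B * S * 2 ^ k ≤ N - r) (hrB : 8 * B * r ≤ N - r) (hV : T ≤ 2 ^ V)
    (h0 : ∀ P ∈ good, ∀ q ≤ r, q ∉ Z 0 P) (hT : ∀ P ∈ good, ∀ q ≤ r, q ∈ Z T P)
    (hstep : ∀ t < T, ∀ P ∈ good, ∃ q₀, ∀ q ≤ r, q ∈ Z (t + 1) P →
      q ∈ Z t P ∨ q = q₀ ∨ q = q₀ + 1)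
    (hmix : ∀ t < T, ∀ P ∈ good, ∀ q ≤ r, ∀ q' ≤ r, q ∉ Z t P → q' ∈ Z t P →
      ∃ i, (∀ U ∈ F t i, ¬ Sub U (up P q')) ∧ ∃ W ∈ F t i, Sub W (up P q) ∧ size W ≤ w₁) :
    good.card * (N - r) ^ k ≤ 2 ^ V * V ^ k * (16 * B * S) ^ k * 2 ^ (k * (k + 1) / 2) *
      (univ.filter (fun P : Fin r → Fin N => Function.Injective P)).card := by
  obtain ⟨R, hR⟩ : ∃ R, R = N - r := ⟨_, rfl⟩
  rw [← hR] at hN hrB ⊢
  have hRpos : 0 < R := by
    have : 0 < 64 * B * S * 2 ^ k := by positivity
    omega
  have hr1 : 1 ≤ r := by
    have : 2 ≤ 2 ^ (k + 1) := by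
      calc 2 = 2 ^ 1 := rfl
        _ ≤ 2 ^ (k + 1) := Nat.pow_le_pow_right (by norm_num) (by omega)
    omega
  have hRr : (0 : ℝ) < R := by exact_mod_cast hRpos
  have hSr : (1 : ℝ) ≤ S := by exact_mod_cast hS
  have hBr : (1 : ℝ) ≤ B := by exact_mod_cast hB
  have hBS : (0 : ℝ) < B * S := by positivity
  set κ : ℝ := 16 * B * S / R with hκ
  have hκ0 : 0 < κ := by positivity
  have hκk : κ * 2 ^ k ≤ 1 / 4 := by
    rw [hκ, div_mul_eq_mul_div, div_le_div_iff₀ hRr (by norm_num)]
    have : ((64 * B * S * 2 ^ k : ℕ) : ℝ) ≤ R := by exact_mod_cast hN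
    push_cast at this
    linarith
  have hκh : ∀ h ≤ k, κ * 2 ^ h ≤ 1 := by
    intro h hh
    have : κ * 2 ^ h ≤ κ * 2 ^ k := by
      apply mul_le_mul_of_nonneg_left _ hκ0.le
      exact pow_le_pow_right₀ (by norm_num) hh
    linarith
  have hFp0 : ∀ h, 0 ≤ Fp κ h := by
    intro h
    rw [Fp_eq]
    positivity
  -- the numbers `u` and `ν`
  set u : ℝ := 1 / (4 * (B * S)) with hu
  set ν : ℝ := r / R with hν
  have hu0 : 0 ≤ u := by positivity
  have hν0 : 0 ≤ ν := by positivity
  have hx38 : B * (u + ν) ≤ 3 / 8 := by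
    have h1 : (B : ℝ) * u ≤ 1 / 4 := by
      rw [hu, mul_one_div, div_le_div_iff₀ (by positivity) (by norm_num)]
      nlinarith
    have h2 : (B : ℝ) * ν ≤ 1 / 8 := by
      rw [hν, mul_div_assoc', div_le_div_iff₀ hRr (by norm_num)]
      have h3 : ((8 * B * r : ℕ) : ℝ) ≤ R := by exact_mod_cast hrB
      push_cast at h3
      linarith
    linarith
  -- the claim
  have main : ∀ h ≤ k, ∀ (v : ℕ) (J : Finset (Fin r)) (X : Fin r → Fin N) (x t₁ τ : ℕ),
      τ ≤ 2 ^ v → t₁ + τ ≤ T → x + 2 ^ (h + 1) ≤ r + 1 →
      (∀ j ∈ J, ¬ (x ≤ (j : ℕ) ∧ (j : ℕ) + 1 < x + 2 ^ (h + 1))) → J.card ≤ (k - h) * w₁ →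
      ((EE good Z J X x (2 ^ (h + 1)) t₁ (t₁ + τ)).card : ℝ) ≤
        2 ^ v * (v : ℝ) ^ h * Fp κ h * (ext J X).card := by
    intro h
    induction h using Nat.strong_induction_on with
    | _ h IH =>
    intro hhk
    have hsubext : ∀ (J : Finset (Fin r)) (X : Fin r → Fin N) (x l t₁ t₂ : ℕ),
        EE good Z J X x l t₁ t₂ ⊆ ext J X := by
      intro J X x l t₁ t₂ P hP
      simp only [EE, Finset.mem_filter] at hP
      simp only [ext, Finset.mem_filter, Finset.mem_univ, true_and]
      exact ⟨hinj P hP.1, hP.2.1⟩
    rcases Nat.eq_zero_or_pos h with rfl | hpos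
    · intro v J X x t₁ τ _ _ _ _ _
      have h1 : ((EE good Z J X x (2 ^ (0 + 1)) t₁ (t₁ + τ)).card : ℝ) ≤ (ext J X).card := by
        exact_mod_cast Finset.card_le_card (hsubext J X x _ t₁ (t₁ + τ))
      have h2 : Fp κ 0 = 1 := by simp [Fp]
      rw [h2, pow_zero, mul_one, mul_one]
      have h3 : (1 : ℝ) ≤ 2 ^ v := one_le_pow₀ (by norm_num)
      have h4 : (0 : ℝ) ≤ (ext J X).card := by positivity
      nlinarith
    have hl4 : 4 ≤ 2 ^ (h + 1) := by
      calc 4 = 2 ^ 2 := rfl
        _ ≤ 2 ^ (h + 1) := Nat.pow_le_pow_right (by norm_num) (by omega)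
    intro v
    induction v with
    | zero =>
      intro J X x t₁ τ hτ hTT hx _ _
      have hempty : EE good Z J X x (2 ^ (h + 1)) t₁ (t₁ + τ) = ∅ := by
        rw [Finset.eq_empty_iff_forall_notMem]
        intro P hP
        simp only [EE, Finset.mem_filter] at hP
        obtain ⟨hg, _, h1, h2⟩ := hP
        rcases Nat.lt_or_ge τ 1 with hlt | hge
        · have : τ = 0 := by omega
          subst this
          exact h1 x le_rfl (by omega) (h2 x le_rfl (by omega))
        · have : τ = 1 := by simp at hτ; omega
          subst this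
          obtain ⟨q₀, hq₀⟩ := hstep t₁ (by omega) P hg
          have a0 := hq₀ x (by omega) (h2 x le_rfl (by omega))
          have a1 := hq₀ (x + 1) (by omega) (h2 (x + 1) (by omega) (by omega))
          have a2 := hq₀ (x + 2) (by omega) (h2 (x + 2) (by omega) (by omega))
          have b0 := h1 x le_rfl (by omega)
          have b1 := h1 (x + 1) (by omega) (by omega)
          have b2 := h1 (x + 2) (by omega) (by omega)
          rcases a0 with a0 | a0
          · exact b0 a0
          rcases a1 with a1 | a1
          · exact b1 a1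
          rcases a2 with a2 | a2
          · exact b2 a2
          omega
      rw [hempty]
      simp only [Finset.card_empty, Nat.cast_zero]
      have := hFp0 h
      positivity
    | succ v ihv =>
      intro J X x t₁ τ hτ hTT hx hJ hJk
      set cnt : ℝ := ((ext J X).card : ℝ) with hcnt
      have hcnt0 : 0 ≤ cnt := by positivity
      have hv0 : (0 : ℝ) ≤ v := by positivity
      rcases Nat.lt_or_ge τ 2 with hτ2 | hτ2
      · have h1 : τ ≤ 2 ^ v := by
          have : 1 ≤ 2 ^ v := Nat.one_le_two_pow
          omega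
        refine (ihv J X x t₁ τ h1 hTT hx hJ hJk).trans ?_
        apply mul_le_mul_of_nonneg_right _ hcnt0
        apply mul_le_mul_of_nonneg_right _ (hFp0 h)
        apply mul_le_mul
        · exact pow_le_pow_right₀ (by norm_num) (by omega)
        · apply pow_le_pow_left₀ hv0
          push_cast
          linarith
        · positivity
        · positivity
      · obtain ⟨c, hc⟩ : ∃ c, c = t₁ + τ / 2 := ⟨_, rfl⟩
        have hcT : c < T := by omega
        have h2v : 2 ^ (v + 1) = 2 * 2 ^ v := pow_succ' 2 v
        set E := EE good Z J X x (2 ^ (h + 1)) t₁ (t₁ + τ) with hE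
        set Mx := E.filter (fun P => ∃ q q', x ≤ q ∧ q < x + 2 ^ (h + 1) ∧ x ≤ q' ∧
          q' < x + 2 ^ (h + 1) ∧ q ∉ Z c P ∧ q' ∈ Z c P) with hMx
        have hsplit : E ⊆ EE good Z J X x (2 ^ (h + 1)) t₁ (t₁ + τ / 2) ∪
            (EE good Z J X x (2 ^ (h + 1)) (t₁ + τ / 2) (t₁ + τ / 2 + (τ - τ / 2)) ∪ Mx) := by
          intro P hP
          have hP' := hP
          simp only [hE, EE, Finset.mem_filter] at hP'
          obtain ⟨hg, hPJ, hP1, hP2⟩ := hP'
          by_cases hall : ∀ q, x ≤ q → q < x + 2 ^ (h + 1) → q ∈ Z c P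
          · apply Finset.mem_union_left
            simp only [EE, Finset.mem_filter]
            rw [hc] at hall
            exact ⟨hg, hPJ, hP1, hall⟩
          by_cases hnone : ∀ q, x ≤ q → q < x + 2 ^ (h + 1) → q ∉ Z c P
          · apply Finset.mem_union_right
            apply Finset.mem_union_left
            simp only [EE, Finset.mem_filter]
            rw [hc] at hnone
            refine ⟨hg, hPJ, hnone, ?_⟩
            rw [show t₁ + τ / 2 + (τ - τ / 2) = t₁ + τ by omega]
            exact hP2
          · apply Finset.mem_union_right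
            apply Finset.mem_union_right
            rw [hMx, Finset.mem_filter]
            push Not at hall hnone
            obtain ⟨q, hq1, hq2, hq3⟩ := hall
            obtain ⟨q', hq'1, hq'2, hq'3⟩ := hnone
            exact ⟨hP, q, q', hq1, hq2, hq'1, hq'2, hq3, hq'3⟩
        have hcardE : (E.card : ℝ) ≤ (EE good Z J X x (2 ^ (h + 1)) t₁ (t₁ + τ / 2)).card +
            ((EE good Z J X x (2 ^ (h + 1)) (t₁ + τ / 2) (t₁ + τ / 2 + (τ - τ / 2))).card +
              Mx.card) := by
          have := (Finset.card_le_card hsplit).trans (Finset.card_union_le _ _)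
          have h2 := Finset.card_union_le
            (EE good Z J X x (2 ^ (h + 1)) (t₁ + τ / 2) (t₁ + τ / 2 + (τ - τ / 2))) Mx
          exact_mod_cast this.trans (by omega)
        have hA := ihv J X x t₁ (τ / 2) (by omega) (by omega) hx hJ hJk
        have hB := ihv J X x (t₁ + τ / 2) (τ - τ / 2) (by omega) (by omega) hx hJ hJk
        -- the mixed paths
        set c0 : ℝ := 2 ^ v * ((v + 1 : ℕ) : ℝ) ^ (h - 1) * Fp κ h * cnt with hc0
        have hc00 : 0 ≤ c0 := by
          have := hFp0 h
          positivity
        have hC : (Mx.card : ℝ) ≤ c0 := by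
          set I := inn r x (2 ^ (h + 1)) with hI
          set D := colr J X x with hD
          rcases Finset.eq_empty_or_nonempty Mx with hMe | ⟨P₀, hP₀⟩
          · rw [hMe]; simpa using hc00
          -- `X` is injective on `J`
          have hXJ : Set.InjOn X J := by
            rw [hMx, Finset.mem_filter] at hP₀
            have h1 := hP₀.1
            simp only [hE, EE, Finset.mem_filter] at h1
            intro a ha b hb hab
            have := hinj P₀ h1.1
            apply this
            rw [h1.2.1 a ha, h1.2.1 b hb, hab]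
          have hDs : size D = J.card := size_colr hXJ x
          have hkw : (k - h) * w₁ + w₁ ≤ (k + 3) * w₁ := by
            have : (k - h) * w₁ + w₁ = (k - h + 1) * w₁ := by ring
            rw [this]
            exact Nat.mul_le_mul_right _ (by omega)
          have hpow2 : (0 : ℝ) < 2 ^ h := by positivity
          apply mixed_bound (w₁ := w₁) (B := B) (α := 2 / (κ * 2 ^ h * R)) (β := 1 / R) (u := u)
            (ν := ν) hr1 Mx D (F c) I hc00 (by positivity) (by positivity) hu0 hν0
          · -- every mixed path contains a minimal extension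
            intro P hP
            rw [hMx, Finset.mem_filter] at hP
            obtain ⟨hPE, q, q', hq1, hq2, hq'1, hq'2, hqZ, hq'Z⟩ := hP
            simp only [hE, EE, Finset.mem_filter] at hPE
            obtain ⟨hg, hPJ, -, -⟩ := hPE
            have hPi := hinj P hg
            obtain ⟨i, hi1, W, hW, hWs, hWw⟩ := hmix c hcT P hg q (by omega) q' (by omega) hqZ hq'Z
            have hJ' : ∀ j ∈ J, ¬ (x ≤ (j : ℕ) ∧ (j : ℕ) < x + 2 ^ (h + 1) - 1) := by
              intro j hj
              have := hJ j hj
              omega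
            have hDq : Sub D (up P q) := colr_sub hPi hPJ hJ' hq1 (by omega)
            have hDq' : Sub D (up P q') := colr_sub hPi hPJ hJ' hq'1 (by omega)
            have hDF : D ∉ F c i := fun hc' => hi1 D hc' hDq'
            obtain ⟨A, hA, hAW, hA1, hA2⟩ := exists_ext (hF c i) hDF hDq hWs hW (by omega)
            refine ⟨i, A, hDF, hA, hA1, hA2.trans hWw, ?_, ?_⟩
            · intro v hv
              simp only [vs, Finset.mem_filter, Finset.mem_univ, true_and] at hv
              exact exists_pos (fun v z hz => hWs v z (hAW v z hz)) hv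
            · have hAq : Sub A (up P q) := fun v z hz => hWs v z (hAW v z hz)
              obtain ⟨j, hj1, hj2, hj3⟩ := exists_between hPi (join_sub hDq hAq)
                (hi1 _ hA.2.1)
              have hjI : x ≤ (j : ℕ) ∧ (j : ℕ) + 1 < x + 2 ^ (h + 1) := by
                have e1 : x ≤ min q q' := le_min hq1 hq'1
                have e2 : max q q' < x + 2 ^ (h + 1) := max_lt hq2 hq'2
                omega
              refine ⟨j, ?_, ?_⟩
              · simp only [hI, inn, Finset.mem_filter, Finset.mem_univ, true_and]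
                exact hjI
              · simp only [vs, Finset.mem_filter, Finset.mem_univ, true_and]
                have hDj : ¬ D (P j) ≠ none := by
                  rw [hD, colr_ne_none]
                  rintro ⟨j', hj', hj''⟩
                  have : j' = j := hPi (by rw [hPJ j' hj', hj''])
                  rw [this] at hj'
                  exact hJ j hj' hjI
                unfold join at hj1
                rw [if_neg hDj] at hj1
                exact hj1
          · intro i a hDi ha1 ha2
            exact hcard c i D a hDi ha1 (by omega)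
          · -- the paths through `A` at given positions
            intro i A hDi hA hA1 hA2 f hf hfI
            set b := ((vs A).filter (fun v => f v ∈ I)).card with hb
            have hba : b ≤ size A := by
              rw [← card_vs]; exact Finset.card_filter_le _ _
            have hb1 : 1 ≤ b := by
              obtain ⟨v, hv, hvI⟩ := hfI
              exact Finset.card_pos.2 ⟨v, Finset.mem_filter.2 ⟨hv, hvI⟩⟩
            have hprod : ∏ v ∈ vs A, wt (2 / (κ * 2 ^ h * R)) (1 / (R : ℝ)) I (f v) =
                (2 / (κ * 2 ^ h)) ^ b / (R : ℝ) ^ size A := by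
              rw [prod_wt, ← hb, card_vs]
              have e : (R : ℝ) ^ size A = R ^ b * R ^ (size A - b) := by
                rw [← pow_add]; congr 1; omega
              rw [e, div_pow, div_pow, div_pow, mul_pow (κ * 2 ^ h) (R : ℝ), one_pow]
              field_simp
            rw [hprod]
            by_cases hfJ : ∀ v ∈ vs A, f v ∉ J
            · obtain ⟨X', hX', hcJ, hcnt'⟩ := fix_bound hR J X (vs A) f hf hfJ
              rw [card_vs] at hcJ hcnt'
              set J' := J ∪ (vs A).image f with hJ'
              set s := Nat.size b with hs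
              have hs1 : 1 ≤ s := by
                rw [hs]
                exact Nat.size_pos.2 (by omega)
              have hbs : b < 2 ^ s := by
                rw [hs]; exact Nat.lt_size_self b
              have hsubJ : Mx.filter (fun P => ∀ v ∈ vs A, P (f v) = v) ⊆
                  E.filter (fun P => ∀ j ∈ J', P j = X' j) := by
                intro P hP
                rw [Finset.mem_filter] at hP ⊢
                obtain ⟨hPM, hPf⟩ := hP
                rw [hMx, Finset.mem_filter] at hPM
                refine ⟨hPM.1, ?_⟩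
                have h1 := hPM.1
                simp only [hE, EE, Finset.mem_filter] at h1
                exact hX' P h1.2.1 hPf
              have hbound : ((Mx.filter (fun P => ∀ v ∈ vs A, P (f v) = v)).card : ℝ) ≤
                  2 ^ (v + 1) * ((v + 1 : ℕ) : ℝ) ^ (h - s) * Fp κ (h - s) * (ext J' X').card := by
                by_cases hsh : s ≤ h
                · obtain ⟨x', hx'1, hx'2, hx'3⟩ := exists_piece (h := h + 1) (s := s) (x := x)
                    (by omega) ((((vs A).filter (fun v => f v ∈ I)).image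
                      (fun v => (f v : ℕ)))) (lt_of_le_of_lt Finset.card_image_le hbs)
                  rw [show h + 1 - s = (h - s) + 1 by omega] at hx'2 hx'3
                  have hIH := IH (h - s) (by omega) (by omega) (v + 1) J' X' x' t₁ τ hτ hTT
                    (by omega) ?_ ?_
                  · refine le_trans ?_ hIH
                    have hsub2 : Mx.filter (fun P => ∀ v ∈ vs A, P (f v) = v) ⊆
                        EE good Z J' X' x' (2 ^ (h - s + 1)) t₁ (t₁ + τ) := by
                      intro P hP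
                      have h2 := hsubJ hP
                      rw [Finset.mem_filter] at h2
                      obtain ⟨h3, h4⟩ := h2
                      simp only [hE, EE, Finset.mem_filter] at h3
                      simp only [EE, Finset.mem_filter]
                      refine ⟨h3.1, h4, ?_, ?_⟩
                      · intro q hq1 hq2
                        exact h3.2.2.1 q (by omega) (by omega)
                      · intro q hq1 hq2
                        exact h3.2.2.2 q (by omega) (by omega)
                    exact_mod_cast Finset.card_le_card hsub2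
                  · -- no position of `J'` in the interior of the piece
                    intro j hj
                    rw [hJ', Finset.mem_union] at hj
                    rcases hj with hj | hj
                    · have := hJ j hj
                      omega
                    · rw [Finset.mem_image] at hj
                      obtain ⟨v', hv', rfl⟩ := hj
                      by_cases hvI : f v' ∈ I
                      · exact hx'3 _ (Finset.mem_image.2 ⟨v', Finset.mem_filter.2 ⟨hv', hvI⟩, rfl⟩)
                      · simp only [hI, inn, Finset.mem_filter, Finset.mem_univ, true_and] at hvI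
                        omega
                  · rw [hcJ]
                    have h5 : (k - h) * w₁ + w₁ ≤ (k - (h - s)) * w₁ := by
                      have : (k - h) * w₁ + w₁ = (k - h + 1) * w₁ := by ring
                      rw [this]
                      exact Nat.mul_le_mul_right _ (by omega)
                    omega
                · have hz : h - s = 0 := by omega
                  rw [hz, pow_zero, mul_one]
                  have h2 : Fp κ 0 = 1 := by simp [Fp]
                  rw [h2, mul_one]
                  have h3 : ((Mx.filter (fun P => ∀ v ∈ vs A, P (f v) = v)).card : ℝ) ≤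
                      (ext J' X').card := by
                    have : Mx.filter (fun P => ∀ v ∈ vs A, P (f v) = v) ⊆ ext J' X' := by
                      intro P hP
                      have h2 := hsubJ hP
                      rw [Finset.mem_filter] at h2
                      obtain ⟨h3, h4⟩ := h2
                      simp only [hE, EE, Finset.mem_filter] at h3
                      simp only [ext, Finset.mem_filter, Finset.mem_univ, true_and]
                      exact ⟨hinj P h3.1, h4⟩
                    exact_mod_cast Finset.card_le_card this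
                  have h4 : (1 : ℝ) ≤ 2 ^ (v + 1) := one_le_pow₀ (by norm_num)
                  have h5 : (0 : ℝ) ≤ (ext J' X').card := by positivity
                  nlinarith
              refine hbound.trans ?_
              -- numerical comparison
              have n1 : ((v + 1 : ℕ) : ℝ) ^ (h - s) ≤ ((v + 1 : ℕ) : ℝ) ^ (h - 1) := by
                apply pow_le_pow_right₀
                · push_cast; linarith
                · omega
              have n2 : Fp κ (h - s) ≤ Fp κ h * 2 ^ (b - 1) / (κ * 2 ^ h) ^ b := by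
                rw [le_div_iff₀ (by positivity)]
                exact Fp_le hκ0 (hκh h hhk) hb1
              have n3 : ((ext J' X').card : ℝ) ≤ cnt / (R : ℝ) ^ size A := by
                rw [le_div_iff₀ (by positivity), hcnt]
                exact_mod_cast hcnt'
              have p1 : (0 : ℝ) ≤ ((v + 1 : ℕ) : ℝ) ^ (h - s) := by positivity
              have p2 := hFp0 (h - s)
              have p3 := hFp0 h
              have p4 : (0 : ℝ) ≤ (ext J' X').card := by positivity
              calc 2 ^ (v + 1) * ((v + 1 : ℕ) : ℝ) ^ (h - s) * Fp κ (h - s) * (ext J' X').card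
                  ≤ 2 ^ (v + 1) * ((v + 1 : ℕ) : ℝ) ^ (h - 1) *
                    (Fp κ h * 2 ^ (b - 1) / (κ * 2 ^ h) ^ b) * (cnt / (R : ℝ) ^ size A) := by
                    apply mul_le_mul _ n3 p4 (by positivity)
                    apply mul_le_mul _ n2 p2 (by positivity)
                    exact mul_le_mul_of_nonneg_left n1 (by positivity)
                _ = c0 * ((2 / (κ * 2 ^ h)) ^ b / (R : ℝ) ^ size A) := by
                    have e : (2 : ℝ) ^ (v + 1) * 2 ^ (b - 1) = 2 ^ v * 2 ^ b := by
                      rw [← pow_add, ← pow_add]; congr 1; omega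
                    rw [hc0, div_pow]
                    calc 2 ^ (v + 1) * ((v + 1 : ℕ) : ℝ) ^ (h - 1) *
                        (Fp κ h * 2 ^ (b - 1) / (κ * 2 ^ h) ^ b) * (cnt / (R : ℝ) ^ size A)
                        = (2 ^ (v + 1) * 2 ^ (b - 1)) * (((v + 1 : ℕ) : ℝ) ^ (h - 1) * Fp κ h *
                          cnt / (κ * 2 ^ h) ^ b / (R : ℝ) ^ size A) := by ring
                      _ = (2 ^ v * 2 ^ b) * (((v + 1 : ℕ) : ℝ) ^ (h - 1) * Fp κ h *
                          cnt / (κ * 2 ^ h) ^ b / (R : ℝ) ^ size A) := by rw [e]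
                      _ = _ := by ring
            · -- a vertex of `A` cannot sit at a position of `J`
              push Not at hfJ
              obtain ⟨v', hv', hvJ⟩ := hfJ
              have hempty : Mx.filter (fun P => ∀ v ∈ vs A, P (f v) = v) = ∅ := by
                rw [Finset.eq_empty_iff_forall_notMem]
                intro P hP
                rw [Finset.mem_filter] at hP
                obtain ⟨hPM, hPf⟩ := hP
                rw [hMx, Finset.mem_filter] at hPM
                have h1 := hPM.1
                simp only [hE, EE, Finset.mem_filter] at h1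
                have h2 := hPf v' hv'
                rw [h1.2.1 _ hvJ] at h2
                simp only [vs, Finset.mem_filter, Finset.mem_univ, true_and] at hv'
                have h3 := hA.1 v' hv'
                have h4 : D v' ≠ none := by
                  rw [hD, colr_ne_none]
                  exact ⟨f v', hvJ, h2⟩
                exact h4 h3
              rw [hempty, Finset.card_empty, Nat.cast_zero]
              positivity
          · -- weights of the interior positions
            have h1 : ((I.card : ℕ) : ℝ) ≤ 2 ^ (h + 1) := by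
              have := card_inn r x (2 ^ (h + 1))
              exact_mod_cast this
            calc (I.card : ℝ) * (2 / (κ * 2 ^ h * R)) ≤ 2 ^ (h + 1) * (2 / (κ * 2 ^ h * R)) :=
                  mul_le_mul_of_nonneg_right h1 (by positivity)
              _ = u := by
                  rw [hu, hκ, pow_succ]
                  field_simp
                  ring
          · rw [hν]
            apply le_of_eq
            ring
          · rw [hu]
            apply le_of_eq
            field_simp
          · exact hx38
        have hfin : 2 ^ v * (v : ℝ) ^ h * Fp κ h * cnt + (2 ^ v * (v : ℝ) ^ h * Fp κ h * cnt + c0) ≤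
            2 ^ (v + 1) * ((v + 1 : ℕ) : ℝ) ^ h * Fp κ h * cnt := by
          have h1 : (v : ℝ) ^ h + ((v + 1 : ℕ) : ℝ) ^ (h - 1) ≤ ((v + 1 : ℕ) : ℝ) ^ h := by
            have e : h = (h - 1) + 1 := by omega
            have h2 : (v : ℝ) ^ (h - 1) ≤ ((v + 1 : ℕ) : ℝ) ^ (h - 1) := by
              apply pow_le_pow_left₀ hv0
              push_cast
              linarith
            calc (v : ℝ) ^ h + ((v + 1 : ℕ) : ℝ) ^ (h - 1)
                = (v : ℝ) ^ (h - 1) * v + ((v + 1 : ℕ) : ℝ) ^ (h - 1) := by
                  rw [← pow_succ, ← e]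
              _ ≤ ((v + 1 : ℕ) : ℝ) ^ (h - 1) * v + ((v + 1 : ℕ) : ℝ) ^ (h - 1) := by
                  have := mul_le_mul_of_nonneg_right h2 hv0
                  linarith
              _ = ((v + 1 : ℕ) : ℝ) ^ (h - 1) * ((v + 1 : ℕ) : ℝ) := by push_cast; ring
              _ = ((v + 1 : ℕ) : ℝ) ^ h := by rw [← pow_succ, ← e]
          have h3 : 0 ≤ Fp κ h * cnt := mul_nonneg (hFp0 h) hcnt0
          have h4 : 0 ≤ ((v + 1 : ℕ) : ℝ) ^ (h - 1) := by positivity
          have h5 : (0 : ℝ) ≤ 2 ^ v := by positivity
          have e1 : 2 ^ v * (v : ℝ) ^ h * Fp κ h * cnt +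
              (2 ^ v * (v : ℝ) ^ h * Fp κ h * cnt + c0) =
              (2 ^ v * (Fp κ h * cnt)) * (2 * (v : ℝ) ^ h + ((v + 1 : ℕ) : ℝ) ^ (h - 1)) := by
            rw [hc0]; ring
          have e2 : 2 ^ (v + 1) * ((v + 1 : ℕ) : ℝ) ^ h * Fp κ h * cnt =
              (2 ^ v * (Fp κ h * cnt)) * (2 * ((v + 1 : ℕ) : ℝ) ^ h) := by
            rw [pow_succ]; ring
          rw [e1, e2]
          apply mul_le_mul_of_nonneg_left _ (by positivity)
          linarith
        calc (E.card : ℝ) ≤ _ := hcardE
          _ ≤ 2 ^ v * (v : ℝ) ^ h * Fp κ h * cnt + (2 ^ v * (v : ℝ) ^ h * Fp κ h * cnt + c0) :=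
              add_le_add hA (add_le_add hB hC)
          _ ≤ _ := hfin
  -- conclusion
  rcases Finset.eq_empty_or_nonempty good with hge | ⟨P₀, hP₀⟩
  · rw [hge]; simp
  have hm := main k le_rfl V ∅ P₀ 0 0 T hV (by omega) (by omega) (by simp) (by simp)
  have hgood : EE good Z ∅ P₀ 0 (2 ^ (k + 1)) 0 (0 + T) = good := by
    unfold EE
    rw [Finset.filter_true_of_mem]
    intro P hP
    refine ⟨by simp, fun q _ hq => h0 P hP q (by omega), fun q _ hq => ?_⟩
    rw [zero_add]
    exact hT P hP q (by omega)
  have hext : ext (∅ : Finset (Fin r)) P₀ =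
      univ.filter (fun P : Fin r → Fin N => Function.Injective P) := by
    unfold ext
    simp
  rw [hgood, hext, Fp_eq] at hm
  have hfin : (good.card : ℝ) * (R : ℝ) ^ k ≤ 2 ^ V * (V : ℝ) ^ k * (16 * B * S) ^ k *
      2 ^ (k * (k + 1) / 2) *
      ((univ.filter (fun P : Fin r → Fin N => Function.Injective P)).card : ℝ) := by
    calc (good.card : ℝ) * (R : ℝ) ^ k ≤ (2 ^ V * (V : ℝ) ^ k * (κ ^ k * 2 ^ (k * (k + 1) / 2)) *
        ((univ.filter (fun P : Fin r → Fin N => Function.Injective P)).card : ℝ)) * (R : ℝ) ^ k :=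
          mul_le_mul_of_nonneg_right hm (by positivity)
      _ = 2 ^ V * (V : ℝ) ^ k * (κ * R) ^ k * 2 ^ (k * (k + 1) / 2) *
        ((univ.filter (fun P : Fin r → Fin N => Function.Injective P)).card : ℝ) := by
          rw [mul_pow]; ring
      _ = _ := by
          rw [hκ, div_mul_cancel₀ _ hRr.ne']
  exact_mod_cast hfin

theorem rec_lemma {r N T k w w₁ S B V θ : ℕ} (good : Finset (Fin r → Fin N))
    (hinj : ∀ P ∈ good, Function.Injective P)
    (Z : ℕ → (Fin r → Fin N) → Set ℕ) (F : ℕ → Fin S → Finset (PC N 1))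
    (hF : ∀ t i, ClosedW w θ (F t i))
    (hcard : ∀ t i (D : PC N 1) (a : ℕ), D ∉ F t i → 1 ≤ a → size D + a ≤ w →
      (univ.filter (fun A : PC N 1 => IsExt (F t i) D A ∧ size A = a)).card ≤ B ^ a)
    (hr : r + 1 = 2 ^ (k + 1)) (hw : (k + 3) * w₁ ≤ w) (hS : 1 ≤ S) (hB : 1 ≤ B)
    (hN : 64 * B * S * 2 ^ k ≤ N - r) (hV : T ≤ 2 ^ V)
    (h0 : ∀ P ∈ good, ∀ q ≤ r, q ∉ Z 0 P) (hT : ∀ P ∈ good, ∀ q ≤ r, q ∈ Z T P)
    (hstep : ∀ t < T, ∀ P ∈ good, ∃ q₀, ∀ q ≤ r, q ∈ Z (t + 1) P →
      q ∈ Z t P ∨ q = q₀ ∨ q = q₀ + 1)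
    (hmix : ∀ t < T, ∀ P ∈ good, ∀ q ≤ r, ∀ q' ≤ r, q ∉ Z t P → q' ∈ Z t P →
      ∃ i, (∀ U ∈ F t i, ¬ Sub U (up P q')) ∧ ∃ W ∈ F t i, Sub W (up P q) ∧ size W ≤ w₁) :
    good.card * (N - r) ^ k ≤ 2 ^ V * V ^ k * (16 * B * S) ^ k * 2 ^ (k * (k + 1) / 2) *
      (univ.filter (fun P : Fin r → Fin N => Function.Injective P)).card := by
  refine rec_gen (w₁ := w₁) good hinj Z F hF hcard hr.ge hw hS hB hN ?_ hV h0 hT hstep hmix
  refine le_trans ?_ hN
  have h1 : r ≤ 2 * 2 ^ k := by
    rw [pow_succ] at hr
    omega
  calc 8 * B * r ≤ 8 * B * (2 * 2 ^ k) := Nat.mul_le_mul_left _ h1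
    _ = 16 * (B * 2 ^ k) * 1 := by ring
    _ ≤ 64 * (B * 2 ^ k) * S := Nat.mul_le_mul (Nat.mul_le_mul_right _ (by norm_num)) hS
    _ = 64 * B * S * 2 ^ k := by ring

end MTC
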