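import Pool.Agent.Lib.MTC.Quasi
import Pool.Agent.Lib.MTC.Pass
import Pool.Agent.Lib.MTC.Bad
import Pool.Agent.Lib.MTC.Rec
import Pool.Agent.Lib.MTB.Approx

/-!
# MTC.Core (MP_e46137_lc, theorem B*): lower bound for abstract monotone machines
-/

namespace MTC

open Classical Finset MTS MTB

variable {A : Type} {r N S : ℕ}

/-- `good` = the injective paths which are good for `F t` for all `t < T`; `θ = 2 ^ (N - L)`,
`B = 8 w L`. -/
theorem core {k w w₁ L V T : ℕ} (M : AMach A S) (out : Fin S)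
    (yes : (Fin r → Fin N) → A → Bool) (no : Col N 1 → A → Bool) (ep : (Fin r → Fin N) → ℕ → A)
    (hyes : ∀ P a, yes P a = true → ∃ q ≤ r, a = ep P q)
    (hX : ∀ P, Function.Injective P → ∀ q ≤ r, ∀ q' ≤ r, q ≠ q' →
      ∃ U : PC N 1, Sub U (up P q) ∧ size U ≤ 2 ∧
        ∀ χ : Col N 1, Agree U χ → no χ (ep P q') = true)
    (hrd : ∀ t P, Function.Injective P →
      ∃ q₀, ∀ q ≤ r, ep P q ∈ M.rd t → q = q₀ ∨ q = q₀ + 1)
    (hy : ∀ P, Function.Injective P → M.run (yes P) T out = true)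
    (hn : ∀ χ, M.run (no χ) T out = false)
    (hr : r + 1 = 2 ^ (k + 1)) (hw : w = (k + 3) * w₁) (hw1 : 4 ≤ w₁) (hL : 1 ≤ L) (hLN : L ≤ N)
    (hN : 64 * (8 * w * L) * S * 2 ^ k ≤ N - r)
    (hθ : T * (S * ((2 * (N * 1) + 1) ^ w * 2 ^ (N - L))) < 2 ^ (N * 1 - w))
    (hbad : 2 * T * (2 * S + r + 1) ≤ 4 ^ w₁) (hV : T ≤ 2 ^ V) :
    (N - r) ^ k ≤ 2 * (2 ^ V * V ^ k * (16 * (8 * w * L) * S) ^ k * 2 ^ (k * (k + 1) / 2)) := by
  have hS : 1 ≤ S := by
    have := out.isLt
    omega
  have hw3 : 3 * w₁ ≤ w := by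
    rw [hw]
    exact Nat.mul_le_mul_right _ (Nat.le_add_left _ _)
  obtain ⟨B, hBdef⟩ : ∃ B, B = 8 * w * L := ⟨_, rfl⟩
  have hB : 1 ≤ B := by
    rw [hBdef]
    exact Nat.mul_pos (Nat.mul_pos (by norm_num) (by omega)) hL
  rw [← hBdef] at hN ⊢
  have hrN : r < N := by
    have h1 : 1 ≤ 64 * B * S * 2 ^ k :=
      Nat.mul_pos (Nat.mul_pos (Nat.mul_pos (by norm_num) hB) hS) (by positivity)
    omega
  have hpos : 0 < (univ.filter (fun P : Fin r → Fin N => Function.Injective P)).card := by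
    rw [card_pos]
    refine ⟨fun j => ⟨j, by have := j.isLt; omega⟩, ?_⟩
    rw [mem_filter]
    refine ⟨mem_univ _, ?_⟩
    intro i j hij
    have h1 := congrArg Fin.val hij
    exact Fin.ext h1
  have hT1 : 1 ≤ T := by
    by_contra h0
    have hT0 : T = 0 := by omega
    subst hT0
    obtain ⟨P, hP⟩ := card_pos.1 hpos
    rw [mem_filter] at hP
    have h1 := hy P hP.2
    have h2 := hn (fun _ _ => true)
    unfold AMach.run at h1 h2
    rw [h1] at h2
    exact absurd h2 (by simp)
  obtain ⟨θ, hθdef⟩ : ∃ θ, θ = 2 ^ (N - L) := ⟨_, rfl⟩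
  rw [← hθdef] at hθ
  have hθ' : θ < 2 ^ (N * 1 - w) := by
    refine lt_of_le_of_lt ?_ hθ
    calc θ = 1 * (1 * (1 * θ)) := by ring
      _ ≤ T * (S * ((2 * (N * 1) + 1) ^ w * θ)) :=
        Nat.mul_le_mul hT1 (Nat.mul_le_mul hS (Nat.mul_le_mul_right _
          (Nat.one_le_pow _ _ (by omega))))
  obtain ⟨F, hF, h0, hnext, hErr⟩ := exists_approx (r := N) (N := 1) M w θ hθ' no
  have hθL : 2 ^ N ≤ θ * 2 ^ L := by
    rw [hθdef, ← pow_add]
    exact Nat.pow_le_pow_right (by norm_num) (by omega)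
  have hcard : ∀ t i (D : PC N 1) (a : ℕ), D ∉ F t i → 1 ≤ a → size D + a ≤ w →
      (univ.filter (fun A : PC N 1 => IsExt (F t i) D A ∧ size A = a)).card ≤ B ^ a := by
    intro t i D a hD ha hwa
    rw [hBdef]
    exact ext_card (hF t i) hL hθL hD ha hwa
  have hr1 : 1 ≤ r := by
    have h1 : 1 ≤ 2 ^ k := Nat.one_le_two_pow
    rw [pow_succ] at hr
    omega
  have hNr : 32 * B * S * r ≤ N - r := by
    refine le_trans ?_ hN
    have h1 : r ≤ 2 * 2 ^ k := by
      rw [pow_succ] at hr
      omega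
    calc 32 * B * S * r ≤ 32 * B * S * (2 * 2 ^ k) := Nat.mul_le_mul_left _ h1
      _ = 64 * B * S * 2 ^ k := by ring
  obtain ⟨good, hgood⟩ : ∃ good : Finset (Fin r → Fin N), good = univ.filter (fun P =>
    Function.Injective P ∧ ∀ t < T, Good w₁ (F t) P) := ⟨_, rfl⟩
  have hb : ∀ t, (univ.filter (fun P : Fin r → Fin N => Function.Injective P ∧
      ¬ Good w₁ (F t) P)).card * 4 ^ w₁ ≤
      (2 * S + r + 1) * (univ.filter (fun P : Fin r → Fin N => Function.Injective P)).card :=
    fun t => bad_card (F t) (hF t) hB hS (hcard t) (by omega) hNr hr1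
  have hsub : (univ.filter (fun P : Fin r → Fin N => Function.Injective P)) ⊆ good ∪
      (range T).biUnion (fun t => univ.filter (fun P : Fin r → Fin N => Function.Injective P ∧
        ¬ Good w₁ (F t) P)) := by
    intro P hP
    rw [mem_filter] at hP
    rw [mem_union, hgood, mem_filter, mem_biUnion]
    by_cases h : ∀ t < T, Good w₁ (F t) P
    · exact Or.inl ⟨mem_univ _, hP.2, h⟩
    · push Not at h
      obtain ⟨t, ht, ht2⟩ := h
      refine Or.inr ⟨t, mem_range.2 ht, ?_⟩
      rw [mem_filter]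
      exact ⟨mem_univ _, hP.2, ht2⟩
  have hle : (univ.filter (fun P : Fin r → Fin N => Function.Injective P)).card ≤ good.card +
      ∑ t ∈ range T, (univ.filter (fun P : Fin r → Fin N => Function.Injective P ∧
        ¬ Good w₁ (F t) P)).card :=
    (card_le_card hsub).trans ((card_union_le _ _).trans (Nat.add_le_add_left card_biUnion_le _))
  have hsum : 2 * (∑ t ∈ range T, (univ.filter (fun P : Fin r → Fin N => Function.Injective P ∧
        ¬ Good w₁ (F t) P)).card) ≤
      (univ.filter (fun P : Fin r → Fin N => Function.Injective P)).card := by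
    have hpos4 : 0 < 4 ^ w₁ := by positivity
    apply Nat.le_of_mul_le_mul_right _ hpos4
    calc 2 * (∑ t ∈ range T, (univ.filter (fun P : Fin r → Fin N => Function.Injective P ∧
        ¬ Good w₁ (F t) P)).card) * 4 ^ w₁
        = 2 * ∑ t ∈ range T, (univ.filter (fun P : Fin r → Fin N => Function.Injective P ∧
        ¬ Good w₁ (F t) P)).card * 4 ^ w₁ := by
          rw [mul_assoc, Finset.sum_mul]
      _ ≤ 2 * ∑ _t ∈ range T, (2 * S + r + 1) *
          (univ.filter (fun P : Fin r → Fin N => Function.Injective P)).card :=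
          Nat.mul_le_mul_left _ (sum_le_sum (fun t _ => hb t))
      _ = (2 * T * (2 * S + r + 1)) *
          (univ.filter (fun P : Fin r → Fin N => Function.Injective P)).card := by
          rw [sum_const, card_range, smul_eq_mul]
          ring
      _ ≤ 4 ^ w₁ * (univ.filter (fun P : Fin r → Fin N => Function.Injective P)).card :=
          Nat.mul_le_mul_right _ hbad
      _ = _ := mul_comm _ _
  have hgc : (univ.filter (fun P : Fin r → Fin N => Function.Injective P)).card ≤
      2 * good.card := by omega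
  have hgm : ∀ P ∈ good, Function.Injective P ∧ ∀ t < T, Good w₁ (F t) P := by
    intro P hP
    rw [hgood, mem_filter] at hP
    exact hP.2
  have hcount := rec_lemma (T := T) (k := k) (w := w) (w₁ := w₁) (S := S) (B := B) (V := V)
    (θ := θ) good (fun P hP => (hgm P hP).1) (fun t P => passed M yes F t P) F hF hcard hr
    (le_of_eq hw.symm) hS hB hN hV
    (fun P _ q _ => passed_zero M yes F h0 P q)
    (fun P hP q _ => passed_end M F yes no hF out (hErr T) (by simpa using hθ)
      P (hy P (hgm P hP).1) hn q)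
    (by
      intro t ht P hP
      obtain ⟨q₀, hq₀⟩ := hrd t P (hgm P hP).1
      refine ⟨q₀, ?_⟩
      intro q hq hq2
      rcases passed_step (by omega) M F yes no ep hF hnext hyes P (hX P (hgm P hP).1) t q₀ hq₀
        ((hgm P hP).2 t ht) q hq hq2 with h | h
      · exact Or.inl h
      · exact Or.inr (hq₀ q hq h))
    (fun t ht P hP q hq q' _ h h' => passed_mix M F yes t P ((hgm P hP).2 t ht) q q' hq h h')
  apply Nat.le_of_mul_le_mul_left _ hpos
  calc (univ.filter (fun P : Fin r → Fin N => Function.Injective P)).card * (N - r) ^ k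
      ≤ 2 * good.card * (N - r) ^ k := Nat.mul_le_mul_right _ hgc
    _ = 2 * (good.card * (N - r) ^ k) := by ring
    _ ≤ 2 * (2 ^ V * V ^ k * (16 * B * S) ^ k * 2 ^ (k * (k + 1) / 2) *
      (univ.filter (fun P : Fin r → Fin N => Function.Injective P)).card) :=
        Nat.mul_le_mul_left _ hcount
    _ = _ := by ring

end MTC
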