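import Pool.Agent.Lib.MTC.EndC

/-!
# MTC.EndA (MP_e46137_lc, theorem B*): the family of the output bit, correlation form
-/

namespace MTC

open Classical Finset MTS MTB

variable {r N : ℕ}

theorem size_none : size (fun _ => none : PC N 1) = 0 := by
  unfold size
  simp

theorem eq_none_of_size {W : PC N 1} (h : size W = 0) : W = fun _ => none := by
  funext v
  by_contra hne
  have h5 : v ∈ univ.filter (fun v => W v ≠ none) := mem_filter.2 ⟨mem_univ _, hne⟩
  have h6 : (univ.filter (fun v => W v ≠ none)).card = 0 := h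
  rw [card_eq_zero] at h6
  rw [h6] at h5
  exact absurd h5 (notMem_empty _)

/-- A closed family is met by a random path with at most the probability with which it is hit by
a random colouring. -/
theorem endA {w θ B : ℕ} (F : Finset (PC N 1)) (hF : ClosedW w θ F) (hB : 1 ≤ B)
    (hcard : ∀ (D : PC N 1) (a : ℕ), D ∉ F → 1 ≤ a → size D + a ≤ w →
      (univ.filter (fun A : PC N 1 => IsExt F D A ∧ size A = a)).card ≤ B ^ a)
    (hN : 32 * B * r ≤ N - r) (hr : 1 ≤ r) :
    (univ.filter (fun P : Fin r → Fin N => Function.Injective P ∧ ∃ q ≤ r,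
      ∃ U ∈ F, Sub U (up P q))).card * 2 ^ N ≤
      (univ.filter (fun χ : Col N 1 => Hits F χ)).card *
      (univ.filter (fun P : Fin r → Fin N => Function.Injective P)).card := by
  set c : ℕ := (univ.filter (fun P : Fin r → Fin N => Function.Injective P)).card with hc
  rcases F.eq_empty_or_nonempty with hFe | hFne
  · have h1 : (univ.filter (fun P : Fin r → Fin N => Function.Injective P ∧ ∃ q ≤ r,
      ∃ U ∈ F, Sub U (up P q))) = ∅ := by
      rw [filter_eq_empty_iff]
      rintro P - ⟨-, q, -, U, hU, -⟩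
      rw [hFe] at hU
      exact absurd hU (notMem_empty _)
    rw [h1, card_empty, zero_mul]
    exact Nat.zero_le _
  obtain ⟨U₀, hU₀, hmin⟩ := exists_min_image F size hFne
  obtain ⟨a₀, ha₀⟩ : ∃ a₀, a₀ = size U₀ := ⟨_, rfl⟩
  have hhit : 2 ^ (N - a₀) ≤ (univ.filter (fun χ : Col N 1 => Hits F χ)).card := by
    have h1 := agree_card U₀ (le_of_eq ha₀.symm)
    rw [Nat.mul_one] at h1
    refine h1.trans (card_le_card ?_)
    intro χ hχ
    rw [mem_filter] at hχ ⊢
    exact ⟨mem_univ _, U₀, hU₀, hχ.2⟩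
  have ha₀N : a₀ ≤ N := by
    rw [ha₀]
    unfold size
    exact (card_le_univ _).trans (by rw [Fintype.card_fin])
  by_cases h0 : a₀ = 0
  · rw [h0, Nat.sub_zero] at hhit
    rw [mul_comm]
    refine Nat.mul_le_mul hhit (card_le_card ?_)
    intro P hP
    rw [mem_filter] at hP ⊢
    exact ⟨mem_univ _, hP.2.1⟩
  have hF0 : (fun _ => none : PC N 1) ∉ F := by
    intro h
    have h1 := hmin _ h
    rw [size_none] at h1
    omega
  have hcover : (univ.filter (fun P : Fin r → Fin N => Function.Injective P ∧ ∃ q ≤ r,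
      ∃ U ∈ F, Sub U (up P q))) ⊆
      (Icc a₀ w).biUnion fun a => (univ.filter (fun A : PC N 1 =>
        IsExt F (fun _ => none) A ∧ size A = a)).biUnion fun A =>
        univ.filter (fun P : Fin r → Fin N => Function.Injective P ∧
          ∀ v ∈ EndCAux.sp A, ∃ j, P j = v) := by
    intro P hP
    rw [mem_filter] at hP
    obtain ⟨-, hinj, q, -, U, hU, hUP⟩ := hP
    obtain ⟨W, hW, hWU⟩ := exists_min hU
    have hWP : Sub W (up P q) := fun j x h => hUP j x (hWU j x h)
    have h2 := hF.1 W hW.1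
    have h1 : a₀ ≤ size W := by
      rw [ha₀]
      exact hmin W hW.1
    rw [mem_biUnion]
    refine ⟨size W, mem_Icc.2 ⟨h1, h2⟩, ?_⟩
    rw [mem_biUnion]
    refine ⟨W, ?_, ?_⟩
    · rw [mem_filter]
      refine ⟨mem_univ _, ⟨fun _ _ => rfl, ?_, ?_⟩, rfl⟩
      · rw [EndCAux.join_none]
        exact hW.1
      · intro A' hA' hne
        rw [EndCAux.join_none]
        exact fun h => hne (hW.2 A' h hA')
    · rw [mem_filter]
      refine ⟨mem_univ _, hinj, fun v hv => ?_⟩
      exact exists_pos hWP (mem_filter.1 hv).2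
  have hNr : 0 < N - r := by
    have : 1 ≤ 32 * B * r := Nat.succ_le_of_lt (by positivity)
    omega
  have hbound : ∀ a ∈ Icc a₀ w, (((univ.filter (fun A : PC N 1 =>
        IsExt F (fun _ => none) A ∧ size A = a)).biUnion fun A =>
        univ.filter (fun P : Fin r → Fin N => Function.Injective P ∧
          ∀ v ∈ EndCAux.sp A, ∃ j, P j = v)).card : ℝ) ≤ c * (1 / 32) ^ a := by
    intro a ha
    rw [mem_Icc] at ha
    have h1 : ((univ.filter (fun A : PC N 1 =>
        IsExt F (fun _ => none) A ∧ size A = a)).card : ℝ) ≤ (B : ℝ) ^ a := by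
      have := hcard (fun _ => none) a hF0 (by omega) (by rw [size_none]; omega)
      exact_mod_cast this
    have h2 : ∀ A ∈ univ.filter (fun A : PC N 1 => IsExt F (fun _ => none) A ∧ size A = a),
        ((univ.filter (fun P : Fin r → Fin N => Function.Injective P ∧
          ∀ v ∈ EndCAux.sp A, ∃ j, P j = v)).card : ℝ) ≤
          c * ((r : ℝ) / ((N - r : ℕ) : ℝ)) ^ a := by
      intro A hA
      rw [mem_filter] at hA
      rw [← hA.2.2]
      exact EndCAux.paths_le hr hNr A
    have h3 : (0 : ℝ) ≤ c * ((r : ℝ) / ((N - r : ℕ) : ℝ)) ^ a := by positivity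
    calc (((univ.filter (fun A : PC N 1 =>
        IsExt F (fun _ => none) A ∧ size A = a)).biUnion fun A =>
        univ.filter (fun P : Fin r → Fin N => Function.Injective P ∧
          ∀ v ∈ EndCAux.sp A, ∃ j, P j = v)).card : ℝ)
        ≤ ∑ A ∈ univ.filter (fun A : PC N 1 => IsExt F (fun _ => none) A ∧ size A = a),
          ((univ.filter (fun P : Fin r → Fin N => Function.Injective P ∧
          ∀ v ∈ EndCAux.sp A, ∃ j, P j = v)).card : ℝ) := by
          exact_mod_cast card_biUnion_le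
      _ ≤ ∑ A ∈ univ.filter (fun A : PC N 1 => IsExt F (fun _ => none) A ∧ size A = a),
          c * ((r : ℝ) / ((N - r : ℕ) : ℝ)) ^ a := sum_le_sum h2
      _ = (univ.filter (fun A : PC N 1 => IsExt F (fun _ => none) A ∧ size A = a)).card *
          (c * ((r : ℝ) / ((N - r : ℕ) : ℝ)) ^ a) := by rw [sum_const, nsmul_eq_mul]
      _ ≤ (B : ℝ) ^ a * (c * ((r : ℝ) / ((N - r : ℕ) : ℝ)) ^ a) :=
          mul_le_mul_of_nonneg_right h1 h3
      _ = c * ((B : ℝ) * r / ((N - r : ℕ) : ℝ)) ^ a := by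
          rw [mul_div_assoc, mul_pow]
          ring
      _ ≤ c * (1 / 32) ^ a := by
          refine mul_le_mul_of_nonneg_left ?_ (Nat.cast_nonneg _)
          exact EndCAux.mu_le hN hNr a
  have hsum : ∑ a ∈ Icc a₀ w, ((1 : ℝ) / 32) ^ a ≤ (1 / 2) ^ a₀ := by
    have h1 : ∀ m : ℕ, ∑ a ∈ Ico a₀ (a₀ + m), ((1 : ℝ) / 32) ^ a ≤
        (32 / 31) * (1 / 32) ^ a₀ - (32 / 31) * (1 / 32) ^ (a₀ + m) := by
      intro m
      induction m with
      | zero => simp
      | succ m ih =>
        rw [← Nat.add_assoc, sum_Ico_succ_top (by omega)]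
        have h3 : ((1 : ℝ) / 32) ^ (a₀ + m + 1) = (1 / 32) * (1 / 32) ^ (a₀ + m) := by
          rw [pow_succ]
          ring
        rw [h3]
        linarith
    have h2 : ∑ a ∈ Icc a₀ w, ((1 : ℝ) / 32) ^ a ≤
        ∑ a ∈ Ico a₀ (a₀ + (w + 1)), ((1 : ℝ) / 32) ^ a := by
      refine sum_le_sum_of_subset_of_nonneg ?_ (fun _ _ _ => by positivity)
      intro a ha
      rw [mem_Icc] at ha
      rw [mem_Ico]
      omega
    have h3 := h1 (w + 1)
    have h4 : (0 : ℝ) ≤ (1 / 32) ^ (a₀ + (w + 1)) := by positivity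
    have h5 : ((1 : ℝ) / 32) ^ a₀ ≤ (1 / 16) * (1 / 2) ^ a₀ := by
      obtain ⟨b, hb⟩ : ∃ b, a₀ = b + 1 := ⟨a₀ - 1, by omega⟩
      rw [hb, pow_succ, pow_succ]
      have h6 : ((1 : ℝ) / 32) ^ b ≤ (1 / 2) ^ b :=
        pow_le_pow_left₀ (by norm_num) (by norm_num) b
      have h7 : (0 : ℝ) ≤ (1 / 2) ^ b := by positivity
      nlinarith
    have h6 : (0 : ℝ) ≤ (1 / 2) ^ a₀ := by positivity
    linarith
  have hfin : ((univ.filter (fun P : Fin r → Fin N => Function.Injective P ∧ ∃ q ≤ r,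
      ∃ U ∈ F, Sub U (up P q))).card : ℝ) ≤ c * (1 / 2) ^ a₀ := by
    calc ((univ.filter (fun P : Fin r → Fin N => Function.Injective P ∧ ∃ q ≤ r,
      ∃ U ∈ F, Sub U (up P q))).card : ℝ)
        ≤ ∑ a ∈ Icc a₀ w, (((univ.filter (fun A : PC N 1 =>
        IsExt F (fun _ => none) A ∧ size A = a)).biUnion fun A =>
        univ.filter (fun P : Fin r → Fin N => Function.Injective P ∧
          ∀ v ∈ EndCAux.sp A, ∃ j, P j = v)).card : ℝ) := by
          exact_mod_cast (card_le_card hcover).trans card_biUnion_le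
      _ ≤ ∑ a ∈ Icc a₀ w, (c : ℝ) * (1 / 32) ^ a := sum_le_sum hbound
      _ = c * ∑ a ∈ Icc a₀ w, (1 / 32) ^ a := by rw [mul_sum]
      _ ≤ c * (1 / 2) ^ a₀ := mul_le_mul_of_nonneg_left hsum (by positivity)
  have h7 : ((univ.filter (fun P : Fin r → Fin N => Function.Injective P ∧ ∃ q ≤ r,
      ∃ U ∈ F, Sub U (up P q))).card : ℝ) * 2 ^ N ≤ 2 ^ (N - a₀) * c := by
    have h8 : (2 : ℝ) ^ N = 2 ^ (N - a₀) * 2 ^ a₀ := by
      rw [← pow_add]
      congr 1
      omega
    rw [h8]
    calc _ ≤ (c * (1 / 2) ^ a₀) * ((2 : ℝ) ^ (N - a₀) * 2 ^ a₀) :=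
          mul_le_mul_of_nonneg_right hfin (by positivity)
      _ = 2 ^ (N - a₀) * c * ((1 / 2) ^ a₀ * 2 ^ a₀) := by ring
      _ = 2 ^ (N - a₀) * c := by
          rw [← mul_pow]
          norm_num
  have h9 : (univ.filter (fun P : Fin r → Fin N => Function.Injective P ∧ ∃ q ≤ r,
      ∃ U ∈ F, Sub U (up P q))).card * 2 ^ N ≤ 2 ^ (N - a₀) * c := by exact_mod_cast h7
  exact h9.trans (Nat.mul_le_mul_right _ hhit)

end MTC
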