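import Pool.Agent.Lib.MTC.Core
import Pool.Agent.Lib.MTC.EndA

/-!
# MTC.CoreA (MP_e46137_lc, theorem B*): the advantage of one machine
-/

namespace MTC

open Classical Finset MTS MTB

variable {A : Type} {r N S : ℕ}

/-- The advantage with which a machine distinguishes the random path from the random cut. -/
theorem coreA {k w w₁ L V T : ℕ} (M : AMach A S) (out : Fin S)
    (yes : (Fin r → Fin N) → A → Bool) (no : Col N 1 → A → Bool) (ep : (Fin r → Fin N) → ℕ → A)
    (hyes : ∀ P a, yes P a = true → ∃ q ≤ r, a = ep P q)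
    (hX : ∀ P, Function.Injective P → ∀ q ≤ r, ∀ q' ≤ r, q ≠ q' →
      ∃ U : PC N 1, Sub U (up P q) ∧ size U ≤ 2 ∧
        ∀ χ : Col N 1, Agree U χ → no χ (ep P q') = true)
    (hrd : ∀ t P, Function.Injective P →
      ∃ q₀, ∀ q ≤ r, ep P q ∈ M.rd t → q = q₀ ∨ q = q₀ + 1)
    (hr : 2 ^ (k + 1) ≤ r + 1) (hw : w = (k + 3) * w₁) (hw1 : 4 ≤ w₁) (hL : 1 ≤ L) (hLN : L ≤ N)
    (hN : 64 * (8 * w * L) * S * 2 ^ k ≤ N - r) (hNr : 32 * (8 * w * L) * S * r ≤ N - r)
    (hwL : w < L) (hV : T ≤ 2 ^ V) :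
    ((univ.filter (fun P : Fin r → Fin N => Function.Injective P ∧
        M.run (yes P) T out = true)).card : ℝ) /
        (univ.filter (fun P : Fin r → Fin N => Function.Injective P)).card ≤
      ((univ.filter (fun χ : Col N 1 => M.run (no χ) T out = true)).card : ℝ) / 2 ^ N +
      2 ^ V * V ^ k * (16 * (8 * w * L) * S) ^ k * 2 ^ (k * (k + 1) / 2) / ((N - r : ℕ) : ℝ) ^ k +
      T * (2 * S + r + 1) / 4 ^ w₁ +
      T * (S * ((2 * (N * 1) + 1) ^ w * 2 ^ (N - L))) / 2 ^ N := by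
  have hS : 1 ≤ S := by
    have := out.isLt
    omega
  have hw3 : 3 * w₁ ≤ w := by
    rw [hw]
    exact Nat.mul_le_mul_right _ (Nat.le_add_left _ _)
  obtain ⟨B, hBdef⟩ : ∃ B, B = 8 * w * L := ⟨_, rfl⟩
  have hB : 1 ≤ B := by
    rw [hBdef]
    exact Nat.mul_pos (Nat.mul_pos (by norm_num) (by omega)) hL
  have hBr : (8 * w * L : ℝ) = B := by rw [hBdef]; push_cast; ring
  rw [← hBdef] at hN hNr
  rw [hBr]
  have hrN : r < N := by
    have h1 : 1 ≤ 64 * B * S * 2 ^ k :=
      Nat.mul_pos (Nat.mul_pos (Nat.mul_pos (by norm_num) hB) hS) (by positivity)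
    omega
  obtain ⟨tot, htot⟩ : ∃ tot, tot =
    (univ.filter (fun P : Fin r → Fin N => Function.Injective P)).card := ⟨_, rfl⟩
  have hpos : 0 < tot := by
    rw [htot, card_pos]
    refine ⟨fun j => ⟨j, by have := j.isLt; omega⟩, ?_⟩
    rw [mem_filter]
    refine ⟨mem_univ _, ?_⟩
    intro i j hij
    have h1 := congrArg Fin.val hij
    exact Fin.ext h1
  obtain ⟨θ, hθdef⟩ : ∃ θ, θ = 2 ^ (N - L) := ⟨_, rfl⟩
  have hθ' : θ < 2 ^ (N * 1 - w) := by
    rw [hθdef, Nat.mul_one]
    exact Nat.pow_lt_pow_right (by norm_num) (by omega)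
  obtain ⟨F, hF, h0, hnext, hErr⟩ := exists_approx (r := N) (N := 1) M w θ hθ' no
  have hθL : 2 ^ N ≤ θ * 2 ^ L := by
    rw [hθdef, ← pow_add]
    exact Nat.pow_le_pow_right (by norm_num) (by omega)
  have hcard : ∀ t i (D : PC N 1) (a : ℕ), D ∉ F t i → 1 ≤ a → size D + a ≤ w →
      (univ.filter (fun A : PC N 1 => IsExt (F t i) D A ∧ size A = a)).card ≤ B ^ a := by
    intro t i D a hD ha hwa
    rw [hBdef]
    exact ext_card (hF t i) hL hθL hD ha hwa
  have hr1 : 1 ≤ r := by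
    have h1 : 2 ≤ 2 ^ (k + 1) := by
      calc 2 = 2 ^ 1 := rfl
        _ ≤ 2 ^ (k + 1) := Nat.pow_le_pow_right (by norm_num) (by omega)
    omega
  have hNr' : 32 * B * r ≤ N - r := by
    refine le_trans ?_ hNr
    have : 32 * B * r * 1 ≤ 32 * B * r * S := Nat.mul_le_mul_left _ hS
    calc 32 * B * r = 32 * B * r * 1 := by ring
      _ ≤ 32 * B * r * S := this
      _ = 32 * B * S * r := by ring
  -- the number of accepted cuts and paths
  obtain ⟨cN, hcN⟩ : ∃ cN, cN =
    (univ.filter (fun χ : Col N 1 => M.run (no χ) T out = true)).card := ⟨_, rfl⟩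
  obtain ⟨cY, hcY⟩ : ∃ cY, cY = (univ.filter (fun P : Fin r → Fin N => Function.Injective P ∧
        M.run (yes P) T out = true)).card := ⟨_, rfl⟩
  rw [← htot, ← hcN, ← hcY]
  -- the family of the output bit
  have hend := endA (F T out) (hF T out) hB (hcard T out) hNr' hr1
  rw [← htot] at hend
  obtain ⟨E, hE⟩ : ∃ E, E = T * (S * ((2 * (N * 1) + 1) ^ w * θ)) := ⟨_, rfl⟩
  have hhit : (univ.filter (fun χ : Col N 1 => Hits (F T out) χ)).card ≤ cN + E := by
    have h1 : (univ.filter (fun χ : Col N 1 => Hits (F T out) χ)) ⊆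
        univ.filter (fun χ : Col N 1 => M.run (no χ) T out = true) ∪
        univ.filter (fun χ : Col N 1 => ∃ i, Hits (F T i) χ ∧ M.run (no χ) T i = false) := by
      intro χ hχ
      rw [mem_filter] at hχ
      rw [mem_union, mem_filter, mem_filter]
      by_cases h : M.run (no χ) T out = true
      · exact Or.inl ⟨mem_univ _, h⟩
      · exact Or.inr ⟨mem_univ _, out, hχ.2, by simpa using h⟩
    refine (card_le_card h1).trans ((card_union_le _ _).trans ?_)
    rw [← hcN, hE]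
    exact Nat.add_le_add_left (hErr T) _
  obtain ⟨good, hgood⟩ : ∃ good : Finset (Fin r → Fin N), good = univ.filter (fun P =>
    (Function.Injective P ∧ M.run (yes P) T out = true) ∧ (∀ t < T, Good w₁ (F t) P) ∧
      ∀ q ≤ r, ∀ U ∈ F T out, ¬ Sub U (up P q)) := ⟨_, rfl⟩
  have hb : ∀ t, (univ.filter (fun P : Fin r → Fin N => Function.Injective P ∧
      ¬ Good w₁ (F t) P)).card * 4 ^ w₁ ≤ (2 * S + r + 1) * tot := by
    intro t
    rw [htot]
    exact bad_card (F t) (hF t) hB hS (hcard t) (by omega) hNr hr1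
  have hsub : (univ.filter (fun P : Fin r → Fin N => Function.Injective P ∧
        M.run (yes P) T out = true)) ⊆ good ∪
      ((range T).biUnion (fun t => univ.filter (fun P : Fin r → Fin N => Function.Injective P ∧
        ¬ Good w₁ (F t) P)) ∪ univ.filter (fun P : Fin r → Fin N => Function.Injective P ∧
          ∃ q ≤ r, ∃ U ∈ F T out, Sub U (up P q))) := by
    intro P hP
    rw [mem_filter] at hP
    rw [mem_union, hgood, mem_filter, mem_union, mem_biUnion, mem_filter]
    by_cases h : ∀ t < T, Good w₁ (F t) P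
    · by_cases h' : ∃ q ≤ r, ∃ U ∈ F T out, Sub U (up P q)
      · exact Or.inr (Or.inr ⟨mem_univ _, hP.2.1, h'⟩)
      · push Not at h'
        exact Or.inl ⟨mem_univ _, hP.2, h, h'⟩
    · push Not at h
      obtain ⟨t, ht, ht2⟩ := h
      refine Or.inr (Or.inl ⟨t, mem_range.2 ht, ?_⟩)
      rw [mem_filter]
      exact ⟨mem_univ _, hP.2.1, ht2⟩
  obtain ⟨e1, he1⟩ : ∃ e1, e1 = ((range T).biUnion (fun t => univ.filter
    (fun P : Fin r → Fin N => Function.Injective P ∧ ¬ Good w₁ (F t) P))).card := ⟨_, rfl⟩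
  obtain ⟨e2, he2⟩ : ∃ e2, e2 = (univ.filter (fun P : Fin r → Fin N => Function.Injective P ∧
          ∃ q ≤ r, ∃ U ∈ F T out, Sub U (up P q))).card := ⟨_, rfl⟩
  rw [← he2] at hend
  have hle : cY ≤ good.card + (e1 + e2) := by
    rw [hcY, he1, he2]
    exact (card_le_card hsub).trans ((card_union_le _ _).trans
      (Nat.add_le_add_left (card_union_le _ _) _))
  have hsum : e1 * 4 ^ w₁ ≤ T * (2 * S + r + 1) * tot := by
    calc e1 * 4 ^ w₁
        ≤ (∑ t ∈ range T, (univ.filter (fun P : Fin r → Fin N => Function.Injective P ∧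
        ¬ Good w₁ (F t) P)).card) * 4 ^ w₁ := by
          apply Nat.mul_le_mul_right
          rw [he1]
          exact card_biUnion_le
      _ = ∑ t ∈ range T, (univ.filter (fun P : Fin r → Fin N => Function.Injective P ∧
        ¬ Good w₁ (F t) P)).card * 4 ^ w₁ := by
          rw [Finset.sum_mul]
      _ ≤ ∑ _t ∈ range T, (2 * S + r + 1) * tot :=
          sum_le_sum (fun t _ => hb t)
      _ = T * (2 * S + r + 1) * tot := by
          rw [sum_const, card_range, smul_eq_mul]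
          ring
  have hgm : ∀ P ∈ good, Function.Injective P ∧ M.run (yes P) T out = true ∧
      (∀ t < T, Good w₁ (F t) P) ∧ ∀ q ≤ r, ∀ U ∈ F T out, ¬ Sub U (up P q) := by
    intro P hP
    rw [hgood, mem_filter] at hP
    exact ⟨hP.2.1.1, hP.2.1.2, hP.2.2⟩
  have hcount := rec_gen (T := T) (k := k) (w := w) (w₁ := w₁) (S := S) (B := B) (V := V)
    (θ := θ) good (fun P hP => (hgm P hP).1) (fun t P => passed M yes F t P) F hF hcard hr
    (le_of_eq hw.symm) hS hB hN (le_trans (Nat.mul_le_mul_right _ (Nat.mul_le_mul_right _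
      (by norm_num))) hNr') hV
    (fun P _ q _ => passed_zero M yes F h0 P q)
    (fun P hP q hq => ⟨out, (hgm P hP).2.1, (hgm P hP).2.2.2 q hq⟩)
    (by
      intro t ht P hP
      obtain ⟨q₀, hq₀⟩ := hrd t P (hgm P hP).1
      refine ⟨q₀, ?_⟩
      intro q hq hq2
      rcases passed_step (by omega) M F yes no ep hF hnext hyes P (hX P (hgm P hP).1) t q₀ hq₀
        ((hgm P hP).2.2.1 t ht) q hq hq2 with h | h
      · exact Or.inl h
      · exact Or.inr (hq₀ q hq h))
    (fun t ht P hP q hq q' _ h h' =>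
      passed_mix M F yes t P ((hgm P hP).2.2.1 t ht) q q' hq h h')
  rw [← htot] at hcount
  -- the four terms
  have hposR : (0 : ℝ) < tot := by exact_mod_cast hpos
  have hRpos : (0 : ℝ) < ((N - r : ℕ) : ℝ) := by
    exact_mod_cast (by omega : 0 < N - r)
  have hg : ((good.card : ℝ)) / tot ≤ 2 ^ V * V ^ k * (16 * B * S) ^ k * 2 ^ (k * (k + 1) / 2) /
      ((N - r : ℕ) : ℝ) ^ k := by
    rw [div_le_div_iff₀ hposR (by positivity)]
    exact_mod_cast hcount
  have h1 : (e1 : ℝ) / tot ≤ T * (2 * S + r + 1) / 4 ^ w₁ := by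
    rw [div_le_div_iff₀ hposR (by positivity)]
    exact_mod_cast hsum
  have h2 : (e2 : ℝ) / tot ≤ (cN : ℝ) / 2 ^ N + (E : ℝ) / 2 ^ N := by
    rw [← add_div, div_le_div_iff₀ hposR (by positivity)]
    have h3 := hend.trans (Nat.mul_le_mul_right _ hhit)
    exact_mod_cast h3
  have h3 : (cY : ℝ) / tot ≤ (good.card : ℝ) / tot + ((e1 : ℝ) / tot + (e2 : ℝ) / tot) := by
    rw [← add_div, ← add_div]
    apply div_le_div_of_nonneg_right _ hposR.le
    exact_mod_cast hle
  have h4 : (E : ℝ) = T * (S * ((2 * (N * 1) + 1) ^ w * 2 ^ (N - L))) := by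
    rw [hE, hθdef]
    push_cast
    ring
  rw [h4] at h2
  linarith

end MTC
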