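import Pool.Agent.Lib.MTC.Bad

/-!
# MTC.EndC (MP_e46137_lc, theorem B*): the family of the output bit
-/

namespace MTC

open Classical Finset MTS MTB

variable {r N : ℕ}

namespace EndCAux

/-- the coloured vertices -/
noncomputable def sp (A : PC N 1) : Finset (Fin N) := univ.filter (fun v => A v ≠ none)

theorem join_none (A : PC N 1) : join (fun _ => none) A = A := by
  funext v
  simp [join]

/-- the paths through all the coloured vertices -/
theorem paths_le (hr : 1 ≤ r) (hNr : 0 < N - r) (A : PC N 1) :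
    ((univ.filter (fun P : Fin r → Fin N => Function.Injective P ∧
      ∀ v ∈ sp A, ∃ j, P j = v)).card : ℝ) ≤
      (univ.filter (fun P : Fin r → Fin N => Function.Injective P)).card *
        ((r : ℝ) / ((N - r : ℕ) : ℝ)) ^ (size A) := by
  have hNr' : (0 : ℝ) < ((N - r : ℕ) : ℝ) := by exact_mod_cast hNr
  have h := pos_sum hr (univ.filter (fun P : Fin r → Fin N => Function.Injective P ∧
      ∀ v ∈ sp A, ∃ j, P j = v)) (sp A) (fun _ => ((N - r : ℕ) : ℝ)⁻¹)
      (univ.filter (fun P : Fin r → Fin N => Function.Injective P)).card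
      (fun _ => by positivity) (Nat.cast_nonneg _) (fun P hP => (mem_filter.1 hP).2.2) ?_
  · rw [sum_const, card_univ, Fintype.card_fin, nsmul_eq_mul, ← div_eq_mul_inv] at h
    exact h
  · intro f hf
    rw [prod_const]
    have h1 : (∅ : Finset (Fin r)) ∪ (sp A).image f = (sp A).image f := empty_union _
    rcases (sp A).eq_empty_or_nonempty with he | ⟨v0, hv0⟩
    · rw [he, card_empty, pow_zero, mul_one]
      refine Nat.cast_le.2 (card_le_card ?_)
      intro P hP
      rw [mem_filter, mem_filter] at hP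
      exact mem_filter.2 ⟨mem_univ _, hP.1.2.1⟩
    · set Y : Fin r → Fin N := fun j => if h : ∃ v ∈ sp A, f v = j then h.choose else v0 with hY
      have hYf : ∀ v ∈ sp A, Y (f v) = v := by
        intro v hv
        have hex : ∃ v' ∈ sp A, f v' = f v := ⟨v, hv, rfl⟩
        simp only [hY, dif_pos hex]
        exact hf hex.choose_spec.1 hv hex.choose_spec.2
      have h2 := cnt_union (∅ : Finset (Fin r)) ((sp A).image f) Y Y (disjoint_empty_left _)
        (fun j hj => absurd hj (notMem_empty j))
      rw [h1, card_image_of_injOn hf] at h2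
      have h3 : ext (∅ : Finset (Fin r)) Y =
          univ.filter (fun P : Fin r → Fin N => Function.Injective P) := by
        unfold ext
        refine filter_congr fun P _ => ?_
        simp
      rw [h3] at h2
      have h4 : ((univ.filter (fun P : Fin r → Fin N => Function.Injective P ∧
          ∀ v ∈ sp A, ∃ j, P j = v)).filter (fun P => ∀ v ∈ sp A, P (f v) = v)).card ≤
          (ext ((sp A).image f) Y).card := by
        refine card_le_card ?_
        intro P hP
        rw [mem_filter, mem_filter] at hP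
        unfold ext
        rw [mem_filter]
        refine ⟨mem_univ _, hP.1.2.1, ?_⟩
        intro j hj
        obtain ⟨v, hv, rfl⟩ := mem_image.1 hj
        rw [hP.2 v hv, hYf v hv]
      have h5 : (((univ.filter (fun P : Fin r → Fin N => Function.Injective P ∧
          ∀ v ∈ sp A, ∃ j, P j = v)).filter (fun P => ∀ v ∈ sp A, P (f v) = v)).card : ℝ) *
          ((N - r : ℕ) : ℝ) ^ (sp A).card ≤
          (univ.filter (fun P : Fin r → Fin N => Function.Injective P)).card := by
        have h6 := (Nat.mul_le_mul_right ((N - r) ^ (sp A).card) h4).trans h2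
        exact_mod_cast h6
      rw [inv_pow, ← div_eq_mul_inv, le_div_iff₀ (by positivity)]
      exact h5

theorem mu_le {B : ℕ} (hN : 32 * B * r ≤ N - r) (hNr : 0 < N - r) (a : ℕ) :
    ((B : ℝ) * r / ((N - r : ℕ) : ℝ)) ^ a ≤ (1 / 32) ^ a := by
  have hNr' : (0 : ℝ) < ((N - r : ℕ) : ℝ) := by exact_mod_cast hNr
  have h1 : (B : ℝ) * r / ((N - r : ℕ) : ℝ) ≤ 1 / 32 := by
    rw [div_le_div_iff₀ hNr' (by norm_num)]
    have : ((32 * B * r : ℕ) : ℝ) ≤ ((N - r : ℕ) : ℝ) := by exact_mod_cast hN
    push_cast at this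
    linarith
  have h0 : (0 : ℝ) ≤ (B : ℝ) * r / ((N - r : ℕ) : ℝ) := by positivity
  exact pow_le_pow_left₀ h0 h1 a

end EndCAux

/-- If the empty colouring is not in the closed family `F` then at most one sixteenth of the paths
have a member of `F` inside some `up P q` (they pass through all vertices of a minimal member of
size `a ≥ 1`; `∑_{a ≥ 1} μ ^ a ≤ 1 / 16` for `μ = B r / (N - r) ≤ 1 / 32`; compare `bad1`). -/
theorem end16 {w θ B : ℕ} (F : Finset (PC N 1)) (hF : ClosedW w θ F) (hB : 1 ≤ B)
    (hF0 : (fun _ => none : PC N 1) ∉ F)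
    (hcard : ∀ (D : PC N 1) (a : ℕ), D ∉ F → 1 ≤ a → size D + a ≤ w →
      (univ.filter (fun A : PC N 1 => IsExt F D A ∧ size A = a)).card ≤ B ^ a)
    (hN : 32 * B * r ≤ N - r) (hr : 1 ≤ r) :
    16 * (univ.filter (fun P : Fin r → Fin N => Function.Injective P ∧ ∃ q ≤ r,
      ∃ U ∈ F, Sub U (up P q))).card ≤
      (univ.filter (fun P : Fin r → Fin N => Function.Injective P)).card := by
  set c : ℕ := (univ.filter (fun P : Fin r → Fin N => Function.Injective P)).card with hc
  have hs0 : size (fun _ => none : PC N 1) = 0 := by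
    unfold size
    simp
  have hcover : (univ.filter (fun P : Fin r → Fin N => Function.Injective P ∧ ∃ q ≤ r,
      ∃ U ∈ F, Sub U (up P q))) ⊆
      (Icc 1 w).biUnion fun a => (univ.filter (fun A : PC N 1 =>
        IsExt F (fun _ => none) A ∧ size A = a)).biUnion fun A =>
        univ.filter (fun P : Fin r → Fin N => Function.Injective P ∧
          ∀ v ∈ EndCAux.sp A, ∃ j, P j = v) := by
    intro P hP
    rw [mem_filter] at hP
    obtain ⟨-, hinj, q, -, U, hU, hUP⟩ := hP
    obtain ⟨W, hW, hWU⟩ := exists_min hU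
    have hWP : Sub W (up P q) := fun j x h => hUP j x (hWU j x h)
    have h2 := hF.1 W hW.1
    have h1 : 1 ≤ size W := by
      by_contra hcon
      have h3 : size W = 0 := by omega
      apply hF0
      have h4 : W = fun _ => none := by
        funext v
        by_contra hne
        have h5 : v ∈ univ.filter (fun v => W v ≠ none) := mem_filter.2 ⟨mem_univ _, hne⟩
        have h6 : (univ.filter (fun v => W v ≠ none)).card = 0 := h3
        rw [card_eq_zero] at h6
        rw [h6] at h5
        exact absurd h5 (notMem_empty _)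
      rw [← h4]
      exact hW.1
    rw [mem_biUnion]
    refine ⟨size W, mem_Icc.2 ⟨h1, h2⟩, ?_⟩
    rw [mem_biUnion]
    refine ⟨W, ?_, ?_⟩
    · rw [mem_filter]
      refine ⟨mem_univ _, ⟨fun _ _ => rfl, ?_, ?_⟩, rfl⟩
      · rw [EndCAux.join_none]
        exact hW.1
      · intro A' hA' hne
        rw [EndCAux.join_none]
        exact fun h => hne (hW.2 A' h hA')
    · rw [mem_filter]
      refine ⟨mem_univ _, hinj, fun v hv => ?_⟩
      exact exists_pos hWP (mem_filter.1 hv).2
  have hNr : 0 < N - r := by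
    have : 1 ≤ 32 * B * r := Nat.succ_le_of_lt (by positivity)
    omega
  have hbound : ∀ a ∈ Icc 1 w, (((univ.filter (fun A : PC N 1 =>
        IsExt F (fun _ => none) A ∧ size A = a)).biUnion fun A =>
        univ.filter (fun P : Fin r → Fin N => Function.Injective P ∧
          ∀ v ∈ EndCAux.sp A, ∃ j, P j = v)).card : ℝ) ≤ c * (1 / 32) ^ a := by
    intro a ha
    rw [mem_Icc] at ha
    have h1 : ((univ.filter (fun A : PC N 1 =>
        IsExt F (fun _ => none) A ∧ size A = a)).card : ℝ) ≤ (B : ℝ) ^ a := by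
      have := hcard (fun _ => none) a hF0 (by omega) (by omega)
      exact_mod_cast this
    have h2 : ∀ A ∈ univ.filter (fun A : PC N 1 => IsExt F (fun _ => none) A ∧ size A = a),
        ((univ.filter (fun P : Fin r → Fin N => Function.Injective P ∧
          ∀ v ∈ EndCAux.sp A, ∃ j, P j = v)).card : ℝ) ≤
          c * ((r : ℝ) / ((N - r : ℕ) : ℝ)) ^ a := by
      intro A hA
      rw [mem_filter] at hA
      rw [← hA.2.2]
      exact EndCAux.paths_le hr hNr A
    have h3 : (0 : ℝ) ≤ c * ((r : ℝ) / ((N - r : ℕ) : ℝ)) ^ a := by positivity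
    calc (((univ.filter (fun A : PC N 1 =>
        IsExt F (fun _ => none) A ∧ size A = a)).biUnion fun A =>
        univ.filter (fun P : Fin r → Fin N => Function.Injective P ∧
          ∀ v ∈ EndCAux.sp A, ∃ j, P j = v)).card : ℝ)
        ≤ ∑ A ∈ univ.filter (fun A : PC N 1 => IsExt F (fun _ => none) A ∧ size A = a),
          ((univ.filter (fun P : Fin r → Fin N => Function.Injective P ∧
          ∀ v ∈ EndCAux.sp A, ∃ j, P j = v)).card : ℝ) := by
          exact_mod_cast card_biUnion_le
      _ ≤ ∑ A ∈ univ.filter (fun A : PC N 1 => IsExt F (fun _ => none) A ∧ size A = a),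
          c * ((r : ℝ) / ((N - r : ℕ) : ℝ)) ^ a := sum_le_sum h2
      _ = (univ.filter (fun A : PC N 1 => IsExt F (fun _ => none) A ∧ size A = a)).card *
          (c * ((r : ℝ) / ((N - r : ℕ) : ℝ)) ^ a) := by rw [sum_const, nsmul_eq_mul]
      _ ≤ (B : ℝ) ^ a * (c * ((r : ℝ) / ((N - r : ℕ) : ℝ)) ^ a) :=
          mul_le_mul_of_nonneg_right h1 h3
      _ = c * ((B : ℝ) * r / ((N - r : ℕ) : ℝ)) ^ a := by
          rw [mul_div_assoc, mul_pow]
          ring
      _ ≤ c * (1 / 32) ^ a := by
          refine mul_le_mul_of_nonneg_left ?_ (Nat.cast_nonneg _)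
          exact EndCAux.mu_le hN hNr a
  have hsum : ∑ a ∈ Icc 1 w, ((1 : ℝ) / 32) ^ a ≤ 1 / 16 := by
    have h1 : ∀ w : ℕ, ∑ a ∈ Icc 1 w, ((1 : ℝ) / 32) ^ a ≤ 1 / 31 - (1 / 31) * (1 / 32) ^ w := by
      intro w
      induction w with
      | zero => simp
      | succ w ih =>
        rw [sum_Icc_succ_top (by omega)]
        have h3 : ((1 : ℝ) / 32) ^ (w + 1) = (1 / 32) * (1 / 32) ^ w := by
          rw [pow_succ]
          ring
        rw [h3]
        linarith
    have h2 := h1 w
    have h3 : (0 : ℝ) ≤ (1 / 32) ^ w := by positivity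
    linarith
  have hfin : ((univ.filter (fun P : Fin r → Fin N => Function.Injective P ∧ ∃ q ≤ r,
      ∃ U ∈ F, Sub U (up P q))).card : ℝ) ≤ c * (1 / 16) := by
    calc ((univ.filter (fun P : Fin r → Fin N => Function.Injective P ∧ ∃ q ≤ r,
      ∃ U ∈ F, Sub U (up P q))).card : ℝ)
        ≤ ∑ a ∈ Icc 1 w, (((univ.filter (fun A : PC N 1 =>
        IsExt F (fun _ => none) A ∧ size A = a)).biUnion fun A =>
        univ.filter (fun P : Fin r → Fin N => Function.Injective P ∧
          ∀ v ∈ EndCAux.sp A, ∃ j, P j = v)).card : ℝ) := by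
          exact_mod_cast (card_le_card hcover).trans card_biUnion_le
      _ ≤ ∑ a ∈ Icc 1 w, (c : ℝ) * (1 / 32) ^ a := sum_le_sum hbound
      _ = c * ∑ a ∈ Icc 1 w, (1 / 32) ^ a := by rw [mul_sum]
      _ ≤ c * (1 / 16) := mul_le_mul_of_nonneg_left hsum (by positivity)
  have h5 : 16 * ((univ.filter (fun P : Fin r → Fin N => Function.Injective P ∧ ∃ q ≤ r,
      ∃ U ∈ F, Sub U (up P q))).card : ℝ) ≤ c := by linarith
  exact_mod_cast h5

end MTC
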