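import Pool.Agent.Lib.MTC.Core
import Pool.Agent.Lib.MTB.Model

/-!
# MTC.Embed (MP_e46137_lc, theorem B*): paths in the graphs on `Fin n`

Input bits `A = Sym2 (Fin n)`, `rd t` = the edges containing `M.v t`,
`next t σ x = M.next t σ (fun u v => x s(u, v))`.  `y : Fin (n - 2) → Fin n` injective, avoiding `s`,
`t` (so onto the other vertices).  `ep P q` = the edge joining `y (P (q - 1))` (`s` if `q = 0`) and
`y (P q)` (`t` if `q = r`).  `yes P` = these edges only.  `no χ` = all edges inside the two sides;
`s` is on the true side, `t` on the false side, `y v` on the side `χ v 0`.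
-/

namespace MTC

open Classical Finset MTS MTB

namespace EmbedAux

/-- the abstract machine -/
private def conv {n S : ℕ} (M : Mach n S) : AMach (Sym2 (Fin n)) S where
  init := M.init
  rd := fun t => {e | M.v t ∈ e}
  next := fun t σ x => M.next t σ (fun a b => x s(a, b))
  mono := by
    intro t σ σ' x y hσ hx
    apply M.mono t σ σ' _ _ hσ
    intro u
    exact ⟨hx _ (Sym2.mem_mk_left _ _), hx _ (Sym2.mem_mk_right _ _)⟩

private theorem run_conv {n S : ℕ} (M : Mach n S) (x : Sym2 (Fin n) → Bool) (T : ℕ) :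
    (conv M).run x T = M.run (fun a b => x s(a, b)) T := by
  induction T with
  | zero => rfl
  | succ T ih =>
    show M.next T ((conv M).run x T) _ = M.next T (M.run _ T) _
    rw [ih]

variable {n r N : ℕ}

/-- the vertices of the path -/
private def vtx (y : Fin N → Fin n) (s t : Fin n) (P : Fin r → Fin N) : ℕ → Fin n
  | 0 => s
  | i + 1 => if h : i < r then y (P ⟨i, h⟩) else t

private theorem vtx_succ (y : Fin N → Fin n) (s t : Fin n) (P : Fin r → Fin N) (j : Fin r) :
    vtx y s t P ((j : ℕ) + 1) = y (P j) := by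
  show (if h : (j : ℕ) < r then y (P ⟨j, h⟩) else t) = _
  rw [dif_pos j.2]

private theorem vtx_last (y : Fin N → Fin n) (s t : Fin n) (P : Fin r → Fin N) :
    vtx y s t P (r + 1) = t := by
  show (if h : r < r then y (P ⟨r, h⟩) else t) = _
  rw [dif_neg (lt_irrefl r)]

private theorem vtx_inj {y : Fin N → Fin n} (hy : Function.Injective y) {s t : Fin n}
    (hst : s ≠ t) (hs : ∀ x, y x ≠ s) (ht : ∀ x, y x ≠ t) {P : Fin r → Fin N}
    (hP : Function.Injective P) {i i' : ℕ}
    (hi : i ≤ r + 1) (hi' : i' ≤ r + 1) (h : vtx y s t P i = vtx y s t P i') : i = i' := by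
  cases i with
  | zero =>
    cases i' with
    | zero => rfl
    | succ i' =>
      exfalso
      have h1 : s = (if h : i' < r then y (P ⟨i', h⟩) else t) := h
      by_cases h2 : i' < r
      · rw [dif_pos h2] at h1
        exact hs _ h1.symm
      · rw [dif_neg h2] at h1
        exact hst h1
  | succ i =>
    cases i' with
    | zero =>
      exfalso
      have h1 : (if h : i < r then y (P ⟨i, h⟩) else t) = s := h
      by_cases h2 : i < r
      · rw [dif_pos h2] at h1
        exact hs _ h1
      · rw [dif_neg h2] at h1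
        exact hst h1.symm
    | succ i' =>
      have h1 : (if h : i < r then y (P ⟨i, h⟩) else t) =
        (if h : i' < r then y (P ⟨i', h⟩) else t) := h
      by_cases h2 : i < r
      · rw [dif_pos h2] at h1
        by_cases h3 : i' < r
        · rw [dif_pos h3] at h1
          have h4 := congrArg Fin.val (hP (hy h1))
          simp only at h4
          omega
        · rw [dif_neg h3] at h1
          exact absurd h1 (ht _)
      · rw [dif_neg h2] at h1
        by_cases h3 : i' < r
        · rw [dif_pos h3] at h1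
          exact absurd h1.symm (ht _)
        · omega

/-- colour of a vertex in a total colouring -/
private noncomputable def col (y : Fin N → Fin n) (s t : Fin n) (χ : Col N 1)
    (v : Fin n) : Bool :=
  if v = s then true
  else if v = t then false
  else if h : ∃ x, y x = v then χ h.choose 0
  else true

private theorem col_y {y : Fin N → Fin n} (hy : Function.Injective y) {s t : Fin n}
    (hs : ∀ x, y x ≠ s) (ht : ∀ x, y x ≠ t) (χ : Col N 1) (x : Fin N) :
    col y s t χ (y x) = χ x 0 := by
  unfold col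
  rw [if_neg (hs x), if_neg (ht x)]
  have h2 : ∃ z, y z = y x := ⟨x, rfl⟩
  rw [dif_pos h2]
  have h3 : h2.choose = x := hy h2.choose_spec
  rw [h3]

/-- the colours of the ends of the edge `q'` in `up P q` -/
private noncomputable def two (P : Fin r → Fin N) (q q' : ℕ) : PC N 1 := fun v =>
  if ∃ j : Fin r, P j = v ∧ ((j : ℕ) = q' ∨ (j : ℕ) + 1 = q') then up P q v else none

private theorem two_sub (P : Fin r → Fin N) (q q' : ℕ) : Sub (two P q q') (up P q) := by
  intro v x h
  unfold two at h
  by_cases h1 : ∃ j : Fin r, P j = v ∧ ((j : ℕ) = q' ∨ (j : ℕ) + 1 = q')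
  · rwa [if_pos h1] at h
  · rw [if_neg h1] at h
    exact absurd h (by simp)

private theorem two_size (P : Fin r → Fin N) (q q' : ℕ) : size (two P q q') ≤ 2 := by
  have h1 : (univ.filter fun v => two P q q' v ≠ none) ⊆
      (univ.filter fun j : Fin r => (j : ℕ) = q' ∨ (j : ℕ) + 1 = q').image P := by
    intro v hv
    have h2 := (mem_filter.1 hv).2
    unfold two at h2
    by_cases h3 : ∃ j : Fin r, P j = v ∧ ((j : ℕ) = q' ∨ (j : ℕ) + 1 = q')
    · obtain ⟨j, h4, h5⟩ := h3
      exact mem_image.2 ⟨j, mem_filter.2 ⟨mem_univ _, h5⟩, h4⟩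
    · rw [if_neg h3] at h2
      exact absurd rfl h2
  have h2 : (univ.filter fun j : Fin r => (j : ℕ) = q' ∨ (j : ℕ) + 1 = q').card ≤ 2 := by
    have h3 : ((univ.filter fun j : Fin r => (j : ℕ) = q' ∨ (j : ℕ) + 1 = q').image
        Fin.val) ⊆ {q', q' - 1} := by
      intro x hx
      obtain ⟨j, hj, rfl⟩ := mem_image.1 hx
      have h4 := (mem_filter.1 hj).2
      rw [mem_insert, mem_singleton]
      omega
    have h5 := card_le_card h3
    rw [card_image_of_injective _ Fin.val_injective] at h5
    exact h5.trans card_le_two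
  exact ((card_le_card h1).trans card_image_le).trans h2

private theorem col_vtx {y : Fin N → Fin n} (hy : Function.Injective y) {s t : Fin n}
    (hst : s ≠ t) (hs : ∀ x, y x ≠ s) (ht : ∀ x, y x ≠ t) {P : Fin r → Fin N}
    (hP : Function.Injective P) {i q q' : ℕ} (hi : i ≤ r + 1) (hq : q ≤ r)
    (hiq : i = q' ∨ i = q' + 1) {χ : Col N 1} (hχ : Agree (two P q q') χ) :
    col y s t χ (vtx y s t P i) = decide (i ≤ q) := by
  cases i with
  | zero =>
    have h1 : vtx y s t P 0 = s := rfl
    rw [h1]
    unfold col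
    rw [if_pos rfl]
    exact (decide_eq_true (Nat.zero_le q)).symm
  | succ i =>
    by_cases h : i < r
    · have h1 := vtx_succ y s t P ⟨i, h⟩
      rw [show ((⟨i, h⟩ : Fin r) : ℕ) + 1 = i + 1 from rfl] at h1
      rw [h1, col_y hy hs ht]
      have h2 : two P q q' (P ⟨i, h⟩) = some (0, decide (i < q)) := by
        unfold two
        rw [if_pos ⟨⟨i, h⟩, rfl, show i = q' ∨ i + 1 = q' by omega⟩, up_apply hP q ⟨i, h⟩]
      have h3 := hχ _ _ h2
      rw [h3]
      show decide (i < q) = decide (i + 1 ≤ q)
      rfl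
    · have h1 : i = r := by omega
      subst h1
      rw [vtx_last]
      unfold col
      rw [if_neg hst.symm, if_pos rfl]
      symm
      rw [decide_eq_false_iff_not]
      omega

end EmbedAux

open EmbedAux in
theorem explicit {n S r k w w₁ L V T : ℕ} {s t : Fin n} (hst : s ≠ t)
    (M : Mach n S) (out : Fin S) (hM : DecidesSym M out T (2 ^ (k + 1)) s t)
    (hr : r + 1 = 2 ^ (k + 1)) (hw : w = (k + 3) * w₁) (hw1 : 4 ≤ w₁) (hL : 1 ≤ L)
    (hLN : L ≤ n - 2)
    (hN : 64 * (8 * w * L) * S * 2 ^ k ≤ n - 2 - r)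
    (hθ : T * (S * ((2 * (n - 2) + 1) ^ w * 2 ^ (n - 2 - L))) < 2 ^ (n - 2 - w))
    (hbad : 2 * T * (2 * S + r + 1) ≤ 4 ^ w₁) (hV : T ≤ 2 ^ V) :
    (n - 2 - r) ^ k ≤
      2 * (2 ^ V * V ^ k * (16 * (8 * w * L) * S) ^ k * 2 ^ (k * (k + 1) / 2)) := by
  obtain ⟨y, hy, hs, ht⟩ : ∃ y : Fin (n - 2) → Fin n, Function.Injective y ∧
      (∀ x, y x ≠ s) ∧ ∀ x, y x ≠ t := by
    have h1 : Fintype.card (Fin (n - 2)) ≤ Fintype.card {v : Fin n // v ≠ s ∧ v ≠ t} := by
      rw [Fintype.card_fin, Fintype.card_subtype]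
      have h2 : (univ.filter (fun v : Fin n => v ≠ s ∧ v ≠ t)) = (univ.erase s).erase t := by
        ext v
        simp [and_comm]
      rw [h2, card_erase_of_mem (mem_erase.2 ⟨hst.symm, mem_univ _⟩),
        card_erase_of_mem (mem_univ _), card_univ, Fintype.card_fin]
      omega
    obtain ⟨f⟩ := Function.Embedding.nonempty_of_card_le h1
    exact ⟨fun x => (f x).1, fun x x' h => f.injective (Subtype.ext h), fun x => (f x).2.1,
      fun x => (f x).2.2⟩
  let ep : (Fin r → Fin (n - 2)) → ℕ → Sym2 (Fin n) := fun P q =>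
    s(vtx y s t P q, vtx y s t P (q + 1))
  let yes : (Fin r → Fin (n - 2)) → Sym2 (Fin n) → Bool := fun P e =>
    decide (∃ q ≤ r, e = ep P q)
  let no : Col (n - 2) 1 → Sym2 (Fin n) → Bool := fun χ e =>
    decide (∃ c, ∀ v ∈ e, col y s t χ v = c)
  refine core (k := k) (w := w) (w₁ := w₁) (L := L) (V := V) (T := T) (conv M) out yes no ep
    ?_ ?_ ?_ ?_ ?_ hr hw hw1 hL hLN hN (by simpa using hθ) hbad hV
  · intro P a ha
    exact of_decide_eq_true ha
  · intro P hP q hq q' hq' hne
    refine ⟨two P q q', two_sub P q q', two_size P q q', fun χ hχ => ?_⟩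
    refine decide_eq_true ⟨decide (q' ≤ q), fun v hv => ?_⟩
    rcases Sym2.mem_iff.1 hv with rfl | rfl
    · exact col_vtx hy hst hs ht hP (by omega) hq (Or.inl rfl) hχ
    · rw [col_vtx hy hst hs ht hP (by omega) hq (Or.inr rfl) hχ, decide_eq_decide]
      omega
  · intro τ P hP
    by_cases h : ∃ i ≤ r + 1, vtx y s t P i = M.v τ
    · obtain ⟨i, hi, hv⟩ := h
      refine ⟨i - 1, fun q hq hmem => ?_⟩
      have hmem' : M.v τ ∈ ep P q := hmem
      rcases Sym2.mem_iff.1 hmem' with h1 | h1
      · have h3 := vtx_inj hy hst hs ht hP (i := q) (by omega) hi (h1.symm.trans hv.symm)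
        omega
      · have h3 := vtx_inj hy hst hs ht hP (i := q + 1) (by omega) hi (h1.symm.trans hv.symm)
        omega
    · refine ⟨0, fun q hq hmem => ?_⟩
      exfalso
      apply h
      have hmem' : M.v τ ∈ ep P q := hmem
      rcases Sym2.mem_iff.1 hmem' with h1 | h1
      · exact ⟨q, by omega, h1.symm⟩
      · exact ⟨q + 1, by omega, h1.symm⟩
  · intro P _
    rw [run_conv]
    refine (hM (fun a b => yes P s(a, b)) (fun a b => by rw [Sym2.eq_swap])).1 ?_
    refine ⟨r + 1, hr.le, ?_⟩
    have hwalk : ∀ i ≤ r + 1, HasWalk (fun a b => yes P s(a, b)) i s (vtx y s t P i) := by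
      intro i
      induction i with
      | zero => intro _; rfl
      | succ i ih =>
        intro hi
        exact ⟨vtx y s t P i, ih (by omega), decide_eq_true ⟨i, by omega, rfl⟩⟩
    have h1 := hwalk (r + 1) le_rfl
    rwa [vtx_last] at h1
  · intro χ
    rw [run_conv]
    refine (hM (fun a b => no χ s(a, b)) (fun a b => by rw [Sym2.eq_swap])).2 ?_
    intro hreach
    have hcs : col y s t χ s = true := by
      unfold col
      rw [if_pos rfl]
    have hct : col y s t χ t = false := by
      unfold col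
      rw [if_neg hst.symm, if_pos rfl]
    have hall : ∀ v, Relation.ReflTransGen (fun a b => no χ s(a, b) = true) s v →
        col y s t χ v = true := by
      intro v hv
      induction hv with
      | refl => exact hcs
      | tail _ hab ih =>
        obtain ⟨c, hc⟩ := of_decide_eq_true hab
        rw [hc _ (Sym2.mem_mk_right _ _), ← hc _ (Sym2.mem_mk_left _ _)]
        exact ih
    have h1 := hall t hreach
    rw [hct] at h1
    exact Bool.false_ne_true h1

end MTC
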