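import Pool.Agent.Lib.MTB.Model

/-!
# MTC.SpecP (MP_e46137_lc, theorem B*): probabilistic monotone machines
-/

namespace MTC

open Classical Finset MTB

/-- A probabilistic machine (a finite probability space `Ω`, `p` of monotone machines with `S` bits of
memory) decides with two-sided error `1 / 3`, on undirected graphs: if there is a walk of at most `l`
edges from `s` to `t` then the output bit is `true` after `T` steps with probability at least
`2 / 3`; if `t` is not reachable from `s` then this probability is at most `1 / 3`. -/
def DecidesP {n S : ℕ} {Ω : Type} [Fintype Ω] (p : Ω → ℝ) (M : Ω → Mach n S)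
    (out : Ω → Fin S) (T l : ℕ) (s t : Fin n) : Prop :=
  ∀ G : Fin n → Fin n → Bool, (∀ a b, G a b = G b a) →
    ((∃ l' ≤ l, HasWalk G l' s t) →
      2 / 3 ≤ ∑ ω ∈ univ.filter (fun ω => (M ω).run G T (out ω) = true), p ω) ∧
    (¬ Reach G s t →
      ∑ ω ∈ univ.filter (fun ω => (M ω).run G T (out ω) = true), p ω ≤ 1 / 3)

end MTC
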