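import Pool.Agent.Lib.MTC.CoreP
import Pool.Agent.Lib.MTC.SpecP

/-!
# MTC.EmbedP (MP_e46137_lc, theorem B*): probabilistic machines (compare MTC.Embed)

Input bits `A = Sym2 (Fin n)`, `rd t` = the edges containing `M.v t`,
`next t σ x = M.next t σ (fun u v => x s(u, v))`.  `y : Fin (n - 2) → Fin n` injective, avoiding `s`,
`t` (so onto the other vertices).  `ep P q` = the edge joining `y (P (q - 1))` (`s` if `q = 0`) and
`y (P q)` (`t` if `q = r`).  `yes P` = these edges only.  `no χ` = all edges inside the two sides;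
`s` is on the true side, `t` on the false side, `y v` on the side `χ v 0`.
-/

namespace MTC

open Classical Finset MTS MTB

namespace EmbedPAux

/-- the abstract machine -/
def conv {n S : ℕ} (M : Mach n S) : AMach (Sym2 (Fin n)) S where
  init := M.init
  rd := fun t => {e | M.v t ∈ e}
  next := fun t σ x => M.next t σ (fun a b => x s(a, b))
  mono := by
    intro t σ σ' x y hσ hx
    apply M.mono t σ σ' _ _ hσ
    intro u
    exact ⟨hx _ (Sym2.mem_mk_left _ _), hx _ (Sym2.mem_mk_right _ _)⟩

theorem run_conv {n S : ℕ} (M : Mach n S) (x : Sym2 (Fin n) → Bool) (T : ℕ) :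
    (conv M).run x T = M.run (fun a b => x s(a, b)) T := by
  induction T with
  | zero => rfl
  | succ T ih =>
    show M.next T ((conv M).run x T) _ = M.next T (M.run _ T) _
    rw [ih]

variable {n r N : ℕ}

/-- the vertices of the path -/
def vtx (y : Fin N → Fin n) (s t : Fin n) (P : Fin r → Fin N) : ℕ → Fin n
  | 0 => s
  | i + 1 => if h : i < r then y (P ⟨i, h⟩) else t

theorem vtx_succ (y : Fin N → Fin n) (s t : Fin n) (P : Fin r → Fin N) (j : Fin r) :
    vtx y s t P ((j : ℕ) + 1) = y (P j) := by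
  show (if h : (j : ℕ) < r then y (P ⟨j, h⟩) else t) = _
  rw [dif_pos j.2]

theorem vtx_last (y : Fin N → Fin n) (s t : Fin n) (P : Fin r → Fin N) :
    vtx y s t P (r + 1) = t := by
  show (if h : r < r then y (P ⟨r, h⟩) else t) = _
  rw [dif_neg (lt_irrefl r)]

theorem vtx_inj {y : Fin N → Fin n} (hy : Function.Injective y) {s t : Fin n}
    (hst : s ≠ t) (hs : ∀ x, y x ≠ s) (ht : ∀ x, y x ≠ t) {P : Fin r → Fin N}
    (hP : Function.Injective P) {i i' : ℕ}
    (hi : i ≤ r + 1) (hi' : i' ≤ r + 1) (h : vtx y s t P i = vtx y s t P i') : i = i' := by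
  cases i with
  | zero =>
    cases i' with
    | zero => rfl
    | succ i' =>
      exfalso
      have h1 : s = (if h : i' < r then y (P ⟨i', h⟩) else t) := h
      by_cases h2 : i' < r
      · rw [dif_pos h2] at h1
        exact hs _ h1.symm
      · rw [dif_neg h2] at h1
        exact hst h1
  | succ i =>
    cases i' with
    | zero =>
      exfalso
      have h1 : (if h : i < r then y (P ⟨i, h⟩) else t) = s := h
      by_cases h2 : i < r
      · rw [dif_pos h2] at h1
        exact hs _ h1
      · rw [dif_neg h2] at h1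
        exact hst h1.symm
    | succ i' =>
      have h1 : (if h : i < r then y (P ⟨i, h⟩) else t) =
        (if h : i' < r then y (P ⟨i', h⟩) else t) := h
      by_cases h2 : i < r
      · rw [dif_pos h2] at h1
        by_cases h3 : i' < r
        · rw [dif_pos h3] at h1
          have h4 := congrArg Fin.val (hP (hy h1))
          simp only at h4
          omega
        · rw [dif_neg h3] at h1
          exact absurd h1 (ht _)
      · rw [dif_neg h2] at h1
        by_cases h3 : i' < r
        · rw [dif_pos h3] at h1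
          exact absurd h1.symm (ht _)
        · omega

/-- colour of a vertex in a total colouring -/
noncomputable def col (y : Fin N → Fin n) (s t : Fin n) (χ : Col N 1)
    (v : Fin n) : Bool :=
  if v = s then true
  else if v = t then false
  else if h : ∃ x, y x = v then χ h.choose 0
  else true

theorem col_y {y : Fin N → Fin n} (hy : Function.Injective y) {s t : Fin n}
    (hs : ∀ x, y x ≠ s) (ht : ∀ x, y x ≠ t) (χ : Col N 1) (x : Fin N) :
    col y s t χ (y x) = χ x 0 := by
  unfold col
  rw [if_neg (hs x), if_neg (ht x)]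
  have h2 : ∃ z, y z = y x := ⟨x, rfl⟩
  rw [dif_pos h2]
  have h3 : h2.choose = x := hy h2.choose_spec
  rw [h3]

/-- the colours of the ends of the edge `q'` in `up P q` -/
noncomputable def two (P : Fin r → Fin N) (q q' : ℕ) : PC N 1 := fun v =>
  if ∃ j : Fin r, P j = v ∧ ((j : ℕ) = q' ∨ (j : ℕ) + 1 = q') then up P q v else none

theorem two_sub (P : Fin r → Fin N) (q q' : ℕ) : Sub (two P q q') (up P q) := by
  intro v x h
  unfold two at h
  by_cases h1 : ∃ j : Fin r, P j = v ∧ ((j : ℕ) = q' ∨ (j : ℕ) + 1 = q')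
  · rwa [if_pos h1] at h
  · rw [if_neg h1] at h
    exact absurd h (by simp)

theorem two_size (P : Fin r → Fin N) (q q' : ℕ) : size (two P q q') ≤ 2 := by
  have h1 : (univ.filter fun v => two P q q' v ≠ none) ⊆
      (univ.filter fun j : Fin r => (j : ℕ) = q' ∨ (j : ℕ) + 1 = q').image P := by
    intro v hv
    have h2 := (mem_filter.1 hv).2
    unfold two at h2
    by_cases h3 : ∃ j : Fin r, P j = v ∧ ((j : ℕ) = q' ∨ (j : ℕ) + 1 = q')
    · obtain ⟨j, h4, h5⟩ := h3
      exact mem_image.2 ⟨j, mem_filter.2 ⟨mem_univ _, h5⟩, h4⟩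
    · rw [if_neg h3] at h2
      exact absurd rfl h2
  have h2 : (univ.filter fun j : Fin r => (j : ℕ) = q' ∨ (j : ℕ) + 1 = q').card ≤ 2 := by
    have h3 : ((univ.filter fun j : Fin r => (j : ℕ) = q' ∨ (j : ℕ) + 1 = q').image
        Fin.val) ⊆ {q', q' - 1} := by
      intro x hx
      obtain ⟨j, hj, rfl⟩ := mem_image.1 hx
      have h4 := (mem_filter.1 hj).2
      rw [mem_insert, mem_singleton]
      omega
    have h5 := card_le_card h3
    rw [card_image_of_injective _ Fin.val_injective] at h5
    exact h5.trans card_le_two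
  exact ((card_le_card h1).trans card_image_le).trans h2

theorem col_vtx {y : Fin N → Fin n} (hy : Function.Injective y) {s t : Fin n}
    (hst : s ≠ t) (hs : ∀ x, y x ≠ s) (ht : ∀ x, y x ≠ t) {P : Fin r → Fin N}
    (hP : Function.Injective P) {i q q' : ℕ} (hi : i ≤ r + 1) (hq : q ≤ r)
    (hiq : i = q' ∨ i = q' + 1) {χ : Col N 1} (hχ : Agree (two P q q') χ) :
    col y s t χ (vtx y s t P i) = decide (i ≤ q) := by
  cases i with
  | zero =>
    have h1 : vtx y s t P 0 = s := rfl
    rw [h1]
    unfold col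
    rw [if_pos rfl]
    exact (decide_eq_true (Nat.zero_le q)).symm
  | succ i =>
    by_cases h : i < r
    · have h1 := vtx_succ y s t P ⟨i, h⟩
      rw [show ((⟨i, h⟩ : Fin r) : ℕ) + 1 = i + 1 from rfl] at h1
      rw [h1, col_y hy hs ht]
      have h2 : two P q q' (P ⟨i, h⟩) = some (0, decide (i < q)) := by
        unfold two
        rw [if_pos ⟨⟨i, h⟩, rfl, show i = q' ∨ i + 1 = q' by omega⟩, up_apply hP q ⟨i, h⟩]
      have h3 := hχ _ _ h2
      rw [h3]
      show decide (i < q) = decide (i + 1 ≤ q)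
      rfl
    · have h1 : i = r := by omega
      subst h1
      rw [vtx_last]
      unfold col
      rw [if_neg hst.symm, if_pos rfl]
      symm
      rw [decide_eq_false_iff_not]
      omega

end EmbedPAux

open EmbedPAux in
/-- The average over the probability space of the machines. -/
theorem exists_adv {Ω α β : Type} [Fintype Ω] [Fintype α] [Fintype β] (p : Ω → ℝ)
    (hp0 : ∀ ω, 0 ≤ p ω) (hp1 : ∑ ω, p ω = 1) (I : Finset α) (a : Ω → α → Prop)
    (b : Ω → β → Prop)
    (ha : ∀ P ∈ I, 2 / 3 ≤ ∑ ω ∈ univ.filter (fun ω => a ω P), p ω)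
    (hb : ∀ χ, ∑ ω ∈ univ.filter (fun ω => b ω χ), p ω ≤ 1 / 3) :
    ∃ ω, I.card * Fintype.card β + 3 * (univ.filter (fun χ => b ω χ)).card * I.card ≤
      3 * (I.filter (fun P => a ω P)).card * Fintype.card β := by
  by_contra hcon
  push Not at hcon
  have h1 : ∑ ω, p ω * ((I.filter (fun P => a ω P)).card : ℝ) =
      ∑ P ∈ I, ∑ ω ∈ univ.filter (fun ω => a ω P), p ω := by
    simp_rw [Finset.sum_filter]
    rw [Finset.sum_comm]
    apply Finset.sum_congr rfl
    intro ω _
    rw [Finset.card_filter, Nat.cast_sum, Finset.mul_sum]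
    apply Finset.sum_congr rfl
    intro P _
    split_ifs <;> simp
  have h2 : ∑ ω, p ω * ((univ.filter (fun χ => b ω χ)).card : ℝ) =
      ∑ χ, ∑ ω ∈ univ.filter (fun ω => b ω χ), p ω := by
    simp_rw [Finset.sum_filter]
    rw [Finset.sum_comm]
    apply Finset.sum_congr rfl
    intro ω _
    rw [Finset.card_filter, Nat.cast_sum, Finset.mul_sum]
    apply Finset.sum_congr rfl
    intro P _
    split_ifs <;> simp
  have h3 : (2 / 3 : ℝ) * I.card ≤ ∑ ω, p ω * ((I.filter (fun P => a ω P)).card : ℝ) := by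
    rw [h1]
    calc (2 / 3 : ℝ) * I.card = ∑ _P ∈ I, (2 / 3 : ℝ) := by
          rw [Finset.sum_const, nsmul_eq_mul, mul_comm]
      _ ≤ _ := Finset.sum_le_sum ha
  have h4 : ∑ ω, p ω * ((univ.filter (fun χ => b ω χ)).card : ℝ) ≤
      (1 / 3 : ℝ) * Fintype.card β := by
    rw [h2]
    calc _ ≤ ∑ _χ : β, (1 / 3 : ℝ) := Finset.sum_le_sum (fun χ _ => hb χ)
      _ = _ := by rw [Finset.sum_const, Finset.card_univ, nsmul_eq_mul, mul_comm]
  have h5 : ∀ ω, 3 * ((I.filter (fun P => a ω P)).card : ℝ) * Fintype.card β <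
      I.card * Fintype.card β + 3 * ((univ.filter (fun χ => b ω χ)).card : ℝ) * I.card := by
    intro ω
    exact_mod_cast hcon ω
  have h6 : ∑ ω, p ω * (3 * ((I.filter (fun P => a ω P)).card : ℝ) * Fintype.card β) <
      ∑ ω, p ω * (I.card * Fintype.card β +
        3 * ((univ.filter (fun χ => b ω χ)).card : ℝ) * I.card) := by
    obtain ⟨ω₀, hω₀⟩ : ∃ ω, 0 < p ω := by
      by_contra hno
      push Not at hno
      have : ∑ ω, p ω ≤ 0 := Finset.sum_nonpos (fun ω _ => hno ω)
      rw [hp1] at this
      linarith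
    apply Finset.sum_lt_sum
    · intro ω _
      exact mul_le_mul_of_nonneg_left (h5 ω).le (hp0 ω)
    · exact ⟨ω₀, Finset.mem_univ _, mul_lt_mul_of_pos_left (h5 ω₀) hω₀⟩
  have e1 : ∑ ω, p ω * (3 * ((I.filter (fun P => a ω P)).card : ℝ) * Fintype.card β) =
      3 * Fintype.card β * ∑ ω, p ω * ((I.filter (fun P => a ω P)).card : ℝ) := by
    rw [Finset.mul_sum]
    exact Finset.sum_congr rfl (fun ω _ => by ring)
  have e2 : ∑ ω, p ω * (I.card * Fintype.card β +
        3 * ((univ.filter (fun χ => b ω χ)).card : ℝ) * I.card) =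
      I.card * Fintype.card β + 3 * I.card *
        ∑ ω, p ω * ((univ.filter (fun χ => b ω χ)).card : ℝ) := by
    rw [Finset.mul_sum]
    calc _ = ∑ ω, (p ω * (I.card * Fintype.card β) +
        3 * I.card * (p ω * ((univ.filter (fun χ => b ω χ)).card : ℝ))) :=
          Finset.sum_congr rfl (fun ω _ => by ring)
      _ = _ := by
          rw [Finset.sum_add_distrib, ← Finset.sum_mul, hp1, one_mul]
  rw [e1, e2] at h6
  have hβ : (0 : ℝ) ≤ Fintype.card β := by positivity
  have hI : (0 : ℝ) ≤ I.card := by positivity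
  have h7 := mul_le_mul_of_nonneg_left h3 (by positivity : (0 : ℝ) ≤ 3 * Fintype.card β)
  have h8 := mul_le_mul_of_nonneg_left h4 (by positivity : (0 : ℝ) ≤ 3 * (I.card : ℝ))
  nlinarith

open EmbedPAux in
theorem explicitP {n S r k w w₁ L V T : ℕ} {s t : Fin n} (hst : s ≠ t) {Ω : Type} [Fintype Ω]
    (p : Ω → ℝ) (hp0 : ∀ ω, 0 ≤ p ω) (hp1 : ∑ ω, p ω = 1)
    (M : Ω → Mach n S) (out : Ω → Fin S) (hM : DecidesP p M out T (2 ^ (k + 1)) s t)
    (hr : r + 1 = 2 ^ (k + 1)) (hw : w = (k + 3) * w₁) (hw1 : 4 ≤ w₁) (hL : 1 ≤ L)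
    (hLN : L ≤ n - 2)
    (hN : 64 * (8 * w * L) * S * 2 ^ k ≤ n - 2 - r)
    (hθ : T * (S * ((2 * (n - 2) + 1) ^ w * 2 ^ (n - 2 - L))) < 2 ^ (n - 2 - w))
    (hwN : w ≤ n - 2)
    (hbad : 16 * T * (2 * S + r + 1) ≤ 4 ^ w₁) (hV : T ≤ 2 ^ V) :
    (n - 2 - r) ^ k ≤
      5 * (2 ^ V * V ^ k * (16 * (8 * w * L) * S) ^ k * 2 ^ (k * (k + 1) / 2)) := by
  obtain ⟨y, hy, hs, ht⟩ : ∃ y : Fin (n - 2) → Fin n, Function.Injective y ∧
      (∀ x, y x ≠ s) ∧ ∀ x, y x ≠ t := by
    have h1 : Fintype.card (Fin (n - 2)) ≤ Fintype.card {v : Fin n // v ≠ s ∧ v ≠ t} := by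
      rw [Fintype.card_fin, Fintype.card_subtype]
      have h2 : (univ.filter (fun v : Fin n => v ≠ s ∧ v ≠ t)) = (univ.erase s).erase t := by
        ext v
        simp [and_comm]
      rw [h2, card_erase_of_mem (mem_erase.2 ⟨hst.symm, mem_univ _⟩),
        card_erase_of_mem (mem_univ _), card_univ, Fintype.card_fin]
      omega
    obtain ⟨f⟩ := Function.Embedding.nonempty_of_card_le h1
    exact ⟨fun x => (f x).1, fun x x' h => f.injective (Subtype.ext h), fun x => (f x).2.1,
      fun x => (f x).2.2⟩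
  let ep : (Fin r → Fin (n - 2)) → ℕ → Sym2 (Fin n) := fun P q =>
    s(vtx y s t P q, vtx y s t P (q + 1))
  let yes : (Fin r → Fin (n - 2)) → Sym2 (Fin n) → Bool := fun P e =>
    decide (∃ q ≤ r, e = ep P q)
  let no : Col (n - 2) 1 → Sym2 (Fin n) → Bool := fun χ e =>
    decide (∃ c, ∀ v ∈ e, col y s t χ v = c)
  -- acceptance probabilities
  have hYes : ∀ P ∈ univ.filter (fun P : Fin r → Fin (n - 2) => Function.Injective P),
      2 / 3 ≤ ∑ ω ∈ univ.filter (fun ω => (conv (M ω)).run (yes P) T (out ω) = true), p ω := by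
    intro P _
    have hG := (hM (fun a b => yes P s(a, b)) (fun a b => by rw [Sym2.eq_swap])).1 ?_
    · simpa only [run_conv] using hG
    refine ⟨r + 1, hr.le, ?_⟩
    have hwalk : ∀ i ≤ r + 1, HasWalk (fun a b => yes P s(a, b)) i s (vtx y s t P i) := by
      intro i
      induction i with
      | zero => intro _; rfl
      | succ i ih =>
        intro hi
        exact ⟨vtx y s t P i, ih (by omega), decide_eq_true ⟨i, by omega, rfl⟩⟩
    have h1 := hwalk (r + 1) le_rfl
    rwa [vtx_last] at h1
  have hNo : ∀ χ : Col (n - 2) 1,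
      ∑ ω ∈ univ.filter (fun ω => (conv (M ω)).run (no χ) T (out ω) = true), p ω ≤ 1 / 3 := by
    intro χ
    have hG := (hM (fun a b => no χ s(a, b)) (fun a b => by rw [Sym2.eq_swap])).2 ?_
    · simpa only [run_conv] using hG
    intro hreach
    have hcs : col y s t χ s = true := by
      unfold col
      rw [if_pos rfl]
    have hct : col y s t χ t = false := by
      unfold col
      rw [if_neg hst.symm, if_pos rfl]
    have hall : ∀ v, Relation.ReflTransGen (fun a b => no χ s(a, b) = true) s v →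
        col y s t χ v = true := by
      intro v hv
      induction hv with
      | refl => exact hcs
      | tail _ hab ih =>
        obtain ⟨c, hc⟩ := of_decide_eq_true hab
        rw [hc _ (Sym2.mem_mk_right _ _), ← hc _ (Sym2.mem_mk_left _ _)]
        exact ih
    have h1 := hall t hreach
    rw [hct] at h1
    exact Bool.false_ne_true h1
  obtain ⟨ω, hω⟩ := exists_adv p hp0 hp1
    (univ.filter (fun P : Fin r → Fin (n - 2) => Function.Injective P))
    (fun ω P => (conv (M ω)).run (yes P) T (out ω) = true)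
    (fun ω (χ : Col (n - 2) 1) => (conv (M ω)).run (no χ) T (out ω) = true)
    (fun P hP => by convert hYes P hP) (fun χ => by convert hNo χ)
  have hcardN : Fintype.card (Col (n - 2) 1) = 2 ^ (n - 2) := by
    simp [Col, Fintype.card_bool]
  rw [hcardN, Finset.filter_filter] at hω
  have htot : 0 < (univ.filter (fun P : Fin r → Fin (n - 2) => Function.Injective P)).card := by
    have hrN : r < n - 2 := by
      have hS : 1 ≤ S := by
        have := (out ω).isLt
        omega
      have h1 : 1 ≤ 64 * (8 * w * L) * S * 2 ^ k := by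
        have hw3 : 1 ≤ w := by
          rw [hw]
          exact Nat.mul_pos (by omega) (by omega)
        exact Nat.mul_pos (Nat.mul_pos (Nat.mul_pos (by norm_num)
          (Nat.mul_pos (Nat.mul_pos (by norm_num) hw3) hL)) hS) (by positivity)
      omega
    rw [card_pos]
    refine ⟨fun j => ⟨j, by have := j.isLt; omega⟩, ?_⟩
    rw [mem_filter]
    refine ⟨mem_univ _, ?_⟩
    intro i j hij
    have h1 := congrArg Fin.val hij
    exact Fin.ext h1
  have hT1 : 1 ≤ T := by
    by_contra h0
    have hT0 : T = 0 := by omega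
    subst hT0
    have hrun : ∀ x, (conv (M ω)).run x 0 (out ω) = (M ω).init (out ω) := fun x => rfl
    simp only [hrun] at hω
    have h2N : 0 < 2 ^ (n - 2) := by positivity
    by_cases hi : (M ω).init (out ω) = true
    · simp only [hi, and_true, Finset.filter_true, Finset.card_univ, hcardN] at hω
      nlinarith [Nat.mul_pos htot h2N]
    · have hf : (univ.filter (fun P : Fin r → Fin (n - 2) =>
          Function.Injective P ∧ (M ω).init (out ω) = true)) = ∅ := by
        rw [Finset.filter_eq_empty_iff]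
        rintro P - ⟨-, h⟩
        exact hi h
      have h1 := Nat.mul_pos htot h2N
      have h2 : (univ.filter (fun P : Fin r → Fin (n - 2) => Function.Injective P)).card *
          2 ^ (n - 2) ≤ 0 := by
        refine le_trans (Nat.le_add_right _ _) (hω.trans ?_)
        rw [show (3 * (univ.filter (fun P : Fin r → Fin (n - 2) =>
          Function.Injective P ∧ (M ω).init (out ω) = true)).card * 2 ^ (n - 2)) = 0 by
            rw [hf]; simp]
      omega
  refine coreP (k := k) (w := w) (w₁ := w₁) (L := L) (V := V) (T := T) (conv (M ω)) (out ω)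
    yes no ep ?_ ?_ ?_ (by convert hω) hr hw hw1 hL hLN hN (by simpa using hθ) hwN hbad hV hT1
  · intro P a ha
    exact of_decide_eq_true ha
  · intro P hP q hq q' hq' hne
    refine ⟨two P q q', two_sub P q q', two_size P q q', fun χ hχ => ?_⟩
    refine decide_eq_true ⟨decide (q' ≤ q), fun v hv => ?_⟩
    rcases Sym2.mem_iff.1 hv with rfl | rfl
    · exact col_vtx hy hst hs ht hP (by omega) hq (Or.inl rfl) hχ
    · rw [col_vtx hy hst hs ht hP (by omega) hq (Or.inr rfl) hχ, decide_eq_decide]
      omega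
  · intro τ P hP
    by_cases h : ∃ i ≤ r + 1, vtx y s t P i = (M ω).v τ
    · obtain ⟨i, hi, hv⟩ := h
      refine ⟨i - 1, fun q hq hmem => ?_⟩
      have hmem' : (M ω).v τ ∈ ep P q := hmem
      rcases Sym2.mem_iff.1 hmem' with h1 | h1
      · have h3 := vtx_inj hy hst hs ht hP (i := q) (by omega) hi (h1.symm.trans hv.symm)
        omega
      · have h3 := vtx_inj hy hst hs ht hP (i := q + 1) (by omega) hi (h1.symm.trans hv.symm)
        omega
    · refine ⟨0, fun q hq hmem => ?_⟩
      exfalso
      apply h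
      have hmem' : (M ω).v τ ∈ ep P q := hmem
      rcases Sym2.mem_iff.1 hmem' with h1 | h1
      · exact ⟨q, by omega, h1.symm⟩
      · exact ⟨q + 1, by omega, h1.symm⟩

end MTC
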