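import Pool.Agent.Lib.MTC.CoreA
import Pool.Agent.Lib.MTC.EmbedP
import Pool.Agent.Lib.MTS.Spec

/-!
# MTC.EmbedA (MP_e46137_lc, theorem B*): random paths and random cuts in `Fin n`
-/

namespace MTC

open Classical Finset MTS

namespace EmbedAAux

open EmbedPAux

variable {n r : ℕ}

theorem exists_y {s t : Fin n} (hst : s ≠ t) : ∃ y : Fin (n - 2) → Fin n, Function.Injective y ∧
      (∀ x, y x ≠ s) ∧ (∀ x, y x ≠ t) ∧ ∀ v, v ≠ s → v ≠ t → ∃ x, y x = v := by
  have h1 : Fintype.card (Fin (n - 2)) = Fintype.card {v : Fin n // v ≠ s ∧ v ≠ t} := by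
    rw [Fintype.card_fin, Fintype.card_subtype]
    have h2 : (univ.filter (fun v : Fin n => v ≠ s ∧ v ≠ t)) = (univ.erase s).erase t := by
      ext v
      simp [and_comm]
    rw [h2, card_erase_of_mem (mem_erase.2 ⟨hst.symm, mem_univ _⟩),
      card_erase_of_mem (mem_univ _), card_univ, Fintype.card_fin]
    omega
  have f := Fintype.equivOfCardEq h1
  exact ⟨fun x => (f x).1, fun x x' h => f.injective (Subtype.ext h), fun x => (f x).2.1,
    fun x => (f x).2.2, fun v hs ht => ⟨f.symm ⟨v, hs, ht⟩, by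
      show ((f (f.symm ⟨v, hs, ht⟩)).1) = v
      rw [Equiv.apply_symm_apply]⟩⟩

/-- the paths -/
theorem card_paths {y : Fin (n - 2) → Fin n} (hy : Function.Injective y) {s t : Fin n}
    (hs : ∀ x, y x ≠ s) (ht : ∀ x, y x ≠ t) (hsur : ∀ v, v ≠ s → v ≠ t → ∃ x, y x = v)
    (p : (Fin r → Fin n) → Prop) :
    ((seqs n r s t).filter p).card =
      (univ.filter (fun P : Fin r → Fin (n - 2) =>
        Function.Injective P ∧ p (fun j => y (P j)))).card := by
  symm
  refine Finset.card_bij (fun P _ => fun j => y (P j)) ?_ ?_ ?_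
  · intro P hP
    rw [mem_filter] at hP ⊢
    unfold seqs
    rw [mem_filter]
    exact ⟨⟨mem_univ _, fun i j h => hP.2.1 (hy h), fun i => ⟨hs _, ht _⟩⟩, hP.2.2⟩
  · intro P _ P' _ h
    funext j
    exact hy (congrFun h j)
  · intro Q hQ
    rw [mem_filter] at hQ
    unfold seqs at hQ
    rw [mem_filter] at hQ
    obtain ⟨⟨-, hinj, hav⟩, hp⟩ := hQ
    choose x hx using fun j => hsur (Q j) (hav j).1 (hav j).2
    have e : (fun j => y (x j)) = Q := funext hx
    refine ⟨x, ?_, e⟩
    rw [mem_filter]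
    refine ⟨mem_univ _, ?_, ?_⟩
    · intro i j h
      apply hinj
      rw [← hx i, ← hx j, h]
    · rw [e]
      exact hp

/-- the side of `s` -/
noncomputable def cutOf (y : Fin (n - 2) → Fin n) (s t : Fin n) (χ : Col (n - 2) 1) :
    Finset (Fin n) := univ.filter (fun v => col y s t χ v = true)

/-- the cuts -/
theorem card_cuts {y : Fin (n - 2) → Fin n} (hy : Function.Injective y) {s t : Fin n}
    (hst : s ≠ t) (hs : ∀ x, y x ≠ s) (ht : ∀ x, y x ≠ t)
    (hsur : ∀ v, v ≠ s → v ≠ t → ∃ x, y x = v) (p : Finset (Fin n) → Prop) :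
    ((cuts n s t).filter p).card =
      (univ.filter (fun χ : Col (n - 2) 1 => p (cutOf y s t χ))).card := by
  symm
  have hcs : ∀ χ, col y s t χ s = true := fun χ => by
    unfold col
    rw [if_pos rfl]
  have hct : ∀ χ, col y s t χ t = false := fun χ => by
    unfold col
    rw [if_neg hst.symm, if_pos rfl]
  refine Finset.card_bij (fun χ _ => cutOf y s t χ) ?_ ?_ ?_
  · intro χ hχ
    rw [mem_filter] at hχ ⊢
    unfold cuts
    rw [mem_filter]
    refine ⟨⟨mem_univ _, ?_, ?_⟩, hχ.2⟩
    · unfold cutOf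
      rw [mem_filter]
      exact ⟨mem_univ _, hcs χ⟩
    · unfold cutOf
      rw [mem_filter, hct χ]
      rintro ⟨-, h⟩
      exact Bool.false_ne_true h
  · intro χ _ χ' _ h
    funext x i
    have hi : i = 0 := Subsingleton.elim _ _
    subst hi
    have h1 : y x ∈ cutOf y s t χ ↔ y x ∈ cutOf y s t χ' := by rw [h]
    unfold cutOf at h1
    rw [mem_filter, mem_filter, col_y hy hs ht, col_y hy hs ht] at h1
    rw [Bool.eq_iff_iff]
    exact ⟨fun h2 => (h1.1 ⟨mem_univ _, h2⟩).2, fun h2 => (h1.2 ⟨mem_univ _, h2⟩).2⟩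
  · intro C hC
    rw [mem_filter] at hC
    unfold cuts at hC
    rw [mem_filter] at hC
    obtain ⟨⟨-, hsC, htC⟩, hp⟩ := hC
    have e : cutOf y s t (fun x _ => decide (y x ∈ C)) = C := by
      ext v
      unfold cutOf
      rw [mem_filter]
      by_cases h1 : v = s
      · subst h1
        exact ⟨fun _ => hsC, fun _ => ⟨mem_univ _, hcs _⟩⟩
      · by_cases h2 : v = t
        · subst h2
          rw [hct]
          exact ⟨fun h => absurd h.2 Bool.false_ne_true, fun h => absurd h htC⟩
        · obtain ⟨x, rfl⟩ := hsur v h1 h2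
          rw [col_y hy hs ht]
          simp
    refine ⟨fun x _ => decide (y x ∈ C), ?_, e⟩
    rw [mem_filter]
    exact ⟨mem_univ _, by rw [e]; exact hp⟩

theorem vtx_eq (y : Fin (n - 2) → Fin n) (s t : Fin n) (P : Fin r → Fin (n - 2)) (i : ℕ) :
    vtx y s t P i = walkVertex s t (fun j => y (P j)) i := by
  cases i with
  | zero => rfl
  | succ i => rfl

theorem path_eq (y : Fin (n - 2) → Fin n) (s t : Fin n) (P : Fin r → Fin (n - 2)) :
    (fun a b => decide (∃ q ≤ r, s(a, b) = s(vtx y s t P q, vtx y s t P (q + 1)))) =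
      pathGraph s t (fun j => y (P j)) := by
  funext a b
  unfold pathGraph
  rw [decide_eq_decide]
  refine exists_congr fun q => and_congr_right fun _ => ?_
  rw [vtx_eq, vtx_eq, Sym2.eq_iff]
  constructor
  · rintro (h | h)
    · exact Or.inl h
    · exact Or.inr ⟨h.2, h.1⟩
  · rintro (h | h)
    · exact Or.inl h
    · exact Or.inr ⟨h.2, h.1⟩

theorem cut_eq (y : Fin (n - 2) → Fin n) (s t : Fin n) (χ : Col (n - 2) 1) :
    (fun a b => decide (∃ c, ∀ v ∈ s(a, b), col y s t χ v = c)) = cutGraph (cutOf y s t χ) := by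
  funext a b
  unfold cutGraph
  rw [decide_eq_decide]
  have h0 : ∀ v, v ∈ cutOf y s t χ ↔ col y s t χ v = true := fun v => by
    unfold cutOf
    rw [mem_filter]
    exact ⟨fun h => h.2, fun h => ⟨mem_univ _, h⟩⟩
  rw [h0, h0, ← Bool.eq_iff_iff]
  constructor
  · rintro ⟨c, hc⟩
    rw [hc a (Sym2.mem_mk_left _ _), hc b (Sym2.mem_mk_right _ _)]
  · intro h
    refine ⟨col y s t χ a, fun v hv => ?_⟩
    rcases Sym2.mem_iff.1 hv with rfl | rfl
    · rfl
    · exact h.symm

end EmbedAAux

open EmbedPAux EmbedAAux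

theorem explicitA {n S r k w w₁ L V T : ℕ} {s t : Fin n} (hst : s ≠ t)
    (M : MTB.Mach n S) (out : Fin S)
    (hr : 2 ^ (k + 1) ≤ r + 1) (hw : w = (k + 3) * w₁) (hw1 : 4 ≤ w₁) (hL : 1 ≤ L)
    (hLN : L ≤ n - 2) (hN : 64 * (8 * w * L) * S * 2 ^ k ≤ n - 2 - r)
    (hNr : 32 * (8 * w * L) * S * r ≤ n - 2 - r) (hwL : w < L) (hV : T ≤ 2 ^ V) :
    (((seqs n r s t).filter (fun P => M.run (pathGraph s t P) T out = true)).card : ℝ) /
        (seqs n r s t).card -
      (((cuts n s t).filter (fun C => M.run (cutGraph C) T out = true)).card : ℝ) /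
        (cuts n s t).card ≤
      2 ^ V * V ^ k * (16 * (8 * w * L) * S) ^ k * 2 ^ (k * (k + 1) / 2) /
        ((n - 2 - r : ℕ) : ℝ) ^ k +
      T * (2 * S + r + 1) / 4 ^ w₁ +
      T * (S * ((2 * ((n - 2 : ℕ) * 1) + 1) ^ w * 2 ^ (n - 2 - L))) / 2 ^ (n - 2) := by
  obtain ⟨y, hy, hs, ht, hsur⟩ := exists_y hst
  let ep : (Fin r → Fin (n - 2)) → ℕ → Sym2 (Fin n) := fun P q =>
    s(vtx y s t P q, vtx y s t P (q + 1))
  let yes : (Fin r → Fin (n - 2)) → Sym2 (Fin n) → Bool := fun P e =>
    decide (∃ q ≤ r, e = ep P q)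
  let no : Col (n - 2) 1 → Sym2 (Fin n) → Bool := fun χ e =>
    decide (∃ c, ∀ v ∈ e, col y s t χ v = c)
  have hc := coreA (k := k) (w := w) (w₁ := w₁) (L := L) (V := V) (T := T) (conv M) out
    yes no ep (fun P a ha => of_decide_eq_true ha) (by
      intro P hP q hq q' hq' hne
      refine ⟨two P q q', two_sub P q q', two_size P q q', fun χ hχ => ?_⟩
      refine decide_eq_true ⟨decide (q' ≤ q), fun v hv => ?_⟩
      rcases Sym2.mem_iff.1 hv with rfl | rfl
      · exact col_vtx hy hst hs ht hP (by omega) hq (Or.inl rfl) hχ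
      · rw [col_vtx hy hst hs ht hP (by omega) hq (Or.inr rfl) hχ, decide_eq_decide]
        omega) (by
      intro τ P hP
      by_cases h : ∃ i ≤ r + 1, vtx y s t P i = M.v τ
      · obtain ⟨i, hi, hv⟩ := h
        refine ⟨i - 1, fun q hq hmem => ?_⟩
        have hmem' : M.v τ ∈ ep P q := hmem
        rcases Sym2.mem_iff.1 hmem' with h1 | h1
        · have h3 := vtx_inj hy hst hs ht hP (i := q) (by omega) hi (h1.symm.trans hv.symm)
          omega
        · have h3 := vtx_inj hy hst hs ht hP (i := q + 1) (by omega) hi (h1.symm.trans hv.symm)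
          omega
      · refine ⟨0, fun q hq hmem => ?_⟩
        exfalso
        apply h
        have hmem' : M.v τ ∈ ep P q := hmem
        rcases Sym2.mem_iff.1 hmem' with h1 | h1
        · exact ⟨q, by omega, h1.symm⟩
        · exact ⟨q + 1, by omega, h1.symm⟩) hr hw hw1 hL hLN hN hNr hwL hV
  have hyes : ∀ P : Fin r → Fin (n - 2), (conv M).run (yes P) T =
      M.run (pathGraph s t (fun j => y (P j))) T := by
    intro P
    rw [run_conv, ← path_eq]
  have hno : ∀ χ : Col (n - 2) 1, (conv M).run (no χ) T = M.run (cutGraph (cutOf y s t χ)) T := by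
    intro χ
    rw [run_conv, ← cut_eq]
  have e1 : ((seqs n r s t).filter (fun P => M.run (pathGraph s t P) T out = true)).card =
      (univ.filter (fun P : Fin r → Fin (n - 2) => Function.Injective P ∧
        (conv M).run (yes P) T out = true)).card := by
    have h := card_paths (r := r) hy hs ht hsur
      (fun P => M.run (pathGraph s t P) T out = true)
    refine Eq.trans (congrArg card (Finset.ext fun P => ?_))
      (h.trans (congrArg card (Finset.ext fun P => ?_)))
    · simp only [mem_filter]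
    · simp only [mem_filter, hyes P]
  have e2 : (seqs n r s t).card =
      (univ.filter (fun P : Fin r → Fin (n - 2) => Function.Injective P)).card := by
    have h := card_paths (r := r) hy hs ht hsur (fun _ => True)
    refine Eq.trans (congrArg card (Finset.ext fun P => ?_))
      (h.trans (congrArg card (Finset.ext fun P => ?_)))
    · simp only [mem_filter, and_true]
    · simp only [mem_filter, and_true]
  have e3 : ((cuts n s t).filter (fun C => M.run (cutGraph C) T out = true)).card =
      (univ.filter (fun χ : Col (n - 2) 1 => (conv M).run (no χ) T out = true)).card := by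
    have h := card_cuts hy hst hs ht hsur (fun C => M.run (cutGraph C) T out = true)
    refine Eq.trans (congrArg card (Finset.ext fun P => ?_))
      (h.trans (congrArg card (Finset.ext fun χ => ?_)))
    · simp only [mem_filter]
    · simp only [mem_filter, hno χ]
  have e4 : (cuts n s t).card = 2 ^ (n - 2) := by
    have h := card_cuts hy hst hs ht hsur (fun _ => True)
    have h2 : (univ : Finset (Col (n - 2) 1)).card = 2 ^ (n - 2) := by
      rw [card_univ]
      simp [Col, Fintype.card_bool]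
    rw [← h2]
    refine Eq.trans (congrArg card (Finset.ext fun P => ?_))
      (h.trans (congrArg card (Finset.ext fun χ => ?_)))
    · simp only [mem_filter, and_true]
    · simp only [mem_filter, and_true]
  rw [e1, e2, e3, e4]
  push_cast at hc ⊢
  linarith

end MTC
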