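import Pool.Agent.Lib.MTC.Lower
import Pool.Agent.Lib.MTX.PhiL
import Pool.Agent.Lib.MTX.Upper

/-!
# MTC.Final (MP_e46137_lc, theorem B*): sharp time-space tradeoff for monotone computation of
reachability
-/

namespace MTC

open MTB MTX

/-- Lower bound for probabilistic monotone machines, on undirected graphs; upper bound by monotone
straight line programs, for all digraphs. -/
theorem final : ∃ c : ℝ, 0 < c ∧ ∀ (n S d : ℕ) (s t : Fin n), 4 ≤ n → 1 ≤ S → S ≤ n → 2 ≤ d →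
    d ≤ n → s ≠ t →
    (∀ (T : ℕ) (Ω : Type) [Fintype Ω] (p : Ω → ℝ), (∀ ω, 0 ≤ p ω) → ∑ ω, p ω = 1 →
      ∀ (M : Ω → Mach n S) (out : Ω → Fin S), MTC.DecidesP p M out T d s t →
      phi n S d - c * err n S d ≤ Real.logb 2 T) ∧
    (c * Real.logb 2 n ≤ S → ∃ S' ≤ S, ∃ (M : Mach n S') (out : Fin S') (T : ℕ),
      1 ≤ T ∧ M.Simple ∧ Decides M out T d s t ∧ Real.logb 2 T ≤ phi n S d + c * err n S d) := by
  obtain ⟨c₁, hc₁, hL⟩ := MTC.lower
  obtain ⟨c₂, hc₂, hU⟩ := MTX.upper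
  refine ⟨max c₁ c₂, lt_max_of_lt_left hc₁, ?_⟩
  intro n S d s t hn hS hSn hd hdn hst
  have he : 0 ≤ err n S d := err_nonneg hn hS hSn (by omega)
  refine ⟨?_, ?_⟩
  · intro T Ω _ p hp0 hp1 M out hM
    refine le_trans ?_ (hL n S d T s t hn hS hSn hd hdn hst Ω p hp0 hp1 M out hM)
    have h1 : c₁ * err n S d ≤ max c₁ c₂ * err n S d :=
      mul_le_mul_of_nonneg_right (le_max_left _ _) he
    linarith
  · intro hS2
    have hlog : 0 ≤ Real.logb 2 (n : ℝ) :=
      Real.logb_nonneg (by norm_num) (by exact_mod_cast (by omega : 1 ≤ n))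
    obtain ⟨S', hS', M, out, T, hT, hM1, hM2, hM3⟩ := hU n S d s t hn hSn hd hdn
      ((mul_le_mul_of_nonneg_right (le_max_right c₁ c₂) hlog).trans hS2)
    refine ⟨S', hS', M, out, T, hT, hM1, hM2, hM3.trans ?_⟩
    have h1 : c₂ * err n S d ≤ max c₁ c₂ * err n S d :=
      mul_le_mul_of_nonneg_right (le_max_right _ _) he
    linarith

end MTC
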