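import Pool.Agent.Lib.MTC.Avg

/-!
# MTC.Gap (MP_e46137_lc, theorem B*): probabilistic machines with an arbitrary gap
-/

namespace MTC

open Classical Finset MTS

/-- The acceptance probabilities on the undirected graphs with a walk of at most `d` edges exceed
those on the undirected graphs in which `t` is not reachable by at least `δ`. -/
def Gap {n : ℕ} {Ω : Type} [Fintype Ω] (p : Ω → ℝ)
    (f : Ω → (Fin n → Fin n → Bool) → Bool) (d : ℕ) (s t : Fin n) (δ : ℝ) : Prop :=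
  ∀ G G' : Fin n → Fin n → Bool, (∀ a b, G a b = G b a) → (∀ a b, G' a b = G' b a) →
    (∃ l ≤ d, MTB.HasWalk G l s t) → ¬ MTB.Reach G' s t →
    (∑ ω ∈ univ.filter (fun ω => f ω G' = true), p ω) + δ ≤
      ∑ ω ∈ univ.filter (fun ω => f ω G = true), p ω

namespace GapAux

theorem walk_path {n r : ℕ} (s t : Fin n) (P : Fin r → Fin n) :
    MTB.HasWalk (pathGraph s t P) (r + 1) s t := by
  have key : ∀ l, l ≤ r + 1 → MTB.HasWalk (pathGraph s t P) l s (walkVertex s t P l) := by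
    intro l
    induction l with
    | zero => intro _; rfl
    | succ l ih =>
      intro hl
      refine ⟨walkVertex s t P l, ih (by omega), ?_⟩
      unfold pathGraph
      rw [decide_eq_true_iff]
      exact ⟨l, by omega, Or.inl ⟨rfl, rfl⟩⟩
  have h := key (r + 1) le_rfl
  have e : walkVertex s t P (r + 1) = t := by
    show (if h : r < r then P ⟨r, h⟩ else t) = t
    rw [dif_neg (lt_irrefl r)]
  rwa [e] at h

theorem path_symm {n r : ℕ} (s t : Fin n) (P : Fin r → Fin n) (a b : Fin n) :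
    pathGraph s t P a b = pathGraph s t P b a := by
  unfold pathGraph
  rw [decide_eq_decide]
  constructor
  · rintro ⟨q, hq, h | h⟩
    · exact ⟨q, hq, Or.inr h⟩
    · exact ⟨q, hq, Or.inl h⟩
  · rintro ⟨q, hq, h | h⟩
    · exact ⟨q, hq, Or.inr h⟩
    · exact ⟨q, hq, Or.inl h⟩

theorem cut_symm {n : ℕ} (C : Finset (Fin n)) (a b : Fin n) : cutGraph C a b = cutGraph C b a := by
  unfold cutGraph
  rw [decide_eq_decide]
  exact ⟨fun h => h.symm, fun h => h.symm⟩

theorem cut_reach {n : ℕ} {C : Finset (Fin n)} {s t : Fin n} (hs : s ∈ C) (ht : t ∉ C) :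
    ¬ MTB.Reach (cutGraph C) s t := by
  have key : ∀ v, MTB.Reach (cutGraph C) s v → v ∈ C := by
    intro v h
    unfold MTB.Reach at h
    induction h with
    | refl => exact hs
    | tail _ h2 ih =>
      unfold cutGraph at h2
      rw [decide_eq_true_iff] at h2
      exact h2.1 ih
  exact fun h => ht (key t h)

theorem seqs_nonempty {n r : ℕ} {s t : Fin n} (hst : s ≠ t) (h : r + 2 ≤ n) :
    (seqs n r s t).Nonempty := by
  have hcard : Fintype.card (Fin r) ≤ Fintype.card {x : Fin n // x ≠ s ∧ x ≠ t} := by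
    rw [Fintype.card_fin, Fintype.card_subtype]
    have h1 : (univ.filter fun x : Fin n => x ≠ s ∧ x ≠ t) = univ \ {s, t} := by
      ext x
      simp
    rw [h1, card_sdiff_of_subset (subset_univ _), card_pair hst, card_univ, Fintype.card_fin]
    omega
  obtain ⟨f⟩ := Function.Embedding.nonempty_of_card_le hcard
  refine ⟨fun i => (f i).1, ?_⟩
  rw [seqs, mem_filter]
  exact ⟨mem_univ _, fun i j hij => f.injective (Subtype.ext hij), fun i => (f i).2⟩

theorem sum_swap {Ω β : Type} [Fintype Ω] (u : Finset β) (w : Ω → ℝ) (p : Ω → β → Bool) :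
    ∑ ω, w ω * ((u.filter (fun P => p ω P = true)).card : ℝ) =
      ∑ P ∈ u, ∑ ω ∈ univ.filter (fun ω => p ω P = true), w ω := by
  have h1 : ∀ ω, w ω * ((u.filter (fun P => p ω P = true)).card : ℝ) =
      ∑ P ∈ u, if p ω P = true then w ω else 0 := by
    intro ω
    rw [card_filter]
    push_cast
    rw [mul_sum]
    exact sum_congr rfl fun P _ => by rw [mul_ite, mul_one, mul_zero]
  have h2 : ∀ P, ∑ ω ∈ univ.filter (fun ω => p ω P = true), w ω =
      ∑ ω, if p ω P = true then w ω else 0 := by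
    intro P
    rw [sum_filter]
  rw [sum_congr rfl fun ω _ => h1 ω, sum_congr rfl fun P _ => h2 P, sum_comm]

/-- the graph with the only edge `s t`, and the empty graph -/
theorem gap_basic {n : ℕ} {Ω : Type} [Fintype Ω] {p : Ω → ℝ} (hp0 : ∀ ω, 0 ≤ p ω)
    (hp1 : ∑ ω, p ω = 1) {f : Ω → (Fin n → Fin n → Bool) → Bool} {d : ℕ} (hd : 1 ≤ d)
    {s t : Fin n} (hst : s ≠ t) {δ : ℝ} (h : Gap p f d s t δ) :
    δ ≤ 1 ∧ ((∀ ω, ∃ b, ∀ G, f ω G = b) → δ ≤ 0) := by
  have h1 := h (fun _ _ => true) (fun _ _ => false) (fun _ _ => rfl) (fun _ _ => rfl)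
    ⟨1, hd, s, rfl, rfl⟩ (by
      intro hr
      rcases Relation.ReflTransGen.cases_head hr with h5 | ⟨b, h5, -⟩
      · exact hst h5
      · exact absurd h5 (by simp))
  constructor
  · have h2 : 0 ≤ ∑ ω ∈ univ.filter (fun ω => f ω (fun _ _ => false) = true), p ω :=
      sum_nonneg fun ω _ => hp0 ω
    have h3 : ∑ ω ∈ univ.filter (fun ω => f ω (fun _ _ => true) = true), p ω ≤ ∑ ω, p ω :=
      sum_le_sum_of_subset_of_nonneg (filter_subset _ _) (fun ω _ _ => hp0 ω)
    linarith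
  · intro hc
    have h2 : (univ.filter (fun ω => f ω (fun _ _ => false) = true)) =
        univ.filter (fun ω => f ω (fun _ _ => true) = true) := by
      ext ω
      obtain ⟨b, hb⟩ := hc ω
      rw [mem_filter, mem_filter, hb, hb]
    rw [h2] at h1
    linarith

/-- some machine has the advantage `δ` -/
theorem exists_machine {n : ℕ} {Ω : Type} [Fintype Ω] {p : Ω → ℝ} (hp0 : ∀ ω, 0 ≤ p ω)
    (hp1 : ∑ ω, p ω = 1) {f : Ω → (Fin n → Fin n → Bool) → Bool} {d e : ℕ} (he : 1 ≤ e)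
    (hed : e ≤ d) (hen : e + 1 ≤ n) {s t : Fin n} (hst : s ≠ t) {δ : ℝ}
    (h : Gap p f d s t δ) :
    ∃ ω, δ ≤ accP (f ω) (e - 1) s t - accC (f ω) s t := by
  obtain ⟨ω₀, hω₀⟩ : ∃ ω₀, 0 < p ω₀ := by
    by_contra hcon
    push Not at hcon
    have h1 : ∑ ω, p ω ≤ 0 := sum_nonpos fun ω _ => hcon ω
    linarith
  obtain ⟨r, rfl⟩ : ∃ r, e = r + 1 := ⟨e - 1, by omega⟩
  rw [Nat.add_sub_cancel]
  have hsq := seqs_nonempty (r := r) hst (by omega)
  have hct0' := cuts_pos hst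
  have hct : (cuts n s t).Nonempty := card_pos.1 hct0'
  have hsq0 : (0 : ℝ) < (seqs n r s t).card := by exact_mod_cast card_pos.2 hsq
  have hct0 : (0 : ℝ) < (cuts n s t).card := by exact_mod_cast hct0'
  -- the cut with the largest acceptance probability
  obtain ⟨C₀, hC₀, hmax⟩ := exists_max_image (cuts n s t)
    (fun C => ∑ ω ∈ univ.filter (fun ω => f ω (cutGraph C) = true), p ω) hct
  obtain ⟨m, hm⟩ : ∃ m, m = ∑ ω ∈ univ.filter (fun ω => f ω (cutGraph C₀) = true), p ω := ⟨_, rfl⟩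
  have hC₀' : s ∈ C₀ ∧ t ∉ C₀ := by
    rw [cuts, mem_filter] at hC₀
    exact hC₀.2
  have hA : m + δ ≤ ∑ ω, p ω * accP (f ω) r s t := by
    unfold accP
    rw [sum_congr rfl fun ω _ => (mul_div_assoc (p ω) _ _).symm, ← sum_div,
      sum_swap _ p (fun ω P => f ω (pathGraph s t P)), le_div_iff₀ hsq0]
    have h1 : ∀ P ∈ seqs n r s t, m + δ ≤ ∑ ω ∈ univ.filter (fun ω =>
        f ω (pathGraph s t P) = true), p ω := by
      intro P _
      rw [hm]
      exact h (pathGraph s t P) (cutGraph C₀) (path_symm s t P) (cut_symm C₀)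
        ⟨r + 1, hed, walk_path s t P⟩ (cut_reach hC₀'.1 hC₀'.2)
    have h4 := card_nsmul_le_sum (seqs n r s t) _ _ h1
    rw [nsmul_eq_mul] at h4
    linarith
  have hB : ∑ ω, p ω * accC (f ω) s t ≤ m := by
    unfold accC
    rw [sum_congr rfl fun ω _ => (mul_div_assoc (p ω) _ _).symm, ← sum_div,
      sum_swap _ p (fun ω C => f ω (cutGraph C)), div_le_iff₀ hct0]
    have h1 : ∀ C ∈ cuts n s t, ∑ ω ∈ univ.filter (fun ω =>
        f ω (cutGraph C) = true), p ω ≤ m := by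
      intro C hC
      rw [hm]
      exact hmax C hC
    have h4 := sum_le_card_nsmul (cuts n s t) _ _ h1
    rw [nsmul_eq_mul] at h4
    linarith
  by_contra hcon
  push Not at hcon
  have h1 : ∑ ω, p ω * (accP (f ω) r s t - accC (f ω) s t) < ∑ ω, p ω * δ := by
    refine sum_lt_sum (fun ω _ => mul_le_mul_of_nonneg_left (hcon ω).le (hp0 ω))
      ⟨ω₀, mem_univ _, mul_lt_mul_of_pos_left (hcon ω₀) hω₀⟩
  rw [← sum_mul, hp1, sum_congr rfl fun ω _ => mul_sub (p ω) _ _, sum_sub_distrib] at h1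
  linarith

end GapAux

open GapAux

/-- **Lower bound** for probabilistic oblivious machines with gap `δ`. -/
theorem gap_obl : ∃ c : ℝ, 0 < c ∧ ∀ (n S d T : ℕ) (s t : Fin n), 4 ≤ n → 1 ≤ S → S ≤ n →
    2 ≤ d → d ≤ n → s ≠ t →
    ∀ (Ω : Type) [Fintype Ω] (p : Ω → ℝ), (∀ ω, 0 ≤ p ω) → ∑ ω, p ω = 1 →
    ∀ (M : Ω → MTB.Mach n S) (out : Ω → Fin S) (δ : ℝ), 0 < δ →
      Gap p (fun ω G => (M ω).run G T (out ω)) d s t δ →
      MTX.phi n S d - c * MTX.err n S d ≤ Real.logb 2 (T / δ) := by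
  obtain ⟨c, hc, hL⟩ := MTX.lower_num (10 ^ 9) (by norm_num)
  refine ⟨c + 1, by linarith, ?_⟩
  intro n S d T s t hn hS hSn hd hdn hst Ω _ p hp0 hp1 M out δ hδ hgap
  obtain ⟨hδ1, hconst⟩ := gap_basic hp0 hp1 (by omega : 1 ≤ d) hst hgap
  have hT : 1 ≤ T := by
    rcases Nat.eq_zero_or_pos T with h | h
    · exfalso
      subst h
      have := hconst (fun ω => ⟨(M ω).init (out ω), fun _ => rfl⟩)
      linarith
    · exact h
  have hTpos : (1 : ℝ) ≤ T := by exact_mod_cast hT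
  obtain ⟨T', hT'⟩ : ∃ T', T' = ⌈(T : ℝ) / δ⌉₊ := ⟨_, rfl⟩
  have hle : (T : ℝ) / δ ≤ T' := by
    rw [hT']
    exact Nat.le_ceil _
  have h1δ : (1 : ℝ) ≤ T / δ := by
    rw [le_div_iff₀ hδ]
    linarith
  have hT'1 : 1 ≤ T' := by
    have : (1 : ℝ) ≤ T' := h1δ.trans hle
    exact_mod_cast this
  have hge : (T' : ℝ) ≤ 2 * (T / δ) := by
    have h1 : (T' : ℝ) < T / δ + 1 := by
      rw [hT']
      exact Nat.ceil_lt_add_one (by positivity)
    linarith
  have hmain := hL n S d T' hn hS hSn hd hdn hT'1 (fun hT2 k hk hkd hkn => by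
    have h2k : 1 ≤ 2 ^ k := Nat.one_le_two_pow
    have hkn2 : 2 ^ k + 1 ≤ n := by
      have h1 : 1 ≤ (Nat.log 2 n + 1) ^ 7 := Nat.one_le_pow _ _ (by omega)
      have h2 : 2 ^ k * 2 ≤ 10 ^ 9 * (Nat.log 2 n + 1) ^ 7 * S * 2 ^ k := by
        calc 2 ^ k * 2 = 2 * 1 * 1 * 2 ^ k := by ring
          _ ≤ 10 ^ 9 * (Nat.log 2 n + 1) ^ 7 * S * 2 ^ k := by
            apply Nat.mul_le_mul_right
            exact Nat.mul_le_mul (Nat.mul_le_mul (by norm_num) h1) hS
      omega
    obtain ⟨ω, hω⟩ := exists_machine hp0 hp1 h2k hkd hkn2 hst hgap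
    refine explicit3 (d := 2 ^ k) hk hst hS hT (M ω) (out ω) _ (lt_of_lt_of_le hδ hω) rfl
      (le_trans ?_ hle) hT2 le_rfl hkn
    exact div_le_div_of_nonneg_left (by positivity) hδ hω)
  -- conclusion
  have hE1 : 1 ≤ MTX.err n S d := by
    unfold MTX.err
    have h1 := MTX.loglog_ge hn
    have h2 := MTX.kap_nonneg (d := d) hS hSn (by omega)
    have h3 : (1 : ℝ) ≤ Real.logb 2 n := by
      rw [Real.le_logb_iff_rpow_le (by norm_num) (by exact_mod_cast (by omega : 0 < n)),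
        Real.rpow_one]
      exact_mod_cast (by omega : 2 ≤ n)
    nlinarith
  have hlog : Real.logb 2 T' ≤ 1 + Real.logb 2 (T / δ) := by
    have h1 : Real.logb 2 T' ≤ Real.logb 2 (2 * (T / δ)) :=
      Real.logb_le_logb_of_le (by norm_num) (by exact_mod_cast hT'1) hge
    rw [Real.logb_mul (by norm_num) (by positivity), Real.logb_self_eq_one (by norm_num)] at h1
    exact h1
  nlinarith

end MTC
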