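import Pool.Agent.Lib.MTC.EmbedP
import Pool.Agent.Lib.MTX.LowerN

/-!
# MTC.Lower (MP_e46137_lc, theorem B*): the lower bound in its final form
-/

namespace MTC

open MTB

/-- With `l = Nat.log 2 n + 1`: `w₁ = 4 l ^ 2 + 8`, `w = (k + 2) w₁`, `L = 300 l ^ 4`;
`T ≤ 2 ^ (l ^ 2)`, `k ≤ l` and `10 ^ 9 * l ^ 7 * S * 2 ^ k ≤ n`. -/
theorem explicit2 : ∃ C : ℕ, 1 ≤ C ∧ ∀ (n S k T : ℕ) (s t : Fin n), 1 ≤ k → s ≠ t → 1 ≤ S →
    1 ≤ T →
    ∀ (Ω : Type) [Fintype Ω] (p : Ω → ℝ), (∀ ω, 0 ≤ p ω) → ∑ ω, p ω = 1 →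
    ∀ (M : Ω → Mach n S) (out : Ω → Fin S), DecidesP p M out T (2 ^ k) s t →
      T ≤ 2 ^ (Nat.log 2 n + 1) ^ 2 → C * (Nat.log 2 n + 1) ^ 7 * S * 2 ^ k ≤ n →
      n ^ (k - 1) ≤
        T * (C * (Nat.log 2 n + 1) ^ 9 * S) ^ (k - 1) * 2 ^ (k * (k + 1) / 2 + 1) := by
  refine ⟨10 ^ 9, by norm_num, ?_⟩
  intro n S k T s t hk hst hS hT1 Ω _ p hp0 hp1 M out hM hT hC
  obtain ⟨k, rfl⟩ : ∃ k', k = k' + 1 := ⟨k - 1, by omega⟩
  rw [Nat.add_sub_cancel]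
  rcases Nat.eq_zero_or_pos k with hk0 | hk0
  · subst hk0
    rw [pow_zero, pow_zero, mul_one]
    calc 1 = 1 * 1 := rfl
      _ ≤ T * 2 ^ ((0 + 1) * (0 + 1 + 1) / 2 + 1) := Nat.mul_le_mul hT1 Nat.one_le_two_pow
  obtain ⟨l, hl⟩ : ∃ l, Nat.log 2 n + 1 = l := ⟨_, rfl⟩
  rw [hl] at hT hC ⊢
  have hl1 : 1 ≤ l := by omega
  obtain ⟨f1, f2, f3, f4, f5, f6, f7⟩ : l ≤ l ^ 2 ∧ l ^ 2 ≤ l ^ 3 ∧ l ^ 3 ≤ l ^ 4 ∧ l ^ 4 ≤ l ^ 7 ∧
      1 ≤ l ^ 4 ∧ 1 ≤ l ^ 7 ∧ 1 ≤ l ^ 3 := by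
    refine ⟨?_, Nat.pow_le_pow_right hl1 (by omega), Nat.pow_le_pow_right hl1 (by omega),
      Nat.pow_le_pow_right hl1 (by omega), Nat.one_le_pow _ _ hl1, Nat.one_le_pow _ _ hl1,
      Nat.one_le_pow _ _ hl1⟩
    calc l = l ^ 1 := (pow_one l).symm
      _ ≤ l ^ 2 := Nat.pow_le_pow_right hl1 (by omega)
  have hn2 : n < 2 ^ l := by
    rw [← hl]
    exact Nat.lt_pow_succ_log_self (by norm_num) n
  have h2k : 1 ≤ 2 ^ (k + 1) := Nat.one_le_two_pow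
  -- the basic inequality in three forms
  have hb : 10 ^ 9 * (l ^ 7 * S * 2 ^ (k + 1)) ≤ n := by
    refine le_trans (le_of_eq ?_) hC
    ring
  obtain ⟨Q, hQ⟩ : ∃ Q, l ^ 7 * S * 2 ^ (k + 1) = Q := ⟨_, rfl⟩
  have hQ7 : l ^ 7 ≤ Q := by
    rw [← hQ]
    calc l ^ 7 = l ^ 7 * 1 * 1 := by ring
      _ ≤ l ^ 7 * S * 2 ^ (k + 1) := Nat.mul_le_mul (Nat.mul_le_mul_left _ hS) h2k
  have hQk : 2 ^ (k + 1) ≤ Q := by
    rw [← hQ]
    calc 2 ^ (k + 1) = 1 * 1 * 2 ^ (k + 1) := by ring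
      _ ≤ l ^ 7 * S * 2 ^ (k + 1) := Nat.mul_le_mul_right _ (Nat.mul_le_mul f6 hS)
  have hQS : S ≤ Q := by
    rw [← hQ]
    calc S = 1 * S * 1 := by ring
      _ ≤ l ^ 7 * S * 2 ^ (k + 1) := Nat.mul_le_mul (Nat.mul_le_mul_right _ f6) h2k
  rw [hQ] at hb
  have hkl : k + 2 ≤ l := by
    have h1 : 2 ^ (k + 1) < 2 ^ l := by omega
    have h2 := (Nat.pow_lt_pow_iff_right (by norm_num : 1 < 2)).1 h1
    omega
  have hSn : S ≤ 2 ^ l := by omega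
  have hLn : 300 * l ^ 4 ≤ n - 2 := by omega
  obtain ⟨w, hw⟩ : ∃ w, w = (k + 3) * (4 * l ^ 2 + 8) := ⟨_, rfl⟩
  have hwle : w ≤ 24 * l ^ 3 := by
    have h1 : (k + 3) * (4 * l ^ 2 + 8) ≤ (l + 1) * (4 * l ^ 2 + 8) :=
      Nat.mul_le_mul_right _ (by omega)
    have h2 : (l + 1) * (4 * l ^ 2 + 8) = 4 * l ^ 3 + 4 * l ^ 2 + 8 * l + 8 := by ring
    rw [hw]
    omega
  have hr1 : (2 ^ (k + 1) - 1) + 1 = 2 ^ (k + 1) := by omega
  obtain ⟨r, hr⟩ : ∃ r, r + 1 = 2 ^ (k + 1) := ⟨_, hr1⟩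
  have hmain := explicitP (w := w) (w₁ := 4 * l ^ 2 + 8) (L := 300 * l ^ 4) (V := Nat.clog 2 T)
    hst p hp0 hp1 M out hM hr hw (by omega) (by omega) hLn
    (by
      have b0 : 64 * (8 * w * (300 * l ^ 4)) * S * 2 ^ k ≤
          64 * (8 * (24 * l ^ 3) * (300 * l ^ 4)) * S * 2 ^ k := by gcongr
      have b1 : 2 * (64 * (8 * (24 * l ^ 3) * (300 * l ^ 4)) * S * 2 ^ k) = 3686400 * Q := by
        rw [← hQ, pow_succ]
        ring
      omega)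
    (by
      have a1 : (2 * (n - 2) + 1) ^ w ≤ 2 ^ ((l + 1) * w) := by
        rw [pow_mul 2 (l + 1) w]
        apply Nat.pow_le_pow_left
        have : 2 ^ (l + 1) = 2 * 2 ^ l := by ring
        omega
      calc T * (S * ((2 * (n - 2) + 1) ^ w * 2 ^ (n - 2 - 300 * l ^ 4)))
          ≤ 2 ^ l ^ 2 * (2 ^ l * (2 ^ ((l + 1) * w) * 2 ^ (n - 2 - 300 * l ^ 4))) :=
            Nat.mul_le_mul hT (Nat.mul_le_mul hSn (Nat.mul_le_mul_right _ a1))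
        _ = 2 ^ (l ^ 2 + (l + ((l + 1) * w + (n - 2 - 300 * l ^ 4)))) := by
            rw [← pow_add, ← pow_add, ← pow_add]
        _ < 2 ^ (n - 2 - w) := by
            apply Nat.pow_lt_pow_right (by norm_num)
            have a3 : (l + 1) * w ≤ (l + 1) * (24 * l ^ 3) := Nat.mul_le_mul_left _ hwle
            have a4 : (l + 1) * (24 * l ^ 3) = 24 * l ^ 4 + 24 * l ^ 3 := by ring
            omega)
    (by omega)
    (by
      have c1 : 2 * S + r + 1 ≤ 2 ^ (l + 2) := by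
        have : 2 ^ (l + 2) = 4 * 2 ^ l := by ring
        omega
      have c2 : 16 ≤ 2 ^ 4 := by norm_num
      calc 16 * T * (2 * S + r + 1) ≤ 2 ^ 4 * 2 ^ l ^ 2 * 2 ^ (l + 2) :=
            Nat.mul_le_mul (Nat.mul_le_mul c2 hT) c1
        _ = 2 ^ (4 + l ^ 2 + (l + 2)) := by rw [← pow_add, ← pow_add]
        _ ≤ 2 ^ (2 * (4 * l ^ 2 + 8)) := by
            apply Nat.pow_le_pow_right (by norm_num)
            omega
        _ = 4 ^ (4 * l ^ 2 + 8) := by rw [pow_mul]; norm_num)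
    (Nat.le_pow_clog (by norm_num) T)
  have hclog : Nat.clog 2 T ≤ l ^ 2 := Nat.clog_le_of_le_pow hT
  have hclog2 : 2 ^ Nat.clog 2 T ≤ 2 * T := by
    rcases Nat.lt_or_ge 1 T with h1 | h1
    · have h2 := Nat.pow_pred_clog_lt_self (by norm_num : 1 < 2) h1
      have h3 : 0 < Nat.clog 2 T := Nat.clog_pos (by norm_num) h1
      have h4 : 2 ^ Nat.clog 2 T = 2 * 2 ^ (Nat.clog 2 T).pred := by
        rw [← pow_succ']
        congr 1
        exact (Nat.succ_pred_eq_of_pos h3).symm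
      omega
    · have h2 : T = 1 := le_antisymm h1 hT1
      subst h2
      simp
  have hn4 : n ≤ 2 * (n - 2 - r) := by omega
  have hkk : (k + 1) * (k + 1 + 1) / 2 = k * (k + 1) / 2 + (k + 1) := by
    have h1 : (k + 1) * (k + 1 + 1) = k * (k + 1) + 2 * (k + 1) := by ring
    rw [h1]
    omega
  calc n ^ k ≤ (2 * (n - 2 - r)) ^ k := Nat.pow_le_pow_left hn4 _
    _ = 2 ^ k * (n - 2 - r) ^ k := by rw [mul_pow]
    _ ≤ 2 ^ k * (5 * (2 ^ Nat.clog 2 T * Nat.clog 2 T ^ k *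
          (16 * (8 * w * (300 * l ^ 4)) * S) ^ k * 2 ^ (k * (k + 1) / 2))) :=
        Nat.mul_le_mul_left _ hmain
    _ ≤ 2 ^ k * (5 * (2 * T * (l ^ 2) ^ k *
          (16 * (8 * (24 * l ^ 3) * (300 * l ^ 4)) * S) ^ k * 2 ^ (k * (k + 1) / 2))) := by
        gcongr
    _ = 10 * (T * (1843200 * l ^ 9 * S) ^ k * 2 ^ (k * (k + 1) / 2)) := by
        have e1 : 1843200 * l ^ 9 * S =
            2 * (l ^ 2 * (16 * (8 * (24 * l ^ 3) * (300 * l ^ 4)) * S)) := by ring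
        rw [e1, mul_pow 2, mul_pow (l ^ 2)]
        ring
    _ ≤ 10 ^ k * (T * (1843200 * l ^ 9 * S) ^ k * 2 ^ (k * (k + 1) / 2)) := by
        apply Nat.mul_le_mul_right
        calc 10 = 10 ^ 1 := by norm_num
          _ ≤ 10 ^ k := Nat.pow_le_pow_right (by norm_num) hk0
    _ = T * (18432000 * l ^ 9 * S) ^ k * 2 ^ (k * (k + 1) / 2) := by
        have e1 : 18432000 * l ^ 9 * S = 10 * (1843200 * l ^ 9 * S) := by ring
        rw [e1, mul_pow 10]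
        ring
    _ ≤ T * (10 ^ 9 * l ^ 9 * S) ^ k * 2 ^ ((k + 1) * (k + 1 + 1) / 2 + 1) := by
        rw [hkk]
        apply Nat.mul_le_mul
        · apply Nat.mul_le_mul_left
          apply Nat.pow_le_pow_left
          apply Nat.mul_le_mul_right
          apply Nat.mul_le_mul_right
          norm_num
        · exact Nat.pow_le_pow_right (by norm_num) (by omega)

/-- The lower bound, in the notation `phi`, `err` of MTX.Spec. -/
theorem lower : ∃ c : ℝ, 0 < c ∧ ∀ (n S d T : ℕ) (s t : Fin n), 4 ≤ n → 1 ≤ S → S ≤ n → 2 ≤ d →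
    d ≤ n → s ≠ t → ∀ (Ω : Type) [Fintype Ω] (p : Ω → ℝ), (∀ ω, 0 ≤ p ω) → ∑ ω, p ω = 1 →
    ∀ (M : Ω → Mach n S) (out : Ω → Fin S), DecidesP p M out T d s t →
    MTX.phi n S d - c * MTX.err n S d ≤ Real.logb 2 T := by
  obtain ⟨C, hC, hE⟩ := explicit2
  obtain ⟨c, hc, hL⟩ := MTX.lower_num C hC
  refine ⟨c, hc, ?_⟩
  intro n S d T s t hn hS hSn hd hdn hst Ω _ p hp0 hp1 M out hM
  have hT : 1 ≤ T := by
    rcases Nat.eq_zero_or_pos T with h0 | h0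
    · exfalso
      subst h0
      obtain ⟨h1, -⟩ := hM (fun a b => decide ((a = s ∧ b = t) ∨ (a = t ∧ b = s))) (by
        intro a b
        apply decide_eq_decide.2
        constructor
        · rintro (⟨h1, h2⟩ | ⟨h1, h2⟩)
          · exact Or.inr ⟨h2, h1⟩
          · exact Or.inl ⟨h2, h1⟩
        · rintro (⟨h1, h2⟩ | ⟨h1, h2⟩)
          · exact Or.inr ⟨h2, h1⟩
          · exact Or.inl ⟨h2, h1⟩)
      obtain ⟨-, h2⟩ := hM (fun _ _ => false) (fun _ _ => rfl)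
      have h3 := h1 ⟨1, by omega, s, rfl, by
        apply decide_eq_true
        exact Or.inl ⟨rfl, rfl⟩⟩
      have h4 := h2 (by
        intro hr
        rcases Relation.ReflTransGen.cases_head hr with h5 | ⟨b, h5, -⟩
        · exact hst h5
        · exact absurd h5 (by simp))
      have h5 := le_trans h3 h4
      norm_num at h5
    · exact h0
  refine hL n S d T hn hS hSn hd hdn hT ?_
  intro hT2 k hk hkd hkn
  refine hE n S k T s t hk hst hS hT Ω p hp0 hp1 M out ?_ hT2 hkn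
  intro G hG
  obtain ⟨h1, h2⟩ := hM G hG
  refine ⟨?_, h2⟩
  rintro ⟨l', hl', hw⟩
  exact h1 ⟨l', hl'.trans hkd, hw⟩

end MTC
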