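import Pool.Agent.Lib.MTC.Basic
import Pool.Agent.Lib.MTQ.MinE

/-!
# MTC.Quasi (MP_e46137_lc, theorem B*): few minimal extensions (quasi-sunflower lemma)
-/

namespace MTC

open Classical Finset MTS MTB

variable {N : ℕ}

namespace QuasiAux

/-- forget the number of the vertex in its layer -/
def fo (U : PC N 1) : MTQ.PC (Fin N) := fun v => (U v).map Prod.snd

/-- the inverse -/
def ba (U : MTQ.PC (Fin N)) : PC N 1 := fun v => (U v).map (fun c => ((0 : Fin 1), c))

theorem ba_fo (U : PC N 1) : ba (fo U) = U := by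
  funext v
  show ((U v).map Prod.snd).map (fun c => ((0 : Fin 1), c)) = U v
  rcases U v with _ | ⟨x, c⟩
  · rfl
  · show some ((0 : Fin 1), c) = some (x, c)
    rw [Subsingleton.elim x 0]

theorem fo_ba (U : MTQ.PC (Fin N)) : fo (ba U) = U := by
  funext v
  show ((U v).map (fun c => ((0 : Fin 1), c))).map Prod.snd = U v
  rcases U v with _ | c <;> rfl

theorem fo_inj : Function.Injective (fo (N := N)) := by
  intro U W h
  rw [← ba_fo U, h, ba_fo]

theorem fo_some {U : PC N 1} {v : Fin N} {c : Bool} :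
    fo U v = some c ↔ U v = some (0, c) := by
  show (U v).map Prod.snd = some c ↔ U v = some (0, c)
  rcases U v with _ | ⟨x, d⟩
  · simp
  · rw [Subsingleton.elim x 0]
    simp

theorem fo_none {U : PC N 1} {v : Fin N} : fo U v = none ↔ U v = none := by
  show (U v).map Prod.snd = none ↔ U v = none
  rcases U v with _ | x <;> simp

theorem size_fo (U : PC N 1) : MTQ.size (fo U) = size U := by
  unfold MTQ.size size
  refine congrArg card ?_
  ext v
  simp only [mem_filter, mem_univ, true_and, ne_eq, fo_none]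

theorem agree_fo (U : PC N 1) (χ : Col N 1) :
    MTQ.Agree (fo U) (fun v => χ v 0) ↔ Agree U χ := by
  constructor
  · rintro h v ⟨x, c⟩ hx
    have hx0 : x = 0 := Subsingleton.elim x 0
    subst hx0
    exact h v c (fo_some.2 hx)
  · intro h v c hc
    exact h v (0, c) (fo_some.1 hc)

theorem hits_fo (F : Finset (PC N 1)) (χ : Col N 1) :
    MTQ.Hits (F.image fo) (fun v => χ v 0) ↔ Hits F χ := by
  constructor
  · rintro ⟨U, hU, h⟩
    obtain ⟨W, hW, rfl⟩ := mem_image.1 hU
    exact ⟨W, hW, (agree_fo W χ).1 h⟩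
  · rintro ⟨W, hW, h⟩
    exact ⟨fo W, mem_image.2 ⟨W, hW, rfl⟩, (agree_fo W χ).2 h⟩

theorem closed_fo {w θ : ℕ} {F : Finset (PC N 1)} (hF : ClosedW w θ F) :
    MTQ.Closed w θ (F.image fo) := by
  refine ⟨?_, ?_⟩
  · intro U hU
    obtain ⟨W, hW, rfl⟩ := mem_image.1 hU
    rw [size_fo]
    exact hF.1 W hW
  · intro U hU h
    rw [← fo_ba U] at hU h ⊢
    rw [size_fo] at hU
    refine mem_image.2 ⟨ba U, hF.2 (ba U) hU (le_trans ?_ h), rfl⟩
    refine card_le_card_of_injOn (fun χ v => χ v 0) ?_ ?_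
    · intro χ hχ
      have hχ' := (mem_filter.1 (mem_coe.1 hχ)).2
      have h1 : MTQ.Agree (fo (ba U)) (fun v => χ v 0) ∧
          ¬ MTQ.Hits (F.image fo) (fun v => χ v 0) :=
        ⟨(agree_fo _ χ).2 hχ'.1, fun hh => hχ'.2 ((hits_fo F χ).1 hh)⟩
      simp only [coe_filter, mem_univ, true_and]
      exact h1
    · intro χ _ χ' _ he
      funext v x
      rw [Subsingleton.elim x 0]
      exact congrFun he v

theorem sub_fo {U W : PC N 1} : MTQ.Sub (fo U) (fo W) ↔ Sub U W := by
  constructor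
  · rintro h v ⟨x, c⟩ hx
    have hx0 : x = 0 := Subsingleton.elim x 0
    subst hx0
    exact fo_some.1 (h v c (fo_some.2 hx))
  · intro h v c hc
    exact fo_some.2 (h v (0, c) (fo_some.1 hc))

theorem join_fo (D A : PC N 1) : MTQ.join (fo D) (fo A) = fo (join D A) := by
  funext v
  show (fo D v).or (fo A v) = ((if D v ≠ none then D v else A v).map Prod.snd)
  by_cases h : D v = none
  · rw [fo_none.2 h, Option.none_or, if_neg (by simp [h])]
    rfl
  · rw [if_pos h]
    obtain ⟨x, hx⟩ := Option.ne_none_iff_exists'.1 h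
    have : fo D v = some x.2 := by
      show (D v).map Prod.snd = some x.2
      rw [hx]; rfl
    rw [this, hx]
    rfl

theorem mem_fo {F : Finset (PC N 1)} {U : PC N 1} : fo U ∈ F.image fo ↔ U ∈ F := by
  rw [mem_image]
  constructor
  · rintro ⟨W, hW, h⟩
    rw [← fo_inj h]
    exact hW
  · intro h
    exact ⟨U, h, rfl⟩

theorem ext_fo {F : Finset (PC N 1)} {D A : PC N 1} (h : IsExt F D A) :
    MTQ.MinExt (F.image fo) (fo D) (fo A) := by
  obtain ⟨h1, h2, h3⟩ := h
  refine ⟨?_, ?_, ?_⟩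
  · intro v hv
    by_contra hA
    apply hv
    rw [fo_none]
    exact h1 v fun h => hA (fo_none.2 h)
  · rw [join_fo, mem_fo]
    exact h2
  · intro A' hA' hm
    rw [← fo_ba A'] at hA' hm ⊢
    rw [join_fo, mem_fo] at hm
    rw [sub_fo] at hA'
    by_contra hne
    exact h3 (ba A') hA' (fun h => hne (by rw [h])) hm

end QuasiAux

open QuasiAux

theorem ext_card {w θ L : ℕ} {F : Finset (PC N 1)} (hF : ClosedW w θ F) (hL : 1 ≤ L)
    (hθ : 2 ^ N ≤ θ * 2 ^ L) {D : PC N 1} (hD : D ∉ F) {a : ℕ} (ha : 1 ≤ a)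
    (hw : size D + a ≤ w) :
    (univ.filter (fun A : PC N 1 => IsExt F D A ∧ size A = a)).card ≤ (8 * w * L) ^ a := by
  have h := MTQ.minExt_card (closed_fo hF) (L := L) (a := a) (B₁ := 4 * w * L)
    (by rw [Fintype.card_fin, mul_comm]; exact hθ) hL le_rfl (D := fo D)
    (by rw [size_fo]; exact hw)
  have e : 8 * w * L = 2 * (4 * w * L) := by ring
  rw [e]
  refine le_trans ?_ h
  refine card_le_card_of_injOn fo ?_ (fun _ _ _ _ h => fo_inj h)
  intro A hA
  have hA' := (mem_filter.1 (mem_coe.1 hA)).2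
  have h1 : MTQ.MinExt (F.image fo) (fo D) (fo A) ∧ MTQ.size (fo A) = a :=
    ⟨ext_fo hA'.1, by rw [size_fo]; exact hA'.2⟩
  simp only [coe_filter, mem_univ, true_and]
  exact h1

end MTC
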