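import Pool.Agent.Lib.MTC.Basic

/-!
# MTC.Tools (MP_e46137_lc, theorem B*): elementary facts on paths and partial colourings
-/

namespace MTC

open Classical Finset MTS MTB

variable {r N : ℕ}

theorem up_apply {P : Fin r → Fin N} (hP : Function.Injective P) (q : ℕ) (j : Fin r) :
    up P q (P j) = some (0, decide ((j : ℕ) < q)) := by
  unfold up
  by_cases h : (j : ℕ) < q
  · rw [if_pos ⟨j, rfl, h⟩, decide_eq_true h]
  · rw [if_neg, if_pos ⟨j, rfl⟩, decide_eq_false h]
    rintro ⟨i, hi, hiq⟩
    rw [hP hi] at hiq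
    exact h hiq

theorem up_eq_none {P : Fin r → Fin N} {q : ℕ} {v : Fin N} (h : ∀ j, P j ≠ v) :
    up P q v = none := by
  unfold up
  rw [if_neg, if_neg]
  · rintro ⟨j, hj⟩
    exact h j hj
  · rintro ⟨j, hj, _⟩
    exact h j hj

/-- a vertex coloured by a part of `up P q` is on the path -/
theorem exists_pos {P : Fin r → Fin N} {q : ℕ} {U : PC N 1} (hU : Sub U (up P q)) {v : Fin N}
    (hv : U v ≠ none) : ∃ j, P j = v := by
  by_contra hcon
  push Not at hcon
  obtain ⟨x, hx⟩ := Option.ne_none_iff_exists'.1 hv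
  have h1 := hU v x hx
  rw [up_eq_none hcon] at h1
  exact absurd h1 (by simp)

/-- on a path through the vertices `X|J`, if no position of `J` lies in `[x, y)` and
`x ≤ q ≤ y` then the coloured vertices `colr J X x` are a part of `up P q` -/
theorem colr_sub {J : Finset (Fin r)} {X P : Fin r → Fin N} (hP : Function.Injective P)
    (hX : ∀ j ∈ J, P j = X j) {x y q : ℕ} (hJ : ∀ j ∈ J, ¬ (x ≤ (j : ℕ) ∧ (j : ℕ) < y))
    (hq1 : x ≤ q) (hq2 : q ≤ y) : Sub (colr J X x) (up P q) := by
  intro v z hv
  unfold colr at hv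
  split_ifs at hv with h1 h2
  · obtain ⟨j, hj, hjv, hjx⟩ := h1
    have e : P j = v := (hX j hj).trans hjv
    rw [← hv, ← e, up_apply hP, decide_eq_true (lt_of_lt_of_le hjx hq1)]
  · obtain ⟨j, hj, hjv⟩ := h2
    have e : P j = v := (hX j hj).trans hjv
    have h3 : ¬ (j : ℕ) < x := fun h => h1 ⟨j, hj, hjv, h⟩
    have h4 : ¬ (j : ℕ) < q := by
      intro h
      exact hJ j hj ⟨not_lt.1 h3, lt_of_lt_of_le h hq2⟩
    rw [← hv, ← e, up_apply hP, decide_eq_false h4]

theorem size_colr {J : Finset (Fin r)} {X : Fin r → Fin N} (hX : Set.InjOn X J) (q : ℕ) :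
    size (colr J X q) = J.card := by
  have h1 : (univ.filter (fun v => colr J X q v ≠ none)) = J.image X := by
    ext v
    rw [mem_filter, mem_image]
    unfold colr
    constructor
    · rintro ⟨-, h⟩
      split_ifs at h with h1 h2
      · obtain ⟨j, hj, hjv, _⟩ := h1
        exact ⟨j, hj, hjv⟩
      · exact h2
      · exact absurd rfl h
    · rintro ⟨j, hj, hjv⟩
      refine ⟨mem_univ _, ?_⟩
      by_cases h1 : ∃ j ∈ J, X j = v ∧ (j : ℕ) < q
      · rw [if_pos h1]
        simp
      · rw [if_neg h1, if_pos ⟨j, hj, hjv⟩]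
        simp
  unfold size
  rw [h1, card_image_of_injOn hX]

theorem colr_ne_none {J : Finset (Fin r)} {X : Fin r → Fin N} {q : ℕ} {v : Fin N} :
    colr J X q v ≠ none ↔ ∃ j ∈ J, X j = v := by
  unfold colr
  constructor
  · intro h
    split_ifs at h with h1 h2
    · obtain ⟨j, hj, hjv, _⟩ := h1
      exact ⟨j, hj, hjv⟩
    · exact h2
    · exact absurd rfl h
  · rintro ⟨j, hj, hjv⟩
    by_cases h1 : ∃ j ∈ J, X j = v ∧ (j : ℕ) < q
    · rw [if_pos h1]
      simp
    · rw [if_neg h1, if_pos ⟨j, hj, hjv⟩]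
      simp

theorem sub_join_left (D A : PC N 1) : Sub D (join D A) := by
  intro v x hx
  unfold join
  rw [if_pos (by rw [hx]; simp), hx]

theorem size_join_le (D A : PC N 1) : size (join D A) ≤ size D + size A := by
  unfold size
  refine (card_le_card ?_).trans (card_union_le _ _)
  intro v hv
  have hv' : join D A v ≠ none := (mem_filter.1 hv).2
  rw [mem_union, mem_filter, mem_filter]
  unfold join at hv'
  by_cases h : D v ≠ none
  · exact Or.inl ⟨mem_univ _, h⟩
  · rw [if_neg h] at hv'
    exact Or.inr ⟨mem_univ _, hv'⟩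

theorem join_sub {D A W : PC N 1} (h1 : Sub D W) (h2 : Sub A W) : Sub (join D A) W := by
  intro v x hx
  unfold join at hx
  by_cases h : D v ≠ none
  · rw [if_pos h] at hx
    exact h1 v x hx
  · rw [if_neg h] at hx
    exact h2 v x hx

/-- If `D`, `W` are parts of `U`, `W ∈ F`, `D ∉ F` and `D ∪ W` is small, then `W` contains a
minimal extension of `D`. -/
theorem exists_ext {w θ : ℕ} {F : Finset (PC N 1)} (hF : ClosedW w θ F) {D W U : PC N 1}
    (hD : D ∉ F) (hDU : Sub D U) (hWU : Sub W U) (hW : W ∈ F) (hs : size D + size W ≤ w) :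
    ∃ A : PC N 1, IsExt F D A ∧ Sub A W ∧ 1 ≤ size A ∧ size A ≤ size W := by
  set W' : PC N 1 := fun v => if D v = none then W v else none with hW'
  have hW'W : Sub W' W := by
    intro v x hx
    rw [hW'] at hx
    by_cases h : D v = none
    · simpa [h] using hx
    · simp [h] at hx
  have hjW : Sub W (join D W') := by
    intro v x hx
    unfold join
    by_cases h : D v ≠ none
    · rw [if_pos h]
      obtain ⟨y, hy⟩ := Option.ne_none_iff_exists'.1 h
      rw [hy, ← hDU v y hy, hWU v x hx]
    · rw [if_neg h, hW']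
      push Not at h
      simp [h, hx]
  have hsub : ∀ {U V : PC N 1}, Sub U V → size U ≤ size V := by
    intro U V h
    refine card_le_card fun v hv => ?_
    rw [mem_filter] at hv ⊢
    obtain ⟨y, hy⟩ := Option.ne_none_iff_exists'.1 hv.2
    exact ⟨mem_univ _, by rw [h v y hy]; simp⟩
  have hjF : join D W' ∈ F :=
    hF.up hW hjW ((size_join_le D W').trans ((Nat.add_le_add_left (hsub hW'W) _).trans hs))
  obtain ⟨A, hA, hmin⟩ := exists_min_image
    (univ.filter fun A : PC N 1 => Sub A W' ∧ join D A ∈ F) size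
    ⟨W', mem_filter.2 ⟨mem_univ _, fun _ _ h => h, hjF⟩⟩
  rw [mem_filter] at hA
  obtain ⟨-, hAW, hAF⟩ := hA
  refine ⟨A, ⟨fun v hv => ?_, hAF, fun A' hA' hne hA'F => ?_⟩,
    fun v x hx => hW'W v x (hAW v x hx), ?_, hsub fun v x hx => hW'W v x (hAW v x hx)⟩
  · obtain ⟨y, hy⟩ := Option.ne_none_iff_exists'.1 hv
    have h1 := hAW v y hy
    rw [hW'] at h1
    by_contra h
    simp [h] at h1
  · have h1 := hmin A' (mem_filter.2 ⟨mem_univ _, fun v x hx => hAW v x (hA' v x hx), hA'F⟩)
    refine hne ?_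
    have h2 : (univ.filter fun v => A' v ≠ none) ⊆ (univ.filter fun v => A v ≠ none) := by
      intro v hv
      rw [mem_filter] at hv ⊢
      obtain ⟨y, hy⟩ := Option.ne_none_iff_exists'.1 hv.2
      exact ⟨mem_univ _, by rw [hA' v y hy]; simp⟩
    have h3 := eq_of_subset_of_card_le h2 h1
    funext v
    rcases hv : A' v with _ | x
    · by_contra hne'
      have h4 : v ∈ (univ.filter fun v => A' v ≠ none) := by
        rw [h3, mem_filter]
        exact ⟨mem_univ _, fun h => hne' h.symm⟩
      rw [mem_filter] at h4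
      exact h4.2 hv
    · exact (hA' v x hv).symm
  · by_contra h
    have h0 : size A = 0 := by omega
    refine hD ?_
    have h1 : join D A = D := by
      funext v
      unfold join
      by_cases hv : D v ≠ none
      · rw [if_pos hv]
      · rw [if_neg hv]
        push Not at hv
        rw [hv]
        by_contra hA0
        unfold size at h0
        rw [card_eq_zero] at h0
        have h2 : v ∈ (univ.filter fun v => A v ≠ none) := mem_filter.2 ⟨mem_univ _, hA0⟩
        rw [h0] at h2
        exact absurd h2 (notMem_empty _)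
    rw [← h1]
    exact hAF

/-- If `up P q` contains `U` but `up P q'` does not, then `U` colours a vertex of the path whose
position lies between `q` and `q'`. -/
theorem exists_between {P : Fin r → Fin N} (hP : Function.Injective P) {q q' : ℕ} {U : PC N 1}
    (h : Sub U (up P q)) (h' : ¬ Sub U (up P q')) :
    ∃ j : Fin r, U (P j) ≠ none ∧ min q q' ≤ (j : ℕ) ∧ (j : ℕ) < max q q' := by
  unfold MTS.Sub at h'
  push Not at h'
  obtain ⟨v, x, hv, hx⟩ := h'
  have hv0 : U v ≠ none := by rw [hv]; simp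
  obtain ⟨j, rfl⟩ := exists_pos h hv0
  refine ⟨j, hv0, ?_⟩
  have h1 := h _ x hv
  rw [up_apply hP] at h1 hx
  rw [← h1] at hx
  have h2 : decide ((j : ℕ) < q') ≠ decide ((j : ℕ) < q) := fun h3 => hx (by rw [h3])
  by_cases ha : (j : ℕ) < q <;> by_cases hb : (j : ℕ) < q'
  · exact absurd (by simp [ha, hb]) h2
  · omega
  · omega
  · exact absurd (by simp [ha, hb]) h2

end MTC
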